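import Mathlib
import Pool.Agent.Q1.M4.Poly

set_option autoImplicit false
open Finset

/-! # Rooms of a finite set of cells (route W, D11)

`F` a finite set of cells. `Row F l r y`: `[l, r) × {y}` is a maximal row interval of `F`; `lft F x y`,
`rgt F x y` its ends. `RSide F W y0 y1`: `{W} × [y0, y1)` is a maximal right side. The *room* of this side:
all cells of `F` in the rows `y0 ≤ y < y1` whose row interval ends at `W`, i.e. `lft F (W-1) y ≤ x < W`.
The rooms are a partition of `F`; horizontally adjacent cells are in the same room, vertically adjacent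
cells iff their row intervals have the same right end. -/

namespace Pool.Agent.H68.W

open Pool.Agent.Q1.M4 (Cell)

/-- `[l, r) × {y}` is a maximal row interval of `F` -/
structure Row (F : Finset Cell) (l r y : ℤ) : Prop where
  lt : l < r
  mem : ∀ x, l ≤ x → x < r → (x, y) ∈ F
  left : (l - 1, y) ∉ F
  right : (r, y) ∉ F

section
variable {F : Finset Cell} {l r l' r' x x' y W W' y0 y1 y0' y1' : ℤ}

/-- a bound for the coordinates -/
lemma exists_bound (F : Finset Cell) : ∃ B : ℤ, ∀ c ∈ F, |c.1| < B ∧ |c.2| < B := by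
  refine ⟨∑ c ∈ F, (|c.1| + |c.2|) + 1, fun c hc => ?_⟩
  have := single_le_sum (f := fun c : Cell => |c.1| + |c.2|) (fun i _ => by positivity) hc
  have a := abs_nonneg c.1
  have b := abs_nonneg c.2
  omega

lemma exists_rgt (F : Finset Cell) (x y : ℤ) : ∃ n : ℕ, (x + n, y) ∉ F := by
  obtain ⟨B, hB⟩ := exists_bound F
  refine ⟨(B - x).toNat, fun h => ?_⟩
  have := (abs_lt.1 (hB _ h).1).2
  simp only at this
  omega

lemma exists_lft (F : Finset Cell) (x y : ℤ) : ∃ n : ℕ, (x - n, y) ∉ F := by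
  obtain ⟨B, hB⟩ := exists_bound F
  refine ⟨(x + B).toNat, fun h => ?_⟩
  have := (abs_lt.1 (hB _ h).1).1
  simp only at this
  omega

/-- the first `x' ≥ x` with `(x', y) ∉ F` -/
def rgt (F : Finset Cell) (x y : ℤ) : ℤ := x + Nat.find (exists_rgt F x y)

/-- the left end of the row interval of `(x, y)` -/
def lft (F : Finset Cell) (x y : ℤ) : ℤ := x - Nat.find (exists_lft F x y) + 1

lemma rgt_not (F : Finset Cell) (x y : ℤ) : (rgt F x y, y) ∉ F := Nat.find_spec (exists_rgt F x y)

lemma rgt_mem (h : x ≤ x') (h' : x' < rgt F x y) : (x', y) ∈ F := by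
  have := Nat.find_min (exists_rgt F x y) (m := (x' - x).toNat) (by unfold rgt at h'; omega)
  rw [not_not, show x + ((x' - x).toNat : ℤ) = x' by omega] at this
  exact this

lemma lft_not (F : Finset Cell) (x y : ℤ) : (lft F x y - 1, y) ∉ F := by
  have := Nat.find_spec (exists_lft F x y)
  unfold lft
  rw [add_sub_cancel_right]
  exact this

lemma lft_mem (h : x' ≤ x) (h' : lft F x y ≤ x') : (x', y) ∈ F := by
  have := Nat.find_min (exists_lft F x y) (m := (x - x').toNat) (by unfold lft at h'; omega)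
  rw [not_not, show x - ((x - x').toNat : ℤ) = x' by omega] at this
  exact this

lemma le_rgt : x ≤ rgt F x y := by unfold rgt; omega

lemma lt_rgt (h : (x, y) ∈ F) : x < rgt F x y := by
  rcases lt_or_eq_of_le (le_rgt (F := F) (x := x) (y := y)) with h' | h'
  · exact h'
  · have := rgt_not F x y
    rw [← h'] at this
    exact absurd h this

lemma lft_le (h : (x, y) ∈ F) : lft F x y ≤ x := by
  by_contra h'
  have k := lft_not F x y
  have : lft F x y = x + 1 := by unfold lft at h' ⊢; omega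
  rw [this, add_sub_cancel_right] at k
  exact k h

/-- every cell is in the row interval between `lft` and `rgt` -/
lemma row_of (h : (x, y) ∈ F) : Row F (lft F x y) (rgt F x y) y where
  lt := (lft_le h).trans_lt (lt_rgt h)
  mem := fun x' h1 h2 => by
    rcases le_total x x' with h3 | h3
    · exact rgt_mem h3 h2
    · exact lft_mem h3 h1
  left := lft_not F x y
  right := rgt_not F x y

lemma Row.rgt_eq (H : Row F l r y) (h1 : l ≤ x) (h2 : x < r) : rgt F x y = r := by
  apply le_antisymm
  · by_contra h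
    exact H.right (rgt_mem h2.le (by omega))
  · by_contra h
    exact rgt_not F x y (H.mem _ (h1.trans le_rgt) (by omega))

lemma Row.lft_eq (H : Row F l r y) (h1 : l ≤ x) (h2 : x < r) : lft F x y = l := by
  have hx := H.mem x h1 h2
  apply le_antisymm
  · by_contra h
    exact lft_not F x y (H.mem _ (by omega) (by have := lft_le hx; omega))
  · by_contra h
    exact H.left (lft_mem (x := x) (by omega) (by omega))

lemma Row.uniq (H : Row F l r y) (H' : Row F l' r' y) (h1 : l ≤ x) (h2 : x < r) (h3 : l' ≤ x)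
    (h4 : x < r') : l = l' ∧ r = r' :=
  ⟨(H.lft_eq h1 h2).symm.trans (H'.lft_eq h3 h4), (H.rgt_eq h1 h2).symm.trans (H'.rgt_eq h3 h4)⟩

/-- a row interval which ends at `W` -/
lemma Row.last (H : Row F l r y) : (r - 1, y) ∈ F := H.mem _ (by have := H.lt; omega) (by omega)

lemma row_last (h1 : (W - 1, y) ∈ F) (h2 : (W, y) ∉ F) : Row F (lft F (W - 1) y) W y := by
  have H := row_of h1
  have : rgt F (W - 1) y = W := by
    apply le_antisymm
    · by_contra h
      exact h2 (rgt_mem (F := F) (x := W - 1) (by omega) (by omega))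
    · have := lt_rgt h1; omega
  rwa [this] at H

lemma rgt_iff (h : (x, y) ∈ F) : rgt F x y = W ↔ (W, y) ∉ F ∧ lft F (W - 1) y ≤ x ∧ x < W := by
  constructor
  · rintro rfl
    have H := row_of h
    refine ⟨H.right, ?_, lt_rgt h⟩
    rw [H.lft_eq (by have := H.lt; omega) (by omega)]
    exact lft_le h
  · rintro ⟨h1, h2, h3⟩
    have h4 : (W - 1, y) ∈ F := by
      by_contra h4
      have := lft_not F (W - 1) y
      rcases lt_or_eq_of_le (show x ≤ W - 1 by omega) with h5 | h5
      · exact h4 (lft_mem le_rfl (by omega))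
      · exact h4 (h5 ▸ h)
    exact (row_last h4 h1).rgt_eq h2 h3

/-- horizontally adjacent cells have the same ends -/
lemma rgt_succ (h1 : (x, y) ∈ F) (h2 : (x + 1, y) ∈ F) :
    rgt F (x + 1) y = rgt F x y ∧ lft F (x + 1) y = lft F x y := by
  have H := row_of h1
  have h3 : x + 1 < rgt F x y := by
    rcases lt_or_eq_of_le (show x + 1 ≤ rgt F x y by have := lt_rgt h1; omega) with h | h
    · exact h
    · exact absurd (h ▸ h2) (rgt_not F x y)
  exact ⟨H.rgt_eq (by have := lft_le h1; omega) h3, H.lft_eq (by have := lft_le h1; omega) h3⟩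

/-! ### Right sides -/

/-- `{W} × [y0, y1)` is a maximal right side of `F` -/
structure RSide (F : Finset Cell) (W y0 y1 : ℤ) : Prop where
  lt : y0 < y1
  mem : ∀ y, y0 ≤ y → y < y1 → (W - 1, y) ∈ F
  out : ∀ y, y0 ≤ y → y < y1 → (W, y) ∉ F
  bot : (W - 1, y0 - 1) ∈ F → (W, y0 - 1) ∈ F
  top : (W - 1, y1) ∈ F → (W, y1) ∈ F

/-- the unit side `{W} × [y, y+1]` is a right side -/
def RS (F : Finset Cell) (W y : ℤ) : Prop := (W - 1, y) ∈ F ∧ (W, y) ∉ F

instance (F : Finset Cell) (W y : ℤ) : Decidable (RS F W y) := by unfold RS; infer_instance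

lemma exists_top (F : Finset Cell) (W y : ℤ) : ∃ n : ℕ, ¬ RS F W (y + n) := by
  obtain ⟨B, hB⟩ := exists_bound F
  refine ⟨(B - y).toNat, fun h => ?_⟩
  have := (abs_lt.1 (hB _ h.1).2).2
  simp only at this
  omega

lemma exists_bot (F : Finset Cell) (W y : ℤ) : ∃ n : ℕ, ¬ RS F W (y - n) := by
  obtain ⟨B, hB⟩ := exists_bound F
  refine ⟨(y + B).toNat, fun h => ?_⟩
  have := (abs_lt.1 (hB _ h.1).2).1
  simp only at this
  omega

/-- top of the maximal right side at `(W, y)` -/
def rtop (F : Finset Cell) (W y : ℤ) : ℤ := y + Nat.find (exists_top F W y)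

/-- bottom of the maximal right side at `(W, y)` -/
def rbot (F : Finset Cell) (W y : ℤ) : ℤ := y - Nat.find (exists_bot F W y) + 1

lemma rtop_not (F : Finset Cell) (W y : ℤ) : ¬ RS F W (rtop F W y) := Nat.find_spec (exists_top F W y)

lemma rtop_mem {y' : ℤ} (h : y ≤ y') (h' : y' < rtop F W y) : RS F W y' := by
  have := Nat.find_min (exists_top F W y) (m := (y' - y).toNat) (by unfold rtop at h'; omega)
  rw [not_not, show y + ((y' - y).toNat : ℤ) = y' by omega] at this
  exact this

lemma rbot_not (F : Finset Cell) (W y : ℤ) : ¬ RS F W (rbot F W y - 1) := by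
  have := Nat.find_spec (exists_bot F W y)
  unfold rbot
  rw [add_sub_cancel_right]
  exact this

lemma rbot_mem {y' : ℤ} (h : y' ≤ y) (h' : rbot F W y ≤ y') : RS F W y' := by
  have := Nat.find_min (exists_bot F W y) (m := (y - y').toNat) (by unfold rbot at h'; omega)
  rw [not_not, show y - ((y - y').toNat : ℤ) = y' by omega] at this
  exact this

lemma lt_rtop (h : RS F W y) : y < rtop F W y := by
  rcases lt_or_eq_of_le (show y ≤ rtop F W y by unfold rtop; omega) with h' | h'
  · exact h'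
  · have := rtop_not F W y
    rw [← h'] at this
    exact absurd h this

lemma rbot_le (h : RS F W y) : rbot F W y ≤ y := by
  by_contra h'
  have k := rbot_not F W y
  have : rbot F W y = y + 1 := by unfold rbot at h' ⊢; omega
  rw [this, add_sub_cancel_right] at k
  exact k h

/-- every unit right side is in the maximal right side between `rbot` and `rtop` -/
lemma rside_of (h : RS F W y) : RSide F W (rbot F W y) (rtop F W y) where
  lt := (rbot_le h).trans_lt (lt_rtop h)
  mem := fun y' h1 h2 => by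
    rcases le_total y y' with h3 | h3
    · exact (rtop_mem h3 h2).1
    · exact (rbot_mem h3 h1).1
  out := fun y' h1 h2 => by
    rcases le_total y y' with h3 | h3
    · exact (rtop_mem h3 h2).2
    · exact (rbot_mem h3 h1).2
  bot := fun h1 => by by_contra h2; exact rbot_not F W y ⟨h1, h2⟩
  top := fun h1 => by by_contra h2; exact rtop_not F W y ⟨h1, h2⟩

lemma RSide.rs (H : RSide F W y0 y1) (h1 : y0 ≤ y) (h2 : y < y1) : RS F W y :=
  ⟨H.mem y h1 h2, H.out y h1 h2⟩

lemma RSide.top_eq (H : RSide F W y0 y1) (h1 : y0 ≤ y) (h2 : y < y1) : rtop F W y = y1 := by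
  apply le_antisymm
  · by_contra h
    have := rtop_mem (F := F) (W := W) h2.le (by omega)
    exact this.2 (H.top this.1)
  · by_contra h
    exact rtop_not F W y (H.rs (h1.trans (by unfold rtop; omega)) (by omega))

lemma RSide.bot_eq (H : RSide F W y0 y1) (h1 : y0 ≤ y) (h2 : y < y1) : rbot F W y = y0 := by
  apply le_antisymm
  · by_contra h
    exact rbot_not F W y (H.rs (by omega) (by have := rbot_le (H.rs h1 h2); omega))
  · by_contra h
    have := rbot_mem (F := F) (W := W) (y := y) (y' := y0 - 1) (by omega) (by omega)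
    exact this.2 (H.bot this.1)

lemma RSide.uniq (H : RSide F W y0 y1) (H' : RSide F W y0' y1') (h1 : y0 ≤ y) (h2 : y < y1)
    (h3 : y0' ≤ y) (h4 : y < y1') : y0 = y0' ∧ y1 = y1' :=
  ⟨(H.bot_eq h1 h2).symm.trans (H'.bot_eq h3 h4), (H.top_eq h1 h2).symm.trans (H'.top_eq h3 h4)⟩

/-- the row of a right side -/
lemma RSide.row (H : RSide F W y0 y1) (h1 : y0 ≤ y) (h2 : y < y1) : Row F (lft F (W - 1) y) W y :=
  row_last (H.mem y h1 h2) (H.out y h1 h2)

/-! ### Rooms -/

/-- the room of the maximal right side `{W} × [y0, y1)` -/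
def room (F : Finset Cell) (W y0 y1 : ℤ) : Finset Cell :=
  F.filter fun c => rgt F c.1 c.2 = W ∧ y0 ≤ c.2 ∧ c.2 < y1

lemma mem_room' : (x, y) ∈ room F W y0 y1 ↔ (x, y) ∈ F ∧ rgt F x y = W ∧ y0 ≤ y ∧ y < y1 := by
  unfold room
  rw [mem_filter]

/-- **The rows of a room.** -/
lemma RSide.mem_room (H : RSide F W y0 y1) :
    (x, y) ∈ room F W y0 y1 ↔ (lft F (W - 1) y ≤ x ∧ x < W) ∧ y0 ≤ y ∧ y < y1 := by
  rw [mem_room']
  constructor
  · rintro ⟨h1, h2, h3⟩
    exact ⟨((rgt_iff h1).1 h2).2, h3⟩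
  · rintro ⟨h1, h2, h3⟩
    have R := H.row h2 h3
    exact ⟨R.mem x h1.1 h1.2, R.rgt_eq h1.1 h1.2, h2, h3⟩

lemma rs_rgt (h : (x, y) ∈ F) : RS F (rgt F x y) y := ⟨(row_of h).last, rgt_not F x y⟩

/-- the name of the room of a cell: right end, bottom of the right side -/
def rid (F : Finset Cell) (x y : ℤ) : ℤ × ℤ := (rgt F x y, rbot F (rgt F x y) y)

/-- **Every cell is in a room.** -/
theorem exists_room (h : (x, y) ∈ F) : ∃ W y0 y1, RSide F W y0 y1 ∧ (x, y) ∈ room F W y0 y1 ∧
    rid F x y = (W, y0) ∧ rtop F W y = y1 := by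
  have H := rside_of (rs_rgt h)
  exact ⟨_, _, _, H, mem_room'.2 ⟨h, rfl, rbot_le (rs_rgt h), lt_rtop (rs_rgt h)⟩, rfl, rfl⟩

/-- **Every cell is in only one room.** -/
theorem room_uniq (H : RSide F W y0 y1) (H' : RSide F W' y0' y1') (h : (x, y) ∈ room F W y0 y1)
    (h' : (x, y) ∈ room F W' y0' y1') : W = W' ∧ y0 = y0' ∧ y1 = y1' := by
  rw [mem_room'] at h h'
  obtain ⟨h1, rfl, h2, h3⟩ := h
  obtain ⟨-, rfl, h5, h6⟩ := h'
  exact ⟨rfl, H.uniq H' h2 h3 h5 h6⟩

lemma RSide.rid_eq (H : RSide F W y0 y1) (h : (x, y) ∈ room F W y0 y1) : rid F x y = (W, y0) := by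
  rw [mem_room'] at h
  obtain ⟨h1, rfl, h2, h3⟩ := h
  unfold rid
  rw [H.bot_eq h2 h3]

lemma RSide.mem_iff_rid (H : RSide F W y0 y1) (h : (x, y) ∈ F) :
    (x, y) ∈ room F W y0 y1 ↔ rid F x y = (W, y0) := by
  refine ⟨H.rid_eq, fun h' => ?_⟩
  obtain ⟨W', y0', y1', H', h1, h2, -⟩ := exists_room h
  rw [h', Prod.mk.injEq] at h2
  obtain ⟨rfl, rfl⟩ := h2
  have := H.uniq H' (y := y0) le_rfl H.lt le_rfl H'.lt
  rw [this.2]
  exact h1

/-- horizontally adjacent cells are in the same room -/
theorem rid_succ (h1 : (x, y) ∈ F) (h2 : (x + 1, y) ∈ F) : rid F (x + 1) y = rid F x y := by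
  unfold rid
  rw [(rgt_succ h1 h2).1]

/-- the cells of a row interval are in the same room -/
lemma Row.rid_eq (H : Row F l r y) (h1 : l ≤ x) (h2 : x < r) (h3 : l ≤ x') (h4 : x' < r) :
    rid F x y = rid F x' y := by
  unfold rid
  rw [H.rgt_eq h1 h2, H.rgt_eq h3 h4]

/-- vertically adjacent cells are in the same room iff their rows have the same right end -/
theorem rid_up (h1 : (x, y) ∈ F) (h2 : (x, y + 1) ∈ F) :
    rid F x (y + 1) = rid F x y ↔ rgt F x (y + 1) = rgt F x y := by
  constructor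
  · intro h
    exact (Prod.mk.inj h).1
  · intro h
    unfold rid
    rw [h]
    congr 1
    have a := rs_rgt h1
    have b := rs_rgt h2
    rw [h] at b
    have H := rside_of a
    have c : y + 1 < rtop F (rgt F x y) y := by
      rcases lt_or_eq_of_le (show y + 1 ≤ rtop F (rgt F x y) y by have := lt_rtop a; omega) with h | h
      · exact h
      · exact absurd (h ▸ b) (rtop_not _ _ _)
    exact H.bot_eq (by have := rbot_le a; omega) c

/-- all rooms -/
def rooms (F : Finset Cell) : Finset (ℤ × ℤ) := F.image fun c => rid F c.1 c.2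

/-- the cells of a room with a given name -/
def cells (F : Finset Cell) (k : ℤ × ℤ) : Finset Cell := F.filter fun c => rid F c.1 c.2 = k

lemma mem_cells {k : ℤ × ℤ} : (x, y) ∈ cells F k ↔ (x, y) ∈ F ∧ rid F x y = k := by
  unfold cells
  rw [mem_filter]

lemma RSide.cells_eq (H : RSide F W y0 y1) : cells F (W, y0) = room F W y0 y1 := by
  ext ⟨x, y⟩
  rw [mem_cells]
  constructor
  · rintro ⟨h1, h2⟩
    exact (H.mem_iff_rid h1).2 h2
  · intro h
    exact ⟨(mem_room'.1 h).1, H.rid_eq h⟩

/-- the names of the rooms are the lower ends of the maximal right sides -/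
lemma mem_rooms : (W, y0) ∈ rooms F ↔ ∃ y1, RSide F W y0 y1 := by
  unfold rooms
  rw [mem_image]
  constructor
  · rintro ⟨⟨x, y⟩, h1, h2⟩
    obtain ⟨W', y0', y1', H, -, h3, -⟩ := exists_room h1
    simp only at h2
    rw [h2, Prod.mk.injEq] at h3
    obtain ⟨rfl, rfl⟩ := h3
    exact ⟨_, H⟩
  · rintro ⟨y1, H⟩
    have h : (W - 1, y0) ∈ room F W y0 y1 := by
      rw [H.mem_room]
      have := (H.row le_rfl H.lt).lt
      exact ⟨⟨by omega, by omega⟩, le_rfl, H.lt⟩
    exact ⟨(W - 1, y0), (mem_room'.1 h).1, H.rid_eq h⟩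

/-- the rooms are disjoint and their union is `F` -/
lemma biUnion_cells (F : Finset Cell) : (rooms F).biUnion (cells F) = F := by
  ext ⟨x, y⟩
  rw [mem_biUnion]
  constructor
  · rintro ⟨k, -, h⟩
    exact (mem_cells.1 h).1
  · intro h
    exact ⟨rid F x y, mem_image_of_mem (fun c : Cell => rid F c.1 c.2) h, mem_cells.2 ⟨h, rfl⟩⟩

lemma disjoint_cells {k k' : ℤ × ℤ} (h : k ≠ k') : Disjoint (cells F k) (cells F k') := by
  rw [disjoint_left]
  rintro ⟨x, y⟩ h1 h2
  exact h ((mem_cells.1 h1).2.symm.trans (mem_cells.1 h2).2)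

end

end Pool.Agent.H68.W
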