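import Mathlib
import Pool.Agent.H68.W.Room
import Pool.Agent.H13.W.Top

set_option autoImplicit false
open Finset

/-! # Chords and rooms of a generic polyomino (route W, D11 (P), parts (1), (2))

`Chord Q l r y`: the segment `[l, r) × {y}` (line `y`, cells `(x, y - 1)` below, `(x, y)` above) starts
in the interior of a vertical left wall and ends at a reflex corner. `chG Q` = sides of the chords = pairs
of vertically adjacent cells whose row intervals have different right ends. On the short side the chord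
is the whole first (last) row of a room, on the long side it starts at the left end of a jump of the left
wall (or of the first, last row). -/

namespace Pool.Agent.H68.W

open Pool.Agent.Q1.M4 (Cell)
open Pool.Agent.H5.C3 (Gen)
open Pool.Agent.H13.W (chG)

/-- **Chords**: `[l, r) × {y}` is inside, both rows begin at `l`, exactly one of them ends at `r`. -/
structure Chord (Q : Finset Cell) (l r y : ℤ) : Prop where
  lt : l < r
  mem : ∀ x, l ≤ x → x < r → (x, y) ∈ Q ∧ (x, y - 1) ∈ Q
  left : (l - 1, y) ∉ Q ∧ (l - 1, y - 1) ∉ Q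
  right : ¬ ((r, y) ∈ Q ↔ (r, y - 1) ∈ Q)

section
variable {Q : Finset Cell} {l r l' r' x x' y W y0 y1 : ℤ}

/-- **The sides of the chords** = vertically adjacent cells with different right ends. -/
theorem mem_chG : (x, y) ∈ chG Q ↔ (x, y) ∈ Q ∧ (x, y - 1) ∈ Q ∧ rgt Q x y ≠ rgt Q x (y - 1) := by
  classical
  unfold chG
  rw [mem_filter]
  constructor
  · rintro ⟨h1, h2, b, hb, h3, h4⟩
    refine ⟨h1, h2, fun e => ?_⟩
    simp only at h3 h4 hb
    have a1 : b ≤ rgt Q x y := by
      by_contra h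
      exact rgt_not Q x y (h3 _ le_rgt (by omega)).1
    have a2 : b ≤ rgt Q x (y - 1) := by
      by_contra h
      exact rgt_not Q x (y - 1) (h3 _ le_rgt (by omega)).2
    rcases lt_or_eq_of_le a1 with h | h
    · exact h4 (iff_of_true (rgt_mem (x := x) (by omega) h) (rgt_mem (x := x) (by omega) (by omega)))
    · apply h4
      rw [h]
      refine iff_of_false (rgt_not Q x y) ?_
      rw [e]
      exact rgt_not Q x (y - 1)
  · rintro ⟨h1, h2, h3⟩
    refine ⟨h1, h2, min (rgt Q x y) (rgt Q x (y - 1)), lt_min (lt_rgt h1) (lt_rgt h2), ?_, ?_⟩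
    · intro x' a b
      rw [lt_min_iff] at b
      exact ⟨rgt_mem a b.1, rgt_mem a b.2⟩
    · rcases lt_or_gt_of_ne h3 with h | h
      · rw [min_eq_left h.le]
        exact fun k => rgt_not Q x y (k.2 (rgt_mem le_rgt h))
      · rw [min_eq_right h.le]
        exact fun k => rgt_not Q x (y - 1) (k.1 (rgt_mem le_rgt h))

/-- both rows of a chord begin at the same place -/
lemma chG_lft (hG : Gen Q) (h : (x, y) ∈ chG Q) : lft Q x (y - 1) = lft Q x y := by
  obtain ⟨h1, h2, h3⟩ := mem_chG.1 h
  have R1 := row_of h1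
  have R2 := row_of h2
  have l1 := lft_le h1
  have l2 := lft_le h2
  have r1 := lt_rgt h1
  have r2 := lt_rgt h2
  have key := hG (max (lft Q x y) (lft Q x (y - 1))) (min (rgt Q x y) (rgt Q x (y - 1))) y
    (lt_of_le_of_lt (max_le l1 l2) (lt_min r1 r2)) (fun x' a b => by
      rw [max_le_iff] at a
      rw [lt_min_iff] at b
      exact ⟨R1.mem x' a.1 b.1, R2.mem x' a.2 b.2⟩)
  rcases key with k | k
  · rcases lt_trichotomy (lft Q x y) (lft Q x (y - 1)) with h4 | h4 | h4
    · rw [max_eq_right h4.le] at k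
      exact absurd (k.1 (R1.mem _ (by omega) (by omega))) R2.left
    · exact h4.symm
    · rw [max_eq_left h4.le] at k
      exact absurd (k.2 (R2.mem _ (by omega) (by omega))) R1.left
  · rcases lt_or_gt_of_ne h3 with h4 | h4
    · rw [min_eq_left h4.le] at k
      exact absurd (k.2 (R2.mem _ (by omega) h4)) R1.right
    · rw [min_eq_right h4.le] at k
      exact absurd (k.1 (R1.mem _ (by omega) h4)) R2.right

/-- **Every side of `chG` is in a chord** which begins at the left end of both rows. -/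
theorem chord_of (hG : Gen Q) (h : (x, y) ∈ chG Q) :
    Chord Q (lft Q x y) (min (rgt Q x y) (rgt Q x (y - 1))) y := by
  have hl := chG_lft hG h
  obtain ⟨h1, h2, h3⟩ := mem_chG.1 h
  have R1 := row_of h1
  have R2 := row_of h2
  rw [hl] at R2
  refine ⟨lt_min R1.lt R2.lt, fun x' a b => ?_, ⟨R1.left, R2.left⟩, fun k => ?_⟩
  · rw [lt_min_iff] at b
    exact ⟨R1.mem x' a b.1, R2.mem x' a b.2⟩
  · have l1 := lft_le h1
    rcases lt_or_gt_of_ne h3 with h4 | h4
    · rw [min_eq_left h4.le] at k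
      exact absurd (k.2 (R2.mem _ (by have := R1.lt; omega) h4)) R1.right
    · rw [min_eq_right h4.le] at k
      exact absurd (k.1 (R1.mem _ (by have := R2.lt; omega) h4)) R2.right

namespace Chord

lemma row_up (H : Chord Q l r y) (h1 : l ≤ x) (h2 : x < r) : Row Q l (rgt Q x y) y := by
  have R := row_of (H.mem x h1 h2).1
  have : lft Q x y = l := by
    apply le_antisymm
    · by_contra h
      exact lft_not Q x y (H.mem _ (by omega) (by have := R.lt; have := lft_le (H.mem x h1 h2).1; omega)).1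
    · by_contra h
      exact H.left.1 (lft_mem (x := x) (by omega) (by omega))
  rwa [this] at R

lemma row_dn (H : Chord Q l r y) (h1 : l ≤ x) (h2 : x < r) : Row Q l (rgt Q x (y - 1)) (y - 1) := by
  have R := row_of (H.mem x h1 h2).2
  have : lft Q x (y - 1) = l := by
    apply le_antisymm
    · by_contra h
      exact lft_not Q x (y - 1)
        (H.mem _ (by omega) (by have := R.lt; have := lft_le (H.mem x h1 h2).2; omega)).2
    · by_contra h
      exact H.left.2 (lft_mem (x := x) (by omega) (by omega))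
  rwa [this] at R

lemma lft_up (H : Chord Q l r y) (h1 : l ≤ x) (h2 : x < r) : lft Q x y = l :=
  (H.row_up h1 h2).lft_eq h1 (lt_rgt (H.mem x h1 h2).1)

lemma lft_dn (H : Chord Q l r y) (h1 : l ≤ x) (h2 : x < r) : lft Q x (y - 1) = l :=
  (H.row_dn h1 h2).lft_eq h1 (lt_rgt (H.mem x h1 h2).2)

lemma le_rgt_up (H : Chord Q l r y) (h1 : l ≤ x) : r ≤ rgt Q x y := by
  by_contra h
  exact rgt_not Q x y (H.mem _ (h1.trans le_rgt) (by omega)).1

lemma le_rgt_dn (H : Chord Q l r y) (h1 : l ≤ x) : r ≤ rgt Q x (y - 1) := by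
  by_contra h
  exact rgt_not Q x (y - 1) (H.mem _ (h1.trans le_rgt) (by omega)).2

/-- exactly one of the two rows ends at the end of the chord -/
lemma rgt_or (H : Chord Q l r y) (h1 : l ≤ x) (h2 : x < r) :
    ((r, y) ∉ Q ∧ (r, y - 1) ∈ Q ∧ rgt Q x y = r ∧ r < rgt Q x (y - 1)) ∨
      ((r, y) ∈ Q ∧ (r, y - 1) ∉ Q ∧ rgt Q x (y - 1) = r ∧ r < rgt Q x y) := by
  have a := H.le_rgt_up h1
  have b := H.le_rgt_dn h1
  have ra := H.row_up h1 h2
  have rb := H.row_dn h1 h2
  by_cases k : (r, y) ∈ Q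
  · have k' : (r, y - 1) ∉ Q := fun k' => H.right (iff_of_true k k')
    refine Or.inr ⟨k, k', ?_, ?_⟩
    · by_contra h
      exact k' (rb.mem r H.lt.le (by omega))
    · rcases lt_or_eq_of_le a with h | h
      · exact h
      · exact absurd (h ▸ k) (rgt_not Q x y)
  · have k' : (r, y - 1) ∈ Q := by
      by_contra k'
      exact H.right (iff_of_false k k')
    refine Or.inl ⟨k, k', ?_, ?_⟩
    · by_contra h
      exact k (ra.mem r H.lt.le (by omega))
    · rcases lt_or_eq_of_le b with h | h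
      · exact h
      · exact absurd (h ▸ k') (rgt_not Q x (y - 1))

/-- the sides of a chord are in `chG` -/
theorem mem_chG (H : Chord Q l r y) (h1 : l ≤ x) (h2 : x < r) : (x, y) ∈ chG Q := by
  rw [W.mem_chG]
  refine ⟨(H.mem x h1 h2).1, (H.mem x h1 h2).2, ?_⟩
  rcases H.rgt_or h1 h2 with h | h <;> omega

lemma r_eq (H : Chord Q l r y) (h1 : l ≤ x) (h2 : x < r) :
    min (rgt Q x y) (rgt Q x (y - 1)) = r := by
  rcases H.rgt_or h1 h2 with h | h
  · rw [h.2.2.1]; exact min_eq_left h.2.2.2.le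
  · rw [h.2.2.1]; exact min_eq_right h.2.2.2.le

theorem uniq (H : Chord Q l r y) (H' : Chord Q l' r' y) (h1 : l ≤ x) (h2 : x < r) (h3 : l' ≤ x)
    (h4 : x < r') : l = l' ∧ r = r' :=
  ⟨(H.lft_up h1 h2).symm.trans (H'.lft_up h3 h4), (H.r_eq h1 h2).symm.trans (H'.r_eq h3 h4)⟩

/-- a chord on the same line is to the right of the row intervals -/
lemma mem_iff (hG : Gen Q) (H : Chord Q l r y) (hx : (x, y) ∈ chG Q) (h : lft Q x y = l) :
    l ≤ x ∧ x < r := by
  have H' := chord_of hG hx
  rw [h] at H'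
  have h1 : (x, y) ∈ Q := (W.mem_chG.1 hx).1
  have h2 : (x, y - 1) ∈ Q := (W.mem_chG.1 hx).2.1
  have e := H.uniq H' (x := l) le_rfl H.lt le_rfl H'.lt
  refine ⟨h ▸ lft_le h1, ?_⟩
  rw [e.2, lt_min_iff]
  exact ⟨lt_rgt h1, lt_rgt h2⟩

/-- **Short side below**: the chord is the last row of the room below -/
theorem short_dn (H : Chord Q l r y) (h : (r, y) ∈ Q) :
    RSide Q r (rbot Q r (y - 1)) y ∧ lft Q (r - 1) (y - 1) = l ∧ Row Q l r (y - 1) := by
  have h2 := H.lt
  rcases H.rgt_or (x := r - 1) (by omega) (by omega) with k | k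
  · exact absurd h k.1
  · have a := rside_of (F := Q) (W := r) (y := y - 1) ⟨(H.mem (r - 1) (by omega) (by omega)).2, k.2.1⟩
    have e : rtop Q r (y - 1) = y := by
      have a1 := lt_rtop (F := Q) (W := r) (y := y - 1)
        ⟨(H.mem (r - 1) (by omega) (by omega)).2, k.2.1⟩
      by_contra hne
      exact a.out y (by have := a.lt; unfold rbot at *; omega) (by omega) h
    rw [e] at a
    have R := H.row_dn (x := r - 1) (by omega) (by omega)
    rw [k.2.2.1] at R
    exact ⟨a, H.lft_dn (by omega) (by omega), R⟩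

/-- **Short side above**: the chord is the first row of the room above -/
theorem short_up (H : Chord Q l r y) (h : (r, y - 1) ∈ Q) :
    RSide Q r y (rtop Q r y) ∧ lft Q (r - 1) y = l ∧ Row Q l r y := by
  have h2 := H.lt
  rcases H.rgt_or (x := r - 1) (by omega) (by omega) with k | k
  · have a := rside_of (F := Q) (W := r) (y := y) ⟨(H.mem (r - 1) (by omega) (by omega)).1, k.1⟩
    have e : rbot Q r y = y := by
      have a1 := rbot_le (F := Q) (W := r) (y := y) ⟨(H.mem (r - 1) (by omega) (by omega)).1, k.1⟩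
      by_contra hne
      exact a.out (y - 1) (by omega) (by have := a.lt; unfold rtop at *; omega) h
    rw [e] at a
    have R := H.row_up (x := r - 1) (by omega) (by omega)
    rw [k.2.2.1] at R
    exact ⟨a, H.lft_up (by omega) (by omega), R⟩
  · exact absurd h k.2.1

end Chord

/-! ### The chords at a room -/

/-- **The upper end of a right side**: a convex corner or a chord which is the whole last row. -/
theorem RSide.top_chord (hG : Gen Q) (H : RSide Q W y0 y1) (h : (W - 1, y1) ∈ Q) :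
    Chord Q (lft Q (W - 1) (y1 - 1)) W y1 := by
  have hlt := H.lt
  have a := H.mem (y1 - 1) (by omega) (by omega)
  have b := H.out (y1 - 1) (by omega) (by omega)
  have c := H.top h
  have hx : (W - 1, y1) ∈ chG Q := by
    rw [mem_chG]
    refine ⟨h, a, ?_⟩
    have e := (row_last a b).rgt_eq (lft_le a) (by omega)
    rw [e]
    intro e'
    exact rgt_not Q (W - 1) y1 (e'.symm ▸ c)
  have C := chord_of hG hx
  rw [← chG_lft hG hx] at C
  have e := (row_last a b).rgt_eq (lft_le a) (by omega)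
  have e2 : W < rgt Q (W - 1) y1 := by
    rcases lt_or_eq_of_le (show W ≤ rgt Q (W - 1) y1 by have := lt_rgt h; omega) with k | k
    · exact k
    · exact absurd (k ▸ c) (rgt_not Q _ y1)
  rw [e, min_eq_right e2.le] at C
  exact C

/-- **The lower end of a right side**: a convex corner or a chord which is the whole first row. -/
theorem RSide.bot_chord (hG : Gen Q) (H : RSide Q W y0 y1) (h : (W - 1, y0 - 1) ∈ Q) :
    Chord Q (lft Q (W - 1) y0) W y0 := by
  have hlt := H.lt
  have a := H.mem y0 le_rfl hlt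
  have b := H.out y0 le_rfl hlt
  have c := H.bot h
  have e := (row_last a b).rgt_eq (lft_le a) (by omega)
  have e2 : W < rgt Q (W - 1) (y0 - 1) := by
    rcases lt_or_eq_of_le (show W ≤ rgt Q (W - 1) (y0 - 1) by have := lt_rgt h; omega) with k | k
    · exact k
    · exact absurd (k ▸ c) (rgt_not Q _ (y0 - 1))
  have hx : (W - 1, y0) ∈ chG Q := by
    rw [mem_chG]
    exact ⟨a, h, by omega⟩
  have C := chord_of hG hx
  rw [e, min_eq_left e2.le] at C
  exact C

/-- **Above a row** there is at most one chord; it begins at the left end of the row. -/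
theorem Row.up (hG : Gen Q) (H : Row Q l W y) :
    (∀ x, l ≤ x → x < W → (x, y + 1) ∈ Q → rgt Q x (y + 1) = W) ∨
      ∃ r, r ≤ W ∧ Chord Q l r (y + 1) ∧
        ∀ x, l ≤ x → x < W → ((x, y + 1) ∈ Q ∧ rgt Q x (y + 1) ≠ W ↔ x < r) := by
  by_cases h : ∀ x, l ≤ x → x < W → (x, y + 1) ∈ Q → rgt Q x (y + 1) = W
  · exact Or.inl h
  · push Not at h
    obtain ⟨x, h1, h2, h3, h4⟩ := h
    have key : ∀ x, l ≤ x → x < W → (x, y + 1) ∈ Q → rgt Q x (y + 1) ≠ W →
        (x, y + 1) ∈ chG Q ∧ lft Q x (y + 1) = l ∧ rgt Q x y = W := by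
      intro x a b c d
      have e := H.rgt_eq a b
      have m : (x, y + 1) ∈ chG Q := by
        rw [mem_chG, add_sub_cancel_right]
        exact ⟨c, H.mem x a b, by omega⟩
      refine ⟨m, ?_, e⟩
      have := chG_lft hG m
      rw [add_sub_cancel_right] at this
      rw [← this]
      exact H.lft_eq a b
    obtain ⟨k1, k2, k3⟩ := key x h1 h2 h3 h4
    have C := chord_of hG k1
    rw [add_sub_cancel_right, k2, k3] at C
    refine Or.inr ⟨_, min_le_right _ _, C, fun x' a b => ⟨fun c => ?_, fun c => ?_⟩⟩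
    · obtain ⟨m1, m2, m3⟩ := key x' a b c.1 c.2
      exact (Chord.mem_iff hG C m1 m2).2
    · have m := C.mem x' a c
      refine ⟨m.1, fun e => ?_⟩
      have := mem_chG.1 (C.mem_chG a c)
      rw [add_sub_cancel_right] at this
      exact this.2.2 (e.trans (H.rgt_eq a b).symm)

/-- **Below a row** there is at most one chord; it begins at the left end of the row. -/
theorem Row.dn (hG : Gen Q) (H : Row Q l W y) :
    (∀ x, l ≤ x → x < W → (x, y - 1) ∈ Q → rgt Q x (y - 1) = W) ∨
      ∃ r, r ≤ W ∧ Chord Q l r y ∧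
        ∀ x, l ≤ x → x < W → ((x, y - 1) ∈ Q ∧ rgt Q x (y - 1) ≠ W ↔ x < r) := by
  by_cases h : ∀ x, l ≤ x → x < W → (x, y - 1) ∈ Q → rgt Q x (y - 1) = W
  · exact Or.inl h
  · push Not at h
    obtain ⟨x, h1, h2, h3, h4⟩ := h
    have key : ∀ x, l ≤ x → x < W → (x, y - 1) ∈ Q → rgt Q x (y - 1) ≠ W →
        (x, y) ∈ chG Q ∧ lft Q x y = l ∧ rgt Q x y = W := by
      intro x a b c d
      have e := H.rgt_eq a b
      have m : (x, y) ∈ chG Q := by
        rw [mem_chG]
        exact ⟨H.mem x a b, c, by omega⟩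
      exact ⟨m, H.lft_eq a b, e⟩
    obtain ⟨k1, k2, k3⟩ := key x h1 h2 h3 h4
    have C := chord_of hG k1
    rw [k2, k3] at C
    refine Or.inr ⟨_, min_le_left _ _, C, fun x' a b => ⟨fun c => ?_, fun c => ?_⟩⟩
    · obtain ⟨m1, m2, m3⟩ := key x' a b c.1 c.2
      exact (Chord.mem_iff hG C m1 m2).2
    · have m := C.mem x' a c
      refine ⟨m.2, fun e => ?_⟩
      have := mem_chG.1 (C.mem_chG a c)
      exact this.2.2 ((H.rgt_eq a b).trans e.symm)

/-! ### Jumps of the left wall of a room -/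

/-- inside a room: above the row `y`, where the left wall does not go to the right -/
theorem RSide.up_flat (H : RSide Q W y0 y1) (h0 : y0 ≤ y) (h1 : y + 1 < y1)
    (h : lft Q (W - 1) (y + 1) ≤ lft Q (W - 1) y) (h2 : lft Q (W - 1) y ≤ x) (h3 : x < W) :
    (x, y + 1) ∈ Q ∧ rgt Q x (y + 1) = W := by
  have R := H.row (y := y + 1) (by omega) h1
  exact ⟨R.mem x (by omega) h3, R.rgt_eq (by omega) h3⟩

/-- inside a room: below the row `y`, where the left wall does not go to the right -/
theorem RSide.dn_flat (H : RSide Q W y0 y1) (h0 : y0 < y) (h1 : y < y1)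
    (h : lft Q (W - 1) (y - 1) ≤ lft Q (W - 1) y) (h2 : lft Q (W - 1) y ≤ x) (h3 : x < W) :
    (x, y - 1) ∈ Q ∧ rgt Q x (y - 1) = W := by
  have R := H.row (y := y - 1) (by omega) (by omega)
  exact ⟨R.mem x (by omega) h3, R.rgt_eq (by omega) h3⟩

/-- **A rise of the left wall**: above the run there is nothing of `Q`, or exactly one chord which
begins at the left end of the run. -/
theorem RSide.rise (hG : Gen Q) (H : RSide Q W y0 y1) (h0 : y0 ≤ y) (h1 : y + 1 < y1)
    (h : lft Q (W - 1) y < lft Q (W - 1) (y + 1)) :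
    (∀ x, lft Q (W - 1) y ≤ x → x < lft Q (W - 1) (y + 1) → (x, y + 1) ∉ Q) ∨
      ∃ r, r < lft Q (W - 1) (y + 1) ∧ Chord Q (lft Q (W - 1) y) r (y + 1) ∧
        (r, y + 1) ∉ Q ∧
        ∀ x, lft Q (W - 1) y ≤ x → x < lft Q (W - 1) (y + 1) → ((x, y + 1) ∈ Q ↔ x < r) := by
  have R := H.row h0 (by omega)
  have R1 := H.row (y := y + 1) (by omega) h1
  have hW := R1.lt
  have key : ∀ x, lft Q (W - 1) y ≤ x → x < lft Q (W - 1) (y + 1) → (x, y + 1) ∈ Q →
      rgt Q x (y + 1) ≠ W := by
    intro x a b c e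
    have := (rgt_iff c).1 e
    omega
  rcases R.up hG with k | ⟨r, k1, k2, k3⟩
  · left
    intro x a b c
    exact key x a b c (k x a (by omega) c)
  · right
    have k4 : ∀ x, lft Q (W - 1) y ≤ x → x < lft Q (W - 1) (y + 1) → ((x, y + 1) ∈ Q ↔ x < r) :=
      fun x a b => ⟨fun c => (k3 x a (by omega)).1 ⟨c, key x a b c⟩,
        fun c => ((k3 x a (by omega)).2 c).1⟩
    have k5 : r < lft Q (W - 1) (y + 1) := by
      by_contra hr
      exact R1.left (by
        have := (k4 (lft Q (W - 1) (y + 1) - 1) (by omega) (by omega)).2 (by omega)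
        exact this)
    refine ⟨r, k5, k2, fun c => ?_, k4⟩
    have := (k4 r (by have := k2.lt; omega) k5).1 c
    omega

/-- **A drop of the left wall** (going up): below the run there is nothing of `Q`, or exactly one chord
which begins at the left end of the run. -/
theorem RSide.drop (hG : Gen Q) (H : RSide Q W y0 y1) (h0 : y0 < y) (h1 : y < y1)
    (h : lft Q (W - 1) y < lft Q (W - 1) (y - 1)) :
    (∀ x, lft Q (W - 1) y ≤ x → x < lft Q (W - 1) (y - 1) → (x, y - 1) ∉ Q) ∨
      ∃ r, r < lft Q (W - 1) (y - 1) ∧ Chord Q (lft Q (W - 1) y) r y ∧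
        (r, y - 1) ∉ Q ∧
        ∀ x, lft Q (W - 1) y ≤ x → x < lft Q (W - 1) (y - 1) → ((x, y - 1) ∈ Q ↔ x < r) := by
  have R := H.row (y := y) (by omega) h1
  have R1 := H.row (y := y - 1) (by omega) (by omega)
  have hW := R1.lt
  have key : ∀ x, lft Q (W - 1) y ≤ x → x < lft Q (W - 1) (y - 1) → (x, y - 1) ∈ Q →
      rgt Q x (y - 1) ≠ W := by
    intro x a b c e
    have := (rgt_iff c).1 e
    omega
  rcases R.dn hG with k | ⟨r, k1, k2, k3⟩
  · left
    intro x a b c
    exact key x a b c (k x a (by omega) c)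
  · right
    have k4 : ∀ x, lft Q (W - 1) y ≤ x → x < lft Q (W - 1) (y - 1) → ((x, y - 1) ∈ Q ↔ x < r) :=
      fun x a b => ⟨fun c => (k3 x a (by omega)).1 ⟨c, key x a b c⟩,
        fun c => ((k3 x a (by omega)).2 c).1⟩
    have k5 : r < lft Q (W - 1) (y - 1) := by
      by_contra hr
      exact R1.left (by
        have := (k4 (lft Q (W - 1) (y - 1) - 1) (by omega) (by omega)).2 (by omega)
        exact this)
    refine ⟨r, k5, k2, fun c => ?_, k4⟩
    have := (k4 r (by have := k2.lt; omega) k5).1 c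
    omega

/-- **Above the last row** of a room: nothing of `Q`, or exactly one chord which begins at the left end
of the row. -/
theorem RSide.last_row (hG : Gen Q) (H : RSide Q W y0 y1) :
    (∀ x, lft Q (W - 1) (y1 - 1) ≤ x → x < W → (x, y1) ∉ Q) ∨
      ∃ r, r ≤ W ∧ Chord Q (lft Q (W - 1) (y1 - 1)) r y1 ∧ (r = W → (W, y1) ∈ Q) ∧
        (r < W → (r, y1) ∉ Q) ∧
        ∀ x, lft Q (W - 1) (y1 - 1) ≤ x → x < W → ((x, y1) ∈ Q ↔ x < r) := by
  have hlt := H.lt
  have R := H.row (y := y1 - 1) (by omega) (by omega)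
  have key : ∀ x, x < W → (x, y1) ∈ Q → rgt Q x y1 ≠ W := by
    intro x b c e
    have k := rs_rgt c
    rw [e] at k
    exact k.2 (H.top k.1)
  have R' := R.up hG
  rw [sub_add_cancel] at R'
  rcases R' with k | ⟨r, k1, k2, k3⟩
  · left
    intro x a b c
    exact key x b c (k x a b c)
  · right
    have k4 : ∀ x, lft Q (W - 1) (y1 - 1) ≤ x → x < W → ((x, y1) ∈ Q ↔ x < r) :=
      fun x a b => ⟨fun c => (k3 x a b).1 ⟨c, key x b c⟩, fun c => ((k3 x a b).2 c).1⟩
    refine ⟨r, k1, k2, fun e => ?_, fun e c => ?_, k4⟩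
    · have := (k4 (W - 1) (by have := R.lt; omega) (by omega)).2 (by omega)
      exact H.top this
    · have := (k4 r (by have := k2.lt; omega) e).1 c
      omega

/-- **Below the first row** of a room: nothing of `Q`, or exactly one chord which begins at the left end
of the row. -/
theorem RSide.first_row (hG : Gen Q) (H : RSide Q W y0 y1) :
    (∀ x, lft Q (W - 1) y0 ≤ x → x < W → (x, y0 - 1) ∉ Q) ∨
      ∃ r, r ≤ W ∧ Chord Q (lft Q (W - 1) y0) r y0 ∧ (r = W → (W, y0 - 1) ∈ Q) ∧
        (r < W → (r, y0 - 1) ∉ Q) ∧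
        ∀ x, lft Q (W - 1) y0 ≤ x → x < W → ((x, y0 - 1) ∈ Q ↔ x < r) := by
  have hlt := H.lt
  have R := H.row (y := y0) le_rfl (by omega)
  have key : ∀ x, x < W → (x, y0 - 1) ∈ Q → rgt Q x (y0 - 1) ≠ W := by
    intro x b c e
    have k := rs_rgt c
    rw [e] at k
    exact k.2 (H.bot k.1)
  rcases R.dn hG with k | ⟨r, k1, k2, k3⟩
  · left
    intro x a b c
    exact key x b c (k x a b c)
  · right
    have k4 : ∀ x, lft Q (W - 1) y0 ≤ x → x < W → ((x, y0 - 1) ∈ Q ↔ x < r) :=
      fun x a b => ⟨fun c => (k3 x a b).1 ⟨c, key x b c⟩, fun c => ((k3 x a b).2 c).1⟩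
    refine ⟨r, k1, k2, fun e => ?_, fun e c => ?_, k4⟩
    · have := (k4 (W - 1) (by have := R.lt; omega) (by omega)).2 (by omega)
      exact H.bot this
    · have := (k4 r (by have := k2.lt; omega) e).1 c
      omega

end

end Pool.Agent.H68.W
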