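import Mathlib
import Pool.Agent.H68.W.RoomG

set_option autoImplicit false
set_option linter.unusedSimpArgs false
open Finset

/-! # Arcs on the walls of the rooms (route W, D11 (P), part (4))

`sx P c k`: index of the side `(c, k)` (cell `c`, direction `k` mod 4: `0` bottom, `1` right, `2` top,
`3` left side of the cell) in the boundary walk. `ar S c k` : number `0, 1, 2, 3` of the arc of the shape
`S` which contains this side. The marks are convex corners: the arc does not change at straight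
vertices and at reflex corners. -/

namespace Pool.Agent.H68.W

open Pool.Agent.H75.Perc (dir dir_cases)
open Pool.Agent.Q1.M4 (Cell PType IsSide nextSide tail head Good dir_add_four)
open Pool.Agent.H5.C3 (Gen)
open Pool.Agent.H13.W (chG)
open Pool.Agent.H21.FM (Shape)

section
variable (P : PType)

open Classical in
/-- index of the side `(c, k)` -/
noncomputable def sx (c : Cell) (k : ℤ) : ℕ :=
  if h : IsSide P.Q (c, k) then (P.all _ h).choose else 0

variable {P} {c : Cell} {k : ℤ}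

lemma sx_spec (h : IsSide P.Q (c, k)) : sx P c k < P.N ∧ (P.side (sx P c k)).1 = c ∧
    ((P.side (sx P c k)).2 - k) % 4 = 0 := by
  unfold sx
  rw [dif_pos h]
  exact (P.all _ h).choose_spec

lemma sx_lt (h : IsSide P.Q (c, k)) : sx P c k < P.N := (sx_spec h).1

lemma dir_mod {k k' : ℤ} (h : (k - k') % 4 = 0) : dir k = dir k' := by
  have e : k % 4 = k' % 4 := by omega
  unfold dir
  rw [e]

lemma isSide_mod {Q : Finset Cell} {k' : ℤ} (h : (k - k') % 4 = 0) :
    IsSide Q (c, k) ↔ IsSide Q (c, k') := by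
  unfold IsSide
  simp only
  rw [dir_mod (k := k - 1) (k' := k' - 1) (by omega)]

lemma side_isSide (P : PType) (n : ℕ) : IsSide P.Q (P.side n) := by
  induction n with
  | zero => exact P.side0
  | succ n ih =>
    have e : P.side (n + 1) = nextSide P.Q (P.side n) := Function.iterate_succ_apply' _ _ _
    rw [e]
    generalize P.side n = s at ih
    obtain ⟨c, k⟩ := s
    unfold IsSide at ih
    simp only at ih
    unfold nextSide
    split_ifs with h1 h2
    · refine ⟨h1, ?_⟩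
      simp only at h1 ⊢
      intro h
      rcases dir_cases k with ⟨a, b⟩ | ⟨a, b⟩ | ⟨a, b⟩ | ⟨a, b⟩
      · rw [(dir_mod (k := k - 1) (k' := 3) (by omega)), b] at h1
        rw [(dir_mod (k := k - 1) (k' := 3) (by omega))] at ih h
        rw [(dir_mod (k := k - 1 - 1) (k' := 2) (by omega)), b] at h
        apply ih.2
        convert h using 1
        simp only [dir]; norm_num
        refine Prod.ext ?_ ?_ <;> simp
      · rw [(dir_mod (k := k - 1) (k' := 0) (by omega)), b] at h1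
        rw [(dir_mod (k := k - 1) (k' := 0) (by omega))] at ih h
        rw [(dir_mod (k := k - 1 - 1) (k' := 3) (by omega)), b] at h
        apply ih.2
        convert h using 1
        simp only [dir]; norm_num
        refine Prod.ext ?_ ?_ <;> simp
      · rw [(dir_mod (k := k - 1) (k' := 1) (by omega)), b] at h1
        rw [(dir_mod (k := k - 1) (k' := 1) (by omega))] at ih h
        rw [(dir_mod (k := k - 1 - 1) (k' := 0) (by omega)), b] at h
        apply ih.2
        convert h using 1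
        simp only [dir]; norm_num
        refine Prod.ext ?_ ?_ <;> simp
      · rw [(dir_mod (k := k - 1) (k' := 2) (by omega)), b] at h1
        rw [(dir_mod (k := k - 1) (k' := 2) (by omega))] at ih h
        rw [(dir_mod (k := k - 1 - 1) (k' := 1) (by omega)), b] at h
        apply ih.2
        convert h using 1
        simp only [dir]; norm_num
        refine Prod.ext ?_ ?_ <;> simp
    · exact ⟨h2, h1⟩
    · exact ⟨ih.1, by simpa using h2⟩

lemma sx_eq {n : ℕ} (h1 : n < P.N) (h2 : (P.side n).1 = c) (h3 : ((P.side n).2 - k) % 4 = 0) :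
    sx P c k = n := by
  have h : IsSide P.Q (c, k) := by
    have := side_isSide P n
    rw [← isSide_mod (k := (P.side n).2) h3, ← h2]
    exact this
  obtain ⟨a, b, d⟩ := sx_spec h
  exact P.inj _ a _ h1 (b.trans h2.symm) (by
    show ((P.side (sx P c k)).2 - (P.side n).2) % 4 = 0
    omega)

/-- `nextSide` with a side shifted by a multiple of 4 -/
lemma next_mod {Q : Finset Cell} {c c2 : Cell} {k k2 k' : ℤ} (h : (k' - k) % 4 = 0)
    (hn : nextSide Q (c, k) = (c2, k2)) : nextSide Q (c, k') = (c2, k2 + (k' - k)) := by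
  unfold nextSide at hn ⊢
  simp only at hn ⊢
  rw [dir_mod h, dir_mod (k := k' - 1) (k' := k - 1) (by omega)]
  split_ifs at hn ⊢ with h1 h2
  all_goals
    rw [Prod.mk.injEq] at hn ⊢
    exact ⟨hn.1, by omega⟩

/-- the index of the next side -/
lemma sx_next (h : IsSide P.Q (c, k)) {c2 : Cell} {k2 : ℤ} (hn : nextSide P.Q (c, k) = (c2, k2)) :
    P.side (sx P c k + 1) = (c2, k2 + ((P.side (sx P c k)).2 - k)) ∧
      ((sx P c k + 1 < P.N ∧ sx P c2 k2 = sx P c k + 1) ∨
        (sx P c k + 1 = P.N ∧ sx P c2 k2 = 0)) := by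
  obtain ⟨h1, h2, h3⟩ := sx_spec h
  have e : P.side (sx P c k + 1) = (c2, k2 + ((P.side (sx P c k)).2 - k)) := by
    have : P.side (sx P c k + 1) = nextSide P.Q (P.side (sx P c k)) :=
      Function.iterate_succ_apply' _ _ _
    rw [this]
    have e2 : P.side (sx P c k) = (c, (P.side (sx P c k)).2) := Prod.ext h2 rfl
    conv_lhs => rw [e2]
    exact next_mod h3 hn
  refine ⟨e, ?_⟩
  rcases lt_or_eq_of_le (show sx P c k + 1 ≤ P.N by omega) with h4 | h4
  · exact Or.inl ⟨h4, sx_eq h4 (by rw [e]) (by rw [e]; simp only; omega)⟩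
  · refine Or.inr ⟨h4, ?_⟩
    have e3 : P.side P.N = (P.s0.1, P.s0.2 + 4) := P.period
    rw [h4, e3, Prod.mk.injEq] at e
    exact sx_eq (by have := P.hmN; omega) (show P.s0.1 = c2 from e.1)
      (show (P.s0.2 - k2) % 4 = 0 by omega)

end

/-- number of the arc of the side `n` -/
def arcN (S : Shape) (n : ℕ) : ℕ :=
  if n < S.m2 then 0 else if n < S.m3 then 1 else if n < S.m4 then 2 else 3

/-- **The arc** which contains the side `(c, k)` of `S` -/
noncomputable def ar (S : Shape) (c : Cell) (k : ℤ) : ℕ := arcN S (sx S.P c k)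

section
variable {S : Shape} {c c2 : Cell} {k k2 : ℤ} {l r l' r' x x' y y' W y0 y1 a b : ℤ}

lemma arcN_fr {n : ℕ} : S.Fr n ↔ arcN S n = 0 ∨ arcN S n = 2 := by
  unfold Shape.Fr arcN
  have e4 : S.m4 = S.P.m := rfl
  have := S.h23
  have := S.h34
  split_ifs <;> simp <;> omega

lemma arcN_wd {n : ℕ} (hn : n < S.N) : S.Wd n ↔ arcN S n = 1 ∨ arcN S n = 3 := by
  unfold Shape.Wd arcN
  have e4 : S.m4 = S.P.m := rfl
  have eN : S.N = S.P.N := rfl
  have := S.h23
  have := S.h34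
  split_ifs <;> simp <;> omega

lemma ar_fr : S.Fr (sx S.P c k) ↔ ar S c k = 0 ∨ ar S c k = 2 := arcN_fr

lemma ar_wd (h : IsSide S.P.Q (c, k)) : S.Wd (sx S.P c k) ↔ ar S c k = 1 ∨ ar S c k = 3 :=
  arcN_wd (sx_lt h)

lemma ar_mod (h : (k - k2) % 4 = 0) : ar S c k = ar S c k2 := by
  unfold ar
  by_cases hs : IsSide S.P.Q (c, k)
  · obtain ⟨a, b, d⟩ := sx_spec hs
    rw [sx_eq (k := k2) a b (by omega)]
  · have hs' : ¬ IsSide S.P.Q (c, k2) := fun h' => hs ((isSide_mod h).2 h')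
    unfold sx
    rw [dif_neg hs, dif_neg hs']

/-- **The arc changes only at convex corners** (the next side belongs to the same cell). -/
theorem ar_next (h : IsSide S.P.Q (c, k)) (hn : nextSide S.P.Q (c, k) = (c2, k2)) (hc : c2 ≠ c) :
    ar S c2 k2 = ar S c k := by
  obtain ⟨e, h1⟩ := sx_next h hn
  obtain ⟨h2, h3, h4⟩ := sx_spec h
  have key : ¬ (sx S.P c k + 1 = S.m2 ∨ sx S.P c k + 1 = S.m3 ∨ sx S.P c k + 1 = S.P.m ∨
      sx S.P c k + 1 = S.P.N) := by
    intro h5
    have := S.cvx _ h5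
    rw [e, Prod.mk.injEq, h3] at this
    exact hc this.1
  push Not at key
  unfold ar arcN
  rcases h1 with ⟨h5, h6⟩ | ⟨h5, h6⟩
  · rw [h6]
    have e4 : S.m4 = S.P.m := rfl
    have := S.h23
    have := S.h34
    have := S.h02
    obtain ⟨a1, a2, a3, a4⟩ := key
    rw [e4]
    split_ifs <;> omega
  · exact absurd h5 key.2.2.2

/-! ### The four directions -/

lemma isSide0 : IsSide S.P.Q ((x, y), 0) ↔ (x, y) ∈ S.P.Q ∧ (x, y - 1) ∉ S.P.Q := by
  unfold IsSide
  simp [dir, sub_eq_add_neg]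

lemma isSide1 : IsSide S.P.Q ((x, y), 1) ↔ (x, y) ∈ S.P.Q ∧ (x + 1, y) ∉ S.P.Q := by
  unfold IsSide
  simp [dir]

lemma isSide2 : IsSide S.P.Q ((x, y), 2) ↔ (x, y) ∈ S.P.Q ∧ (x, y + 1) ∉ S.P.Q := by
  unfold IsSide
  simp [dir]

lemma isSide3 : IsSide S.P.Q ((x, y), 3) ↔ (x, y) ∈ S.P.Q ∧ (x - 1, y) ∉ S.P.Q := by
  unfold IsSide
  simp [dir, sub_eq_add_neg]

/-- straight, bottom sides -/
lemma ar_st0 (h1 : (x, y) ∈ S.P.Q) (h2 : (x, y - 1) ∉ S.P.Q) (h3 : (x + 1, y) ∈ S.P.Q)
    (h4 : (x + 1, y - 1) ∉ S.P.Q) : ar S (x + 1, y) 0 = ar S (x, y) 0 := by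
  refine ar_next (isSide0.2 ⟨h1, h2⟩) ?_ (by simp)
  unfold nextSide
  simp [dir, h3, ← sub_eq_add_neg, h4]

/-- straight, right sides -/
lemma ar_st1 (h1 : (x, y) ∈ S.P.Q) (h2 : (x + 1, y) ∉ S.P.Q) (h3 : (x, y + 1) ∈ S.P.Q)
    (h4 : (x + 1, y + 1) ∉ S.P.Q) : ar S (x, y + 1) 1 = ar S (x, y) 1 := by
  refine ar_next (isSide1.2 ⟨h1, h2⟩) ?_ (by simp)
  unfold nextSide
  simp [dir, h3, h4]

/-- straight, top sides -/
lemma ar_st2 (h1 : (x, y) ∈ S.P.Q) (h2 : (x, y + 1) ∉ S.P.Q) (h3 : (x - 1, y) ∈ S.P.Q)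
    (h4 : (x - 1, y + 1) ∉ S.P.Q) : ar S (x - 1, y) 2 = ar S (x, y) 2 := by
  refine ar_next (isSide2.2 ⟨h1, h2⟩) ?_ (by simp)
  unfold nextSide
  simp [dir, ← sub_eq_add_neg, h3, h4]

/-- straight, left sides -/
lemma ar_st3 (h1 : (x, y) ∈ S.P.Q) (h2 : (x - 1, y) ∉ S.P.Q) (h3 : (x, y - 1) ∈ S.P.Q)
    (h4 : (x - 1, y - 1) ∉ S.P.Q) : ar S (x, y - 1) 3 = ar S (x, y) 3 := by
  refine ar_next (isSide3.2 ⟨h1, h2⟩) ?_ (by simp)
  unfold nextSide
  simp [dir, ← sub_eq_add_neg, h3, h4]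

/-- reflex corner after a bottom side -/
lemma ar_rx0 (h1 : (x, y) ∈ S.P.Q) (h2 : (x, y - 1) ∉ S.P.Q) (h3 : (x + 1, y - 1) ∈ S.P.Q) :
    ar S (x + 1, y - 1) 3 = ar S (x, y) 0 := by
  rw [ar_mod (k := 3) (k2 := -1) (by norm_num)]
  refine ar_next (isSide0.2 ⟨h1, h2⟩) ?_ (by simp)
  unfold nextSide
  simp [dir, ← sub_eq_add_neg, h3]

/-- reflex corner after a right side -/
lemma ar_rx1 (h1 : (x, y) ∈ S.P.Q) (h2 : (x + 1, y) ∉ S.P.Q) (h3 : (x + 1, y + 1) ∈ S.P.Q) :
    ar S (x + 1, y + 1) 0 = ar S (x, y) 1 := by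
  refine ar_next (isSide1.2 ⟨h1, h2⟩) ?_ (by simp)
  unfold nextSide
  simp [dir, h3]

/-- reflex corner after a top side -/
lemma ar_rx2 (h1 : (x, y) ∈ S.P.Q) (h2 : (x, y + 1) ∉ S.P.Q) (h3 : (x - 1, y + 1) ∈ S.P.Q) :
    ar S (x - 1, y + 1) 1 = ar S (x, y) 2 := by
  refine ar_next (isSide2.2 ⟨h1, h2⟩) ?_ (by simp)
  unfold nextSide
  simp [dir, ← sub_eq_add_neg, h3]

/-- reflex corner after a left side -/
lemma ar_rx3 (h1 : (x, y) ∈ S.P.Q) (h2 : (x - 1, y) ∉ S.P.Q) (h3 : (x - 1, y - 1) ∈ S.P.Q) :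
    ar S (x - 1, y - 1) 2 = ar S (x, y) 3 := by
  refine ar_next (isSide3.2 ⟨h1, h2⟩) ?_ (by simp)
  unfold nextSide
  simp [dir, ← sub_eq_add_neg, h3]

/-! ### The arc on walls -/

lemma const_of_succ {f : ℤ → ℕ} (hf : ∀ x, a ≤ x → x + 1 < b → f (x + 1) = f x) (h1 : a ≤ x)
    (h2 : x < b) (h3 : a ≤ x') (h4 : x' < b) : f x = f x' := by
  have key : ∀ n : ℕ, a + n < b → f (a + n) = f a := by
    intro n
    induction n with
    | zero => intro _; simp
    | succ n ih =>
      intro h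
      push_cast at h ⊢
      rw [← add_assoc, hf (a + n) (by omega) (by omega), ih (by omega)]
  have e1 := key (x - a).toNat (by omega)
  have e2 := key (x' - a).toNat (by omega)
  rw [show a + ((x - a).toNat : ℤ) = x by omega] at e1
  rw [show a + ((x' - a).toNat : ℤ) = x' by omega] at e2
  rw [e1, e2]

/-- one arc on a floor -/
lemma ar_floor (h : ∀ x, a ≤ x → x < b → (x, y) ∈ S.P.Q ∧ (x, y - 1) ∉ S.P.Q) (h1 : a ≤ x)
    (h2 : x < b) (h3 : a ≤ x') (h4 : x' < b) : ar S (x, y) 0 = ar S (x', y) 0 :=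
  const_of_succ (f := fun x => ar S (x, y) 0) (fun x a1 a2 => ar_st0 (h x a1 (by omega)).1
    (h x a1 (by omega)).2 (h (x + 1) (by omega) a2).1 (h (x + 1) (by omega) a2).2) h1 h2 h3 h4

/-- one arc on a ceiling -/
lemma ar_ceil (h : ∀ x, a ≤ x → x < b → (x, y) ∈ S.P.Q ∧ (x, y + 1) ∉ S.P.Q) (h1 : a ≤ x)
    (h2 : x < b) (h3 : a ≤ x') (h4 : x' < b) : ar S (x, y) 2 = ar S (x', y) 2 :=
  const_of_succ (f := fun x => ar S (x, y) 2) (fun x a1 a2 => by
    have := ar_st2 (x := x + 1) (h (x + 1) (by omega) a2).1 (h (x + 1) (by omega) a2).2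
      (by rw [add_sub_cancel_right]; exact (h x a1 (by omega)).1)
      (by rw [add_sub_cancel_right]; exact (h x a1 (by omega)).2)
    rw [add_sub_cancel_right] at this
    exact this.symm) h1 h2 h3 h4

/-- one arc on a right wall -/
lemma ar_right (h : ∀ y, a ≤ y → y < b → (x, y) ∈ S.P.Q ∧ (x + 1, y) ∉ S.P.Q) (h1 : a ≤ y)
    (h2 : y < b) (h3 : a ≤ y') (h4 : y' < b) : ar S (x, y) 1 = ar S (x, y') 1 :=
  const_of_succ (f := fun y => ar S (x, y) 1) (fun y a1 a2 => ar_st1 (h y a1 (by omega)).1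
    (h y a1 (by omega)).2 (h (y + 1) (by omega) a2).1 (h (y + 1) (by omega) a2).2) h1 h2 h3 h4

/-- one arc on a left wall -/
lemma ar_left (h : ∀ y, a ≤ y → y < b → (x, y) ∈ S.P.Q ∧ (x - 1, y) ∉ S.P.Q) (h1 : a ≤ y)
    (h2 : y < b) (h3 : a ≤ y') (h4 : y' < b) : ar S (x, y) 3 = ar S (x, y') 3 :=
  const_of_succ (f := fun y => ar S (x, y) 3) (fun y a1 a2 => by
    have := ar_st3 (y := y + 1) (h (y + 1) (by omega) a2).1 (h (y + 1) (by omega) a2).2
      (by rw [add_sub_cancel_right]; exact (h y a1 (by omega)).1)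
      (by rw [add_sub_cancel_right]; exact (h y a1 (by omega)).2)
    rw [add_sub_cancel_right] at this
    exact this.symm) h1 h2 h3 h4

/-! ### The arcs at a room -/

/-- **One arc on the right side of a room.** -/
theorem RSide.ar_eq (H : RSide S.P.Q W y0 y1) (h1 : y0 ≤ y) (h2 : y < y1) (h3 : y0 ≤ y')
    (h4 : y' < y1) : ar S (W - 1, y) 1 = ar S (W - 1, y') 1 :=
  ar_right (fun y a1 a2 => ⟨H.mem y a1 a2, by rw [sub_add_cancel]; exact H.out y a1 a2⟩) h1 h2 h3 h4

/-- two rows with the same left end -/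
lemma ar_rows (R : Row S.P.Q l r y) (R' : Row S.P.Q l r' (y + 1)) :
    ar S (l, y + 1) 3 = ar S (l, y) 3 := by
  have := ar_st3 (S := S) (x := l) (y := y + 1) (R'.mem l le_rfl R'.lt) R'.left
    (by rw [add_sub_cancel_right]; exact R.mem l le_rfl R.lt)
    (by rw [add_sub_cancel_right]; exact R.left)
  rw [add_sub_cancel_right] at this
  exact this.symm

/-- **The left wall**: the arc does not change if the left end does not change. -/
theorem RSide.ar_left (H : RSide S.P.Q W y0 y1) (h0 : y0 ≤ y) (h1 : y + 1 < y1)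
    (h : lft S.P.Q (W - 1) (y + 1) = lft S.P.Q (W - 1) y) :
    ar S (lft S.P.Q (W - 1) (y + 1), y + 1) 3 = ar S (lft S.P.Q (W - 1) y, y) 3 := by
  have R := H.row h0 (by omega)
  have R' := H.row (y := y + 1) (by omega) h1
  rw [h] at R' ⊢
  exact ar_rows R R'

/-- **A rise of the left wall**: the ceiling of the run has the arc of the row above. -/
theorem RSide.ar_rise (hG : Gen S.P.Q) (H : RSide S.P.Q W y0 y1) (h0 : y0 ≤ y) (h1 : y + 1 < y1)
    (h2 : lft S.P.Q (W - 1) y ≤ x) (h3 : x < lft S.P.Q (W - 1) (y + 1)) (h4 : (x, y + 1) ∉ S.P.Q) :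
    ar S (x, y) 2 = ar S (lft S.P.Q (W - 1) (y + 1), y + 1) 3 := by
  have R := H.row h0 (by omega)
  have R' := H.row (y := y + 1) (by omega) h1
  have hW := R'.lt
  have key : ∀ x', x ≤ x' → x' < lft S.P.Q (W - 1) (y + 1) → (x', y + 1) ∉ S.P.Q := by
    intro x' a1 a2
    rcases H.rise hG h0 h1 (by omega) with k | ⟨r, -, -, -, k⟩
    · exact k x' (by omega) a2
    · intro hc
      exact h4 ((k x h2 h3).2 (lt_of_le_of_lt a1 ((k x' (by omega) a2).1 hc)))
  rw [ar_ceil (a := x) (b := lft S.P.Q (W - 1) (y + 1)) (x' := lft S.P.Q (W - 1) (y + 1) - 1)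
    (fun x' a1 a2 => ⟨R.mem x' (by omega) (by omega), key x' a1 a2⟩) le_rfl h3 (by omega) (by omega)]
  have := ar_rx3 (S := S) (R'.mem _ le_rfl R'.lt) R'.left
    (by rw [add_sub_cancel_right]; exact R.mem _ (by omega) (by omega))
  rw [add_sub_cancel_right] at this
  exact this

/-- **A drop of the left wall** (going up): the floor of the run has the arc of the row below. -/
theorem RSide.ar_drop (hG : Gen S.P.Q) (H : RSide S.P.Q W y0 y1) (h0 : y0 < y) (h1 : y < y1)
    (h2 : lft S.P.Q (W - 1) y ≤ x) (h3 : x < lft S.P.Q (W - 1) (y - 1)) (h4 : (x, y - 1) ∉ S.P.Q) :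
    ar S (x, y) 0 = ar S (lft S.P.Q (W - 1) (y - 1), y - 1) 3 := by
  have R := H.row (y := y) (by omega) h1
  have R' := H.row (y := y - 1) (by omega) (by omega)
  have hW := R'.lt
  have key : ∀ x', x ≤ x' → x' < lft S.P.Q (W - 1) (y - 1) → (x', y - 1) ∉ S.P.Q := by
    intro x' a1 a2
    rcases H.drop hG h0 h1 (by omega) with k | ⟨r, -, -, -, k⟩
    · exact k x' (by omega) a2
    · intro hc
      exact h4 ((k x h2 h3).2 (lt_of_le_of_lt a1 ((k x' (by omega) a2).1 hc)))
  rw [ar_floor (a := x) (b := lft S.P.Q (W - 1) (y - 1)) (x' := lft S.P.Q (W - 1) (y - 1) - 1)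
    (fun x' a1 a2 => ⟨R.mem x' (by omega) (by omega), key x' a1 a2⟩) le_rfl h3 (by omega) (by omega)]
  have := ar_rx0 (S := S) (x := lft S.P.Q (W - 1) (y - 1) - 1) (y := y)
    (R.mem _ (by omega) (by omega)) (key _ (by omega) (by omega))
    (by rw [sub_add_cancel]; exact R'.mem _ le_rfl R'.lt)
  rw [sub_add_cancel] at this
  exact this.symm

/-- **Above the last row**: the ceiling has one arc. -/
theorem RSide.ar_last (hG : Gen S.P.Q) (H : RSide S.P.Q W y0 y1)
    (h2 : lft S.P.Q (W - 1) (y1 - 1) ≤ x) (h3 : x < W) (h4 : (x, y1) ∉ S.P.Q) :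
    ar S (x, y1 - 1) 2 = ar S (W - 1, y1 - 1) 2 := by
  have hlt := H.lt
  have R := H.row (y := y1 - 1) (by omega) (by omega)
  refine ar_ceil (a := x) (b := W) (fun x' a1 a2 => ⟨R.mem x' (by omega) (by omega), ?_⟩) le_rfl h3
    (by omega) (by omega)
  rw [sub_add_cancel]
  rcases H.last_row hG with k | ⟨r, -, -, -, -, k⟩
  · exact k x' (by omega) a2
  · intro hc
    exact h4 ((k x h2 h3).2 (lt_of_le_of_lt a1 ((k x' (by omega) a2).1 hc)))

/-- **Below the first row**: the floor has one arc. -/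
theorem RSide.ar_first (hG : Gen S.P.Q) (H : RSide S.P.Q W y0 y1)
    (h2 : lft S.P.Q (W - 1) y0 ≤ x) (h3 : x < W) (h4 : (x, y0 - 1) ∉ S.P.Q) :
    ar S (x, y0) 0 = ar S (W - 1, y0) 0 := by
  have hlt := H.lt
  have R := H.row (y := y0) le_rfl (by omega)
  refine ar_floor (a := x) (b := W) (fun x' a1 a2 => ⟨R.mem x' (by omega) (by omega), ?_⟩) le_rfl h3
    (by omega) (by omega)
  rcases H.first_row hG with k | ⟨r, -, -, -, -, k⟩
  · exact k x' (by omega) a2
  · intro hc
    exact h4 ((k x h2 h3).2 (lt_of_le_of_lt a1 ((k x' (by omega) a2).1 hc)))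

/-! ### The arcs at the ends of a chord -/

/-- the left end of a chord is inside a straight wall: one arc -/
theorem Chord.ar_left (H : Chord S.P.Q l r y) : ar S (l, y - 1) 3 = ar S (l, y) 3 :=
  ar_st3 (H.mem l le_rfl H.lt).1 H.left.1 (H.mem l le_rfl H.lt).2 H.left.2

/-- the right end of a chord is a reflex corner: one arc (short side below) -/
theorem Chord.ar_right_dn (H : Chord S.P.Q l r y) (h : (r, y) ∈ S.P.Q) :
    ar S (r, y) 0 = ar S (r - 1, y - 1) 1 := by
  have h2 := H.lt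
  have k := (H.short_dn h).1.out (y - 1)
  have h3 : (r, y - 1) ∉ S.P.Q := fun h3 => H.right (iff_of_true h h3)
  have := ar_rx1 (S := S) (x := r - 1) (y := y - 1) (H.mem (r - 1) (by omega) (by omega)).2
    (by rw [sub_add_cancel]; exact h3) (by rw [sub_add_cancel, sub_add_cancel]; exact h)
  rw [sub_add_cancel, sub_add_cancel] at this
  exact this

/-- the right end of a chord is a reflex corner: one arc (short side above) -/
theorem Chord.ar_right_up (H : Chord S.P.Q l r y) (h : (r, y - 1) ∈ S.P.Q) :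
    ar S (r - 1, y) 1 = ar S (r, y - 1) 2 := by
  have h2 := H.lt
  have h3 : (r, y) ∉ S.P.Q := fun h3 => H.right (iff_of_true h3 h)
  have := ar_rx2 (S := S) (x := r) (y := y - 1) h (by rw [sub_add_cancel]; exact h3)
    (by rw [sub_add_cancel]; exact (H.mem (r - 1) (by omega) (by omega)).1)
  rw [sub_add_cancel] at this
  exact this

/-! ### Marks are convex corners -/

/-- `v` is a convex corner of `Q`: exactly one of the four cells at `v` is in `Q` -/
def CvxC (Q : Finset Cell) (v : ℤ × ℤ) : Prop :=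
  (v ∈ Q ∧ (v.1 - 1, v.2) ∉ Q ∧ (v.1 - 1, v.2 - 1) ∉ Q ∧ (v.1, v.2 - 1) ∉ Q) ∨
  (v ∉ Q ∧ (v.1 - 1, v.2) ∈ Q ∧ (v.1 - 1, v.2 - 1) ∉ Q ∧ (v.1, v.2 - 1) ∉ Q) ∨
  (v ∉ Q ∧ (v.1 - 1, v.2) ∉ Q ∧ (v.1 - 1, v.2 - 1) ∈ Q ∧ (v.1, v.2 - 1) ∉ Q) ∨
  (v ∉ Q ∧ (v.1 - 1, v.2) ∉ Q ∧ (v.1 - 1, v.2 - 1) ∉ Q ∧ (v.1, v.2 - 1) ∈ Q)

lemma cvxC_of {Q : Finset Cell} {c : Cell} {k : ℤ} (h : IsSide Q (c, k))
    (hn : nextSide Q (c, k) = (c, k + 1)) : CvxC Q (tail (c, k + 1)) := by
  obtain ⟨i, j⟩ := c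
  unfold IsSide at h
  unfold nextSide at hn
  simp only at h hn
  rcases dir_cases k with ⟨a, b⟩ | ⟨a, b⟩ | ⟨a, b⟩ | ⟨a, b⟩
  · rw [dir_mod (k := k - 1) (k' := 3) (by omega)] at h hn
    rw [b] at hn
    simp only [dir] at h hn
    norm_num at h hn
    unfold CvxC tail
    rw [if_neg (by simp only; omega), if_pos (by simp only; omega)]
    split_ifs at hn with h1 h2
    · simp at hn
    · simp at hn
    · right; left
      simp only [Prod.mk_add_mk, add_zero, add_sub_cancel_right, ← sub_eq_add_neg] at h h1 h2 ⊢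
      exact ⟨h2, h.1, h.2, h1⟩
  · rw [dir_mod (k := k - 1) (k' := 0) (by omega)] at h hn
    rw [b] at hn
    simp only [dir] at h hn
    norm_num at h hn
    unfold CvxC tail
    rw [if_neg (by simp only; omega), if_neg (by simp only; omega), if_pos (by simp only; omega)]
    split_ifs at hn with h1 h2
    · simp at hn
    · simp at hn
    · right; right; left
      simp only [Prod.mk_add_mk, add_zero, add_sub_cancel_right, ← sub_eq_add_neg] at h h1 h2 ⊢
      exact ⟨h1, h2, h.1, h.2⟩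
  · rw [dir_mod (k := k - 1) (k' := 1) (by omega)] at h hn
    rw [b] at hn
    simp only [dir] at h hn
    norm_num at h hn
    unfold CvxC tail
    rw [if_neg (by simp only; omega), if_neg (by simp only; omega), if_neg (by simp only; omega)]
    split_ifs at hn with h1 h2
    · simp at hn
    · simp at hn
    · right; right; right
      simp only [Prod.mk_add_mk, add_zero, add_sub_cancel_right, ← sub_eq_add_neg] at h h1 h2 ⊢
      exact ⟨h.2, h1, h2, h.1⟩
  · rw [dir_mod (k := k - 1) (k' := 2) (by omega)] at h hn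
    rw [b] at hn
    simp only [dir] at h hn
    norm_num at h hn
    unfold CvxC tail
    rw [if_pos (by simp only; omega)]
    split_ifs at hn with h1 h2
    · simp at hn
    · simp at hn
    · left
      simp only [Prod.mk_add_mk, add_zero, ← sub_eq_add_neg] at h h1 h2 ⊢
      exact ⟨h.1, h.2, h1, h2⟩

/-- **The marks are convex corners.** -/
theorem mark_cvx {n : ℕ} (hn : n = 0 ∨ n = S.m2 ∨ n = S.m3 ∨ n = S.m4) :
    CvxC S.P.Q (tail (S.P.side n)) := by
  have h02 := S.h02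
  have h23 := S.h23
  have h34 := S.h34
  have hmN := S.P.hmN
  have key : ∀ i, (i + 1 = S.m2 ∨ i + 1 = S.m3 ∨ i + 1 = S.P.m ∨ i + 1 = S.P.N) →
      CvxC S.P.Q (tail (S.P.side (i + 1))) := by
    intro i hi
    have e := S.cvx i hi
    have e2 : S.P.side (i + 1) = nextSide S.P.Q (S.P.side i) := Function.iterate_succ_apply' _ _ _
    rw [e]
    exact cvxC_of (side_isSide S.P i) (by
      rw [e2] at e
      exact e)
  rcases hn with rfl | rfl | rfl | rfl
  · have h := key (S.P.N - 1) (Or.inr (Or.inr (Or.inr (by omega))))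
    rw [Nat.sub_add_cancel (by omega)] at h
    have e3 : S.P.side S.P.N = (S.P.s0.1, S.P.s0.2 + 4) := S.P.period
    have e4 : tail (S.P.side S.P.N) = tail (S.P.side 0) := by
      rw [e3]
      show tail (S.P.s0.1, S.P.s0.2 + 4) = tail S.P.s0
      unfold tail
      simp only [Int.add_emod_right]
    rwa [e4] at h
  · have h := key (S.m2 - 1) (by left; omega)
    rwa [Nat.sub_add_cancel (by omega)] at h
  · have h := key (S.m3 - 1) (by right; left; omega)
    rwa [Nat.sub_add_cancel (by omega)] at h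
  · have h := key (S.P.m - 1) (by right; right; left; omega)
    rwa [Nat.sub_add_cancel (by omega)] at h

/-- no mark inside of a right side -/
lemma RSide.not_cvx {Q : Finset Cell} (H : RSide Q W y0 y1) (h1 : y0 < y) (h2 : y < y1) :
    ¬ CvxC Q (W, y) := by
  have a1 := H.mem y h1.le h2
  have a2 := H.mem (y - 1) (by omega) (by omega)
  unfold CvxC
  simp only
  tauto

/-- no mark at an end of a chord -/
lemma Chord.not_cvx {Q : Finset Cell} (H : Chord Q l r y) : ¬ CvxC Q (l, y) ∧ ¬ CvxC Q (r, y) := by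
  have h2 := H.lt
  have a1 := H.mem l le_rfl h2
  have a2 := H.mem (r - 1) (by omega) (by omega)
  unfold CvxC
  simp only
  constructor <;> tauto

end

end Pool.Agent.H68.W
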