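import Mathlib
import Pool.Agent.H68.W.RoomM

set_option autoImplicit false
open Finset

/-! # Functions of the boundary index on the walls of a room (route W, D11 (P))

`Stp S t0 f` : the function `f` of the index of a side does not change, except at the marks and after the
side `t0`. If `t0` is a right side then `f` is constant on floors, ceilings, left walls, and at the reflex
corners next to them. `sx_right` : the indices of the sides of a straight right wall. -/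

namespace Pool.Agent.H68.W

open Pool.Agent.H75.Perc (dir dir_cases)
open Pool.Agent.Q1.M4 (Cell PType IsSide nextSide tail head Good dir_add_four)
open Pool.Agent.H21.FM (Shape)

/-- `f` changes only at the marks and after `t0` -/
def Stp {α : Type*} (S : Shape) (t0 : ℕ) (f : ℕ → α) : Prop :=
  ∀ i, i + 1 < S.N → i + 1 ≠ S.m2 → i + 1 ≠ S.m3 → i + 1 ≠ S.m4 → i ≠ t0 → f (i + 1) = f i

section
variable {α : Type*} {S : Shape} {t0 : ℕ} {f : ℕ → α} {c c2 : Cell} {k k2 : ℤ}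
  {x x' y y' a b : ℤ}

/-- at a vertex which is not convex the index increases by one, and the vertex is not a mark -/
lemma sx_step (h : IsSide S.P.Q (c, k)) (hn : nextSide S.P.Q (c, k) = (c2, k2)) (hc : c2 ≠ c) :
    sx S.P c k + 1 < S.N ∧ sx S.P c2 k2 = sx S.P c k + 1 ∧ sx S.P c k + 1 ≠ S.m2 ∧
      sx S.P c k + 1 ≠ S.m3 ∧ sx S.P c k + 1 ≠ S.m4 := by
  obtain ⟨e, h1⟩ := sx_next h hn
  obtain ⟨h2, h3, h4⟩ := sx_spec h
  have key : ¬ (sx S.P c k + 1 = S.m2 ∨ sx S.P c k + 1 = S.m3 ∨ sx S.P c k + 1 = S.P.m ∨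
      sx S.P c k + 1 = S.P.N) := by
    intro h5
    have := S.cvx _ h5
    rw [e, Prod.mk.injEq, h3] at this
    exact hc this.1
  push Not at key
  rcases h1 with ⟨h5, h6⟩ | ⟨h5, h6⟩
  · exact ⟨h5, h6, key.1, key.2.1, key.2.2.1⟩
  · exact absurd h5 key.2.2.2

theorem f_next (hf : Stp S t0 f) (h : IsSide S.P.Q (c, k)) (hn : nextSide S.P.Q (c, k) = (c2, k2))
    (hc : c2 ≠ c) (ht : sx S.P c k ≠ t0) : f (sx S.P c2 k2) = f (sx S.P c k) := by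
  obtain ⟨h1, h2, h3, h4, h5⟩ := sx_step h hn hc
  rw [h2]
  exact hf _ h1 h3 h4 h5 ht

/-- a side which is not a right side is not `t0` -/
lemma sx_ne (ht : S.k t0 % 4 = 1) (h : IsSide S.P.Q (c, k)) (hk : k % 4 ≠ 1) : sx S.P c k ≠ t0 := by
  intro e
  have := (sx_spec h).2.2
  rw [e] at this
  unfold Shape.k at ht
  omega

lemma sx_mod (h : (k - k2) % 4 = 0) : sx S.P c k = sx S.P c k2 := by
  by_cases hs : IsSide S.P.Q (c, k)
  · obtain ⟨a, b, d⟩ := sx_spec hs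
    rw [sx_eq (k := k2) a b (by omega)]
  · have hs' : ¬ IsSide S.P.Q (c, k2) := fun h' => hs ((isSide_mod h).2 h')
    unfold sx
    rw [dif_neg hs, dif_neg hs']

lemma nx_st0 (h3 : (x + 1, y) ∈ S.P.Q) (h4 : (x + 1, y - 1) ∉ S.P.Q) :
    nextSide S.P.Q ((x, y), 0) = ((x + 1, y), 0) := by
  unfold nextSide
  simp [dir, h3, ← sub_eq_add_neg, h4]

lemma nx_st1 (h3 : (x, y + 1) ∈ S.P.Q) (h4 : (x + 1, y + 1) ∉ S.P.Q) :
    nextSide S.P.Q ((x, y), 1) = ((x, y + 1), 1) := by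
  unfold nextSide
  simp [dir, h3, h4]

lemma nx_st2 (h3 : (x - 1, y) ∈ S.P.Q) (h4 : (x - 1, y + 1) ∉ S.P.Q) :
    nextSide S.P.Q ((x, y), 2) = ((x - 1, y), 2) := by
  unfold nextSide
  simp [dir, ← sub_eq_add_neg, h3, h4]

lemma nx_st3 (h3 : (x, y - 1) ∈ S.P.Q) (h4 : (x - 1, y - 1) ∉ S.P.Q) :
    nextSide S.P.Q ((x, y), 3) = ((x, y - 1), 3) := by
  unfold nextSide
  simp [dir, ← sub_eq_add_neg, h3, h4]

lemma nx_rx0 (h3 : (x + 1, y - 1) ∈ S.P.Q) :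
    nextSide S.P.Q ((x, y), 0) = ((x + 1, y - 1), -1) := by
  unfold nextSide
  simp [dir, ← sub_eq_add_neg, h3]

lemma nx_rx1 (h3 : (x + 1, y + 1) ∈ S.P.Q) :
    nextSide S.P.Q ((x, y), 1) = ((x + 1, y + 1), 0) := by
  unfold nextSide
  simp [dir, h3]

lemma nx_rx2 (h3 : (x - 1, y + 1) ∈ S.P.Q) :
    nextSide S.P.Q ((x, y), 2) = ((x - 1, y + 1), 1) := by
  unfold nextSide
  simp [dir, ← sub_eq_add_neg, h3]

lemma nx_rx3 (h3 : (x - 1, y - 1) ∈ S.P.Q) :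
    nextSide S.P.Q ((x, y), 3) = ((x - 1, y - 1), 2) := by
  unfold nextSide
  simp [dir, ← sub_eq_add_neg, h3]

variable (hf : Stp S t0 f) (ht : S.k t0 % 4 = 1)
include hf ht

lemma f_st0 (h1 : (x, y) ∈ S.P.Q) (h2 : (x, y - 1) ∉ S.P.Q) (h3 : (x + 1, y) ∈ S.P.Q)
    (h4 : (x + 1, y - 1) ∉ S.P.Q) : f (sx S.P (x + 1, y) 0) = f (sx S.P (x, y) 0) :=
  f_next hf (isSide0.2 ⟨h1, h2⟩) (nx_st0 h3 h4) (by simp)
    (sx_ne ht (isSide0.2 ⟨h1, h2⟩) (by norm_num))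

lemma f_st2 (h1 : (x, y) ∈ S.P.Q) (h2 : (x, y + 1) ∉ S.P.Q) (h3 : (x - 1, y) ∈ S.P.Q)
    (h4 : (x - 1, y + 1) ∉ S.P.Q) : f (sx S.P (x - 1, y) 2) = f (sx S.P (x, y) 2) :=
  f_next hf (isSide2.2 ⟨h1, h2⟩) (nx_st2 h3 h4) (by simp)
    (sx_ne ht (isSide2.2 ⟨h1, h2⟩) (by norm_num))

lemma f_st3 (h1 : (x, y) ∈ S.P.Q) (h2 : (x - 1, y) ∉ S.P.Q) (h3 : (x, y - 1) ∈ S.P.Q)
    (h4 : (x - 1, y - 1) ∉ S.P.Q) : f (sx S.P (x, y - 1) 3) = f (sx S.P (x, y) 3) :=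
  f_next hf (isSide3.2 ⟨h1, h2⟩) (nx_st3 h3 h4) (by simp)
    (sx_ne ht (isSide3.2 ⟨h1, h2⟩) (by norm_num))

lemma f_rx0 (h1 : (x, y) ∈ S.P.Q) (h2 : (x, y - 1) ∉ S.P.Q) (h3 : (x + 1, y - 1) ∈ S.P.Q) :
    f (sx S.P (x + 1, y - 1) 3) = f (sx S.P (x, y) 0) := by
  rw [sx_mod (k := 3) (k2 := -1) (by norm_num)]
  exact f_next hf (isSide0.2 ⟨h1, h2⟩) (nx_rx0 h3) (by simp)
    (sx_ne ht (isSide0.2 ⟨h1, h2⟩) (by norm_num))

omit ht in
lemma f_rx1 (h1 : (x, y) ∈ S.P.Q) (h2 : (x + 1, y) ∉ S.P.Q) (h3 : (x + 1, y + 1) ∈ S.P.Q)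
    (h4 : sx S.P (x, y) 1 ≠ t0) : f (sx S.P (x + 1, y + 1) 0) = f (sx S.P (x, y) 1) :=
  f_next hf (isSide1.2 ⟨h1, h2⟩) (nx_rx1 h3) (by simp) h4

lemma f_rx2 (h1 : (x, y) ∈ S.P.Q) (h2 : (x, y + 1) ∉ S.P.Q) (h3 : (x - 1, y + 1) ∈ S.P.Q) :
    f (sx S.P (x - 1, y + 1) 1) = f (sx S.P (x, y) 2) :=
  f_next hf (isSide2.2 ⟨h1, h2⟩) (nx_rx2 h3) (by simp)
    (sx_ne ht (isSide2.2 ⟨h1, h2⟩) (by norm_num))

lemma f_rx3 (h1 : (x, y) ∈ S.P.Q) (h2 : (x - 1, y) ∉ S.P.Q) (h3 : (x - 1, y - 1) ∈ S.P.Q) :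
    f (sx S.P (x - 1, y - 1) 2) = f (sx S.P (x, y) 3) :=
  f_next hf (isSide3.2 ⟨h1, h2⟩) (nx_rx3 h3) (by simp)
    (sx_ne ht (isSide3.2 ⟨h1, h2⟩) (by norm_num))

omit hf ht in
lemma const_of_succ' {g : ℤ → α} (hg : ∀ x, a ≤ x → x + 1 < b → g (x + 1) = g x) (h1 : a ≤ x)
    (h2 : x < b) (h3 : a ≤ x') (h4 : x' < b) : g x = g x' := by
  have key : ∀ n : ℕ, a + n < b → g (a + n) = g a := by
    intro n
    induction n with
    | zero => intro _; simp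
    | succ n ih =>
      intro h
      push_cast at h ⊢
      rw [← add_assoc, hg (a + n) (by omega) (by omega), ih (by omega)]
  have e1 := key (x - a).toNat (by omega)
  have e2 := key (x' - a).toNat (by omega)
  rw [show a + ((x - a).toNat : ℤ) = x by omega] at e1
  rw [show a + ((x' - a).toNat : ℤ) = x' by omega] at e2
  rw [e1, e2]

/-- one value on a floor -/
lemma f_floor (h : ∀ x, a ≤ x → x < b → (x, y) ∈ S.P.Q ∧ (x, y - 1) ∉ S.P.Q) (h1 : a ≤ x)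
    (h2 : x < b) (h3 : a ≤ x') (h4 : x' < b) : f (sx S.P (x, y) 0) = f (sx S.P (x', y) 0) :=
  const_of_succ' (g := fun x => f (sx S.P (x, y) 0)) (fun x a1 a2 => f_st0 hf ht (h x a1 (by omega)).1
    (h x a1 (by omega)).2 (h (x + 1) (by omega) a2).1 (h (x + 1) (by omega) a2).2) h1 h2 h3 h4

/-- one value on a ceiling -/
lemma f_ceil (h : ∀ x, a ≤ x → x < b → (x, y) ∈ S.P.Q ∧ (x, y + 1) ∉ S.P.Q) (h1 : a ≤ x)
    (h2 : x < b) (h3 : a ≤ x') (h4 : x' < b) : f (sx S.P (x, y) 2) = f (sx S.P (x', y) 2) :=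
  const_of_succ' (g := fun x => f (sx S.P (x, y) 2)) (fun x a1 a2 => by
    have := f_st2 hf ht (x := x + 1) (h (x + 1) (by omega) a2).1 (h (x + 1) (by omega) a2).2
      (by rw [add_sub_cancel_right]; exact (h x a1 (by omega)).1)
      (by rw [add_sub_cancel_right]; exact (h x a1 (by omega)).2)
    rw [add_sub_cancel_right] at this
    exact this.symm) h1 h2 h3 h4

end

/-- **The indices of a straight right wall.** -/
lemma sx_right {S : Shape} {X y0 : ℤ} (n : ℕ)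
    (h : ∀ y, y0 ≤ y → y ≤ y0 + n → (X, y) ∈ S.P.Q ∧ (X + 1, y) ∉ S.P.Q) :
    sx S.P (X, y0 + n) 1 = sx S.P (X, y0) 1 + n ∧
      (∀ j, sx S.P (X, y0) 1 ≤ j → j < sx S.P (X, y0) 1 + n → j + 1 < S.N ∧ j + 1 ≠ S.m2 ∧
        j + 1 ≠ S.m3 ∧ j + 1 ≠ S.m4) := by
  induction n with
  | zero => exact ⟨by simp, fun j h1 h2 => by omega⟩
  | succ n ih =>
    obtain ⟨i1, i2⟩ := ih fun y h1 h2 => h y h1 (by push_cast; omega)
    have a1 := h (y0 + n) (by omega) (by push_cast; omega)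
    have a2 := h (y0 + n + 1) (by omega) (by push_cast; omega)
    have k := sx_step (S := S) (isSide1.2 a1) (nx_st1 a2.1 a2.2) (by simp)
    have e : y0 + ((n + 1 : ℕ) : ℤ) = y0 + n + 1 := by push_cast; ring
    rw [e, k.2.1, i1]
    refine ⟨by ring, fun j h1 h2 => ?_⟩
    rcases lt_or_eq_of_le (show j ≤ sx S.P (X, y0) 1 + n by omega) with h3 | h3
    · exact i2 j h1 h3
    · rw [h3, ← i1]
      exact ⟨k.1, k.2.2.1, k.2.2.2.1, k.2.2.2.2⟩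

end Pool.Agent.H68.W
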