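import Mathlib
import Pool.Agent.H68.W.RoomF
import Pool.Agent.H74.W.World
import Pool.Agent.H78.W.FRm
import Pool.Agent.H54.W.Make

set_option autoImplicit false
set_option linter.unusedSimpArgs false
open Finset

/-! # The tiles next to a fine room (route W, D11 (P)): layers, exit, colours -/

namespace Pool.Agent.H68.W

open Pool.Agent.H75.Perc hiding WL CT hh PB EE
open Pool.Agent.H75.TwoArm Pool.Agent.H75.Four Pool.Agent.Q1
open Pool.Agent.Q1.M4 (Cell PType IsSide nextSide tail head Good)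
open Pool.Agent.H33.Q1 Pool.Agent.H21.FM
open Pool.Agent.H13.W Pool.Agent.H58.W Pool.Agent.H74.W
open Pool.Agent.H54.W (CD)
open Pool.Agent.H78.W (FRm Seg)

/-! ### Arithmetic -/

lemma dv {n : ℤ} (hn : 0 < n) (x : ℤ) : n * (x / n) ≤ x ∧ x < n * (x / n) + n := by
  have h1 := Int.emod_add_mul_ediv x n
  have h2 := Int.emod_nonneg x hn.ne'
  have h3 := Int.emod_lt_of_pos x hn
  constructor <;> omega

lemma dq {n : ℤ} (hn : 0 < n) {x X : ℤ} (h1 : n * X ≤ x) (h2 : x < n * X + n) : x / n = X := by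
  apply le_antisymm
  · have := Int.ediv_lt_of_lt_mul hn (show x < (X + 1) * n by linarith)
    omega
  · exact Int.le_ediv_of_mul_le hn (by linarith)

lemma ml {n : ℤ} (hn : 0 < n) {u v : ℤ} (h : u < v) : n * u + n ≤ n * v := by nlinarith

lemma mle {n : ℤ} (hn : 0 < n) {u v : ℤ} (h : u ≤ v) : n * u ≤ n * v := by nlinarith

/-- the next tile is in the same cell or it is the first tile of the next cell -/
lemma dsucc {n : ℤ} (hn : 2 ≤ n) (x : ℤ) :
    ((x + 1) / n = x / n ∧ x + 1 < n * (x / n) + n) ∨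
      ((x + 1) / n = x / n + 1 ∧ x + 1 = n * (x / n) + n) := by
  obtain ⟨h1, h2⟩ := dv (by omega : 0 < n) x
  by_cases h : x + 1 < n * (x / n) + n
  · exact Or.inl ⟨dq (by omega) (by omega) h, h⟩
  · refine Or.inr ⟨dq (by omega) ?_ ?_, by omega⟩
    · have : n * (x / n + 1) = n * (x / n) + n := by ring
      omega
    · have : n * (x / n + 1) = n * (x / n) + n := by ring
      omega

/-- the previous tile is in the same cell or it is the last tile of the previous cell -/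
lemma dpred {n : ℤ} (hn : 2 ≤ n) (x : ℤ) :
    ((x - 1) / n = x / n ∧ n * (x / n) ≤ x - 1) ∨ ((x - 1) / n = x / n - 1 ∧ x = n * (x / n)) := by
  rcases dsucc hn (x - 1) with ⟨h1, h2⟩ | ⟨h1, h2⟩
  · rw [sub_add_cancel] at h1 h2
    rw [← h1]
    have := dv (show 0 < n by omega) (x - 1)
    rw [h1.symm] at *
    exact Or.inl ⟨rfl, by rw [h1]; exact this.1⟩
  · rw [sub_add_cancel] at h1 h2
    right
    refine ⟨by omega, ?_⟩
    rw [h1]
    have : n * ((x - 1) / n + 1) = n * ((x - 1) / n) + n := by ring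
    omega

/-! ### Layers -/

section layer

variable {S : Shape} {n : ℤ} {x v : ℤ} {i : ℕ}

/-- **The layers in tile coordinates.** -/
lemma ly_iff (hn : 2 ≤ n) (hi : i < S.N) : lt (x, v) ∈ LY n (S.P.side i) ↔ (x / n, v / n) ∉ S.P.Q ∧
    (((x / n, (v + 1) / n) ∈ S.P.Q ∧ i = sx S.P (x / n, (v + 1) / n) 0) ∨
      (((x - 1) / n, v / n) ∈ S.P.Q ∧ i = sx S.P ((x - 1) / n, v / n) 1) ∨
      ((x / n, (v - 1) / n) ∈ S.P.Q ∧ i = sx S.P (x / n, (v - 1) / n) 2) ∨
      (((x + 1) / n, v / n) ∈ S.P.Q ∧ i = sx S.P ((x + 1) / n, v / n) 3)) := by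
  have hs := side_isSide S.P i
  rw [mem_LY (by omega), tt_lt]
  constructor
  · rintro ⟨-, h1, h2⟩
    generalize hside : S.P.side i = s at *
    obtain ⟨c, k⟩ := s
    unfold IsSide at hs
    simp only at hs h1 h2
    have h0 : (x / n, v / n) ∉ S.P.Q := by
      have : ct n (x, v) = (x / n, v / n) := rfl
      rw [← this, h1]; exact hs.2
    refine ⟨h0, ?_⟩
    have e1 : (S.P.side i).1 = c := by rw [hside]
    rcases dir_cases (k - 1) with ⟨a, b⟩ | ⟨a, b⟩ | ⟨a, b⟩ | ⟨a, b⟩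
    · right; left
      rw [b] at h2
      have e : c = ((x - 1) / n, v / n) := by rw [← h2]; unfold ct; simp
      rw [← e]
      exact ⟨hs.1, (sx_eq hi e1 (by rw [hside]; simp only; omega)).symm⟩
    · right; right; left
      rw [b] at h2
      have e : c = (x / n, (v - 1) / n) := by rw [← h2]; unfold ct; simp
      rw [← e]
      exact ⟨hs.1, (sx_eq hi e1 (by rw [hside]; simp only; omega)).symm⟩
    · right; right; right
      rw [b] at h2
      have e : c = ((x + 1) / n, v / n) := by rw [← h2]; unfold ct; simp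
      rw [← e]
      exact ⟨hs.1, (sx_eq hi e1 (by rw [hside]; simp only; omega)).symm⟩
    · left
      rw [b] at h2
      have e : c = (x / n, (v + 1) / n) := by rw [← h2]; unfold ct; simp
      rw [← e]
      exact ⟨hs.1, (sx_eq hi e1 (by rw [hside]; simp only; omega)).symm⟩
  · rintro ⟨h0, ⟨h1, rfl⟩ | ⟨h1, rfl⟩ | ⟨h1, rfl⟩ | ⟨h1, rfl⟩⟩
    · have e : (v + 1) / n = v / n + 1 := by
        rcases dsucc hn v with k | k
        · exact absurd (k.1 ▸ h1) h0
        · exact k.1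
      have hs : IsSide S.P.Q ((x / n, (v + 1) / n), 0) :=
        isSide0.2 ⟨h1, by rw [e, add_sub_cancel_right]; exact h0⟩
      obtain ⟨-, a, b⟩ := sx_spec hs
      rw [dir_mod (k := (S.P.side (sx S.P (x / n, (v + 1) / n) 0)).2 - 1) (k' := 3) (by omega), a]
      refine ⟨lt_odd _, ?_, ?_⟩
      · unfold ct; rw [e]; simp [dir]
      · unfold ct; simp [dir]
    · have e : (x - 1) / n = x / n - 1 := by
        rcases dpred hn x with k | k
        · exact absurd (k.1 ▸ h1) h0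
        · exact k.1
      have hs : IsSide S.P.Q (((x - 1) / n, v / n), 1) :=
        isSide1.2 ⟨h1, by rw [e, sub_add_cancel]; exact h0⟩
      obtain ⟨-, a, b⟩ := sx_spec hs
      rw [dir_mod (k := (S.P.side (sx S.P ((x - 1) / n, v / n) 1)).2 - 1) (k' := 0) (by omega), a]
      refine ⟨lt_odd _, ?_, ?_⟩
      · unfold ct; rw [e]; simp [dir]
      · unfold ct; simp [dir]
    · have e : (v - 1) / n = v / n - 1 := by
        rcases dpred hn v with k | k
        · exact absurd (k.1 ▸ h1) h0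
        · exact k.1
      have hs : IsSide S.P.Q ((x / n, (v - 1) / n), 2) :=
        isSide2.2 ⟨h1, by rw [e, sub_add_cancel]; exact h0⟩
      obtain ⟨-, a, b⟩ := sx_spec hs
      rw [dir_mod (k := (S.P.side (sx S.P (x / n, (v - 1) / n) 2)).2 - 1) (k' := 1) (by omega), a]
      refine ⟨lt_odd _, ?_, ?_⟩
      · unfold ct; rw [e]; simp [dir]
      · unfold ct; simp [dir]
    · have e : (x + 1) / n = x / n + 1 := by
        rcases dsucc hn x with k | k
        · exact absurd (k.1 ▸ h1) h0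
        · exact k.1
      have hs : IsSide S.P.Q (((x + 1) / n, v / n), 3) :=
        isSide3.2 ⟨h1, by rw [e, add_sub_cancel_right]; exact h0⟩
      obtain ⟨-, a, b⟩ := sx_spec hs
      rw [dir_mod (k := (S.P.side (sx S.P ((x + 1) / n, v / n) 3)).2 - 1) (k' := 2) (by omega), a]
      refine ⟨lt_odd _, ?_, ?_⟩
      · unfold ct; rw [e]; simp [dir]
      · unfold ct; simp [dir]

end layer

/-! ### Colours of the walls -/

/-- colour of the side `i`, if the string leaves through the wall which begins with the side `t0` -/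
def wf (S : Shape) (t0 i : ℕ) : Bool := xor (decide (S.m2 ≤ i ∧ i < S.m3)) (decide (t0 < i))

lemma stp_wf (S : Shape) (t0 : ℕ) : Stp S t0 (wf S t0) := by
  intro i h1 h2 h3 h4 h5
  unfold wf
  have e1 : (S.m2 ≤ i + 1 ∧ i + 1 < S.m3) ↔ (S.m2 ≤ i ∧ i < S.m3) := by omega
  have e2 : t0 < i + 1 ↔ t0 < i := by omega
  rw [decide_eq_decide.2 e1, decide_eq_decide.2 e2]

/-- the exit of the deleted row -/
lemma ex_iff {S : Shape} {h : ℕ} (hh : 1 ≤ h) {x0 v W : ℤ} {t : ℕ} (hx : x0 ≤ 2 * h * W)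
    (hin : ∀ x, x0 ≤ x → x < 2 * h * W → (x / (2 * h), v / (2 * h)) ∈ S.P.Q)
    (hl : (W - 1, v / (2 * (h : ℤ))) ∈ S.P.Q) (ho : (W, v / (2 * (h : ℤ))) ∉ S.P.Q) :
    Ex S h (x0, v) t ↔ t = sx S.P (W - 1, v / (2 * (h : ℤ))) 1 := by
  have hn : (2 : ℤ) ≤ 2 * (h : ℤ) := by omega
  have hw : 2 * (h : ℤ) * W / (2 * h) = W := by rw [mul_comm]; exact Int.mul_ediv_cancel _ (by omega)
  have hw1 : (2 * (h : ℤ) * W - 1) / (2 * h) = W - 1 := by
    rcases dpred hn (2 * (h : ℤ) * W) with k | k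
    · rw [hw] at k; omega
    · rw [hw] at k; exact k.1
  have hs : IsSide S.P.Q ((W - 1, v / (2 * (h : ℤ))), 1) := isSide1.2 ⟨hl, by rw [sub_add_cancel]; exact ho⟩
  constructor
  · rintro ⟨h1, h2, e, ⟨he1, he2, he3, he4⟩, he5⟩
    obtain ⟨x, v'⟩ : ℤ × ℤ := tt e
    have ee : e = lt (tt e) := (lt_tt he1).symm
    generalize htt : tt e = q at *
    obtain ⟨x, v'⟩ := q
    simp only at he2 he3 he4
    subst he2
    rw [ee, ly_iff hn h1] at he5
    obtain ⟨k0, k⟩ := he5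
    have hx1 : x = 2 * h * W := by
      rcases lt_trichotomy x (2 * h * W) with a | a | a
      · exact absurd (hin x he3 a) k0
      · exact a
      · exfalso
        have := he4 (2 * h * W) hx a
        unfold ct at this
        simp only at this
        rw [hw] at this
        exact ho this
    subst hx1
    -- the direction of the side
    have key : ∀ c kk, IsSide S.P.Q (c, kk) → t = sx S.P c kk → kk % 4 = 1 := by
      intro c kk hs' ht
      have := (sx_spec hs').2.2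
      rw [← ht] at this
      unfold Shape.k at h2
      omega
    rcases k with ⟨k1, k2⟩ | ⟨k1, k2⟩ | ⟨k1, k2⟩ | ⟨k1, k2⟩
    · exfalso
      have e1 : (v' + 1) / (2 * (h : ℤ)) = v' / (2 * h) + 1 := by
        rcases dsucc hn v' with a | a
        · exact absurd (a.1 ▸ k1) k0
        · exact a.1
      have := key _ _ (isSide0.2 ⟨k1, by rw [e1, add_sub_cancel_right]; exact k0⟩) k2
      omega
    · rw [hw1] at k2; exact k2
    · exfalso
      have e1 : (v' - 1) / (2 * (h : ℤ)) = v' / (2 * h) - 1 := by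
        rcases dpred hn v' with a | a
        · exact absurd (a.1 ▸ k1) k0
        · exact a.1
      have := key _ _ (isSide2.2 ⟨k1, by rw [e1, sub_add_cancel]; exact k0⟩) k2
      omega
    · exfalso
      have e1 : (2 * (h : ℤ) * W + 1) / (2 * (h : ℤ)) = 2 * (h : ℤ) * W / (2 * h) + 1 := by
        rcases dsucc hn (2 * (h : ℤ) * W) with a | a
        · exact absurd (a.1 ▸ k1) k0
        · exact a.1
      have := key _ _ (isSide3.2 ⟨k1, by rw [e1, add_sub_cancel_right]; exact k0⟩) k2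
      omega
  · rintro rfl
    have sp := sx_spec hs
    refine ⟨sp.1, by have := sp.2.2; unfold Shape.k; omega, lt (2 * h * W, v), ⟨lt_odd _, ?_, ?_, ?_⟩, ?_⟩
    · rw [tt_lt]
    · rw [tt_lt]; exact hx
    · intro x a b
      rw [tt_lt] at b
      exact hin x a b
    · rw [ly_iff hn sp.1, hw, hw1]
      exact ⟨ho, Or.inr (Or.inl ⟨hl, rfl⟩)⟩

/-- the colour of the layer tile in the row `v` along the side `i`, exit through the side `te` in the row
`v0` -/
def Cf (S : Shape) (te : ℕ) (v0 : ℤ) (i : ℕ) (v : ℤ) : Prop :=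
  ¬ ((S.m2 ≤ i ∧ i < S.m3) ↔ (te < i ∨ (te = i ∧ v0 < v)))

/-- **The open labels of the layers in tile coordinates.** -/
lemma mem_Wp {S : Shape} {h : ℕ} (hh : 1 ≤ h) {p : ℤ × ℤ} {te : ℕ} (hte : ∀ t, Ex S h p t ↔ t = te)
    {x v : ℤ} : lt (x, v) ∈ Wp S h p ↔ (x / (2 * h), v / (2 * h)) ∉ S.P.Q ∧
    (((x / (2 * h), (v + 1) / (2 * h)) ∈ S.P.Q ∧
        Cf S te p.2 (sx S.P (x / (2 * h), (v + 1) / (2 * h)) 0) v) ∨
      (((x - 1) / (2 * h), v / (2 * h)) ∈ S.P.Q ∧
        Cf S te p.2 (sx S.P ((x - 1) / (2 * h), v / (2 * h)) 1) v) ∨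
      ((x / (2 * h), (v - 1) / (2 * h)) ∈ S.P.Q ∧
        Cf S te p.2 (sx S.P (x / (2 * h), (v - 1) / (2 * h)) 2) v) ∨
      (((x + 1) / (2 * h), v / (2 * h)) ∈ S.P.Q ∧
        Cf S te p.2 (sx S.P ((x + 1) / (2 * h), v / (2 * h)) 3) v)) := by
  classical
  have hn : (2 : ℤ) ≤ 2 * (h : ℤ) := by omega
  have haft : ∀ i, Aft S h p i (lt (x, v)) ↔ (te < i ∨ (te = i ∧ p.2 < v)) := by
    intro i
    unfold Aft
    simp only [hte, tt_lt, exists_eq_left]
  unfold Wp
  simp only [mem_biUnion, mem_range, mem_filter, haft]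
  constructor
  · rintro ⟨i, hi, h1, h2⟩
    rw [ly_iff hn hi] at h1
    obtain ⟨h0, h1⟩ := h1
    refine ⟨h0, ?_⟩
    rcases h1 with ⟨k, rfl⟩ | ⟨k, rfl⟩ | ⟨k, rfl⟩ | ⟨k, rfl⟩
    · exact Or.inl ⟨k, h2⟩
    · exact Or.inr (Or.inl ⟨k, h2⟩)
    · exact Or.inr (Or.inr (Or.inl ⟨k, h2⟩))
    · exact Or.inr (Or.inr (Or.inr ⟨k, h2⟩))
  · rintro ⟨h0, h1⟩
    rcases h1 with ⟨k, h2⟩ | ⟨k, h2⟩ | ⟨k, h2⟩ | ⟨k, h2⟩
    · have e : (v + 1) / (2 * (h : ℤ)) = v / (2 * h) + 1 := by
        rcases dsucc hn v with a | a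
        · exact absurd (a.1 ▸ k) h0
        · exact a.1
      have hs := sx_lt (P := S.P) (isSide0.2 ⟨k, by rw [e, add_sub_cancel_right]; exact h0⟩)
      exact ⟨_, hs, (ly_iff hn hs).2 ⟨h0, Or.inl ⟨k, rfl⟩⟩, h2⟩
    · have e : (x - 1) / (2 * (h : ℤ)) = x / (2 * h) - 1 := by
        rcases dpred hn x with a | a
        · exact absurd (a.1 ▸ k) h0
        · exact a.1
      have hs := sx_lt (P := S.P) (isSide1.2 ⟨k, by rw [e, sub_add_cancel]; exact h0⟩)
      exact ⟨_, hs, (ly_iff hn hs).2 ⟨h0, Or.inr (Or.inl ⟨k, rfl⟩)⟩, h2⟩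
    · have e : (v - 1) / (2 * (h : ℤ)) = v / (2 * h) - 1 := by
        rcases dpred hn v with a | a
        · exact absurd (a.1 ▸ k) h0
        · exact a.1
      have hs := sx_lt (P := S.P) (isSide2.2 ⟨k, by rw [e, sub_add_cancel]; exact h0⟩)
      exact ⟨_, hs, (ly_iff hn hs).2 ⟨h0, Or.inr (Or.inr (Or.inl ⟨k, rfl⟩))⟩, h2⟩
    · have e : (x + 1) / (2 * (h : ℤ)) = x / (2 * h) + 1 := by
        rcases dsucc hn x with a | a
        · exact absurd (a.1 ▸ k) h0
        · exact a.1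
      have hs := sx_lt (P := S.P) (isSide3.2 ⟨k, by rw [e, add_sub_cancel_right]; exact h0⟩)
      exact ⟨_, hs, (ly_iff hn hs).2 ⟨h0, Or.inr (Or.inr (Or.inr ⟨k, rfl⟩))⟩, h2⟩

/-- the tiles of the layers are in `Lam3` -/
lemma ly_Lam3 {S : Shape} {h : ℕ} {i : ℕ} (hi : i < S.N) {e : ℤ × ℤ}
    (he : e ∈ LY (2 * h) (S.P.side i)) : e ∈ Lam3 S h := by
  classical
  unfold Lam3
  rw [mem_union, mem_union, mem_biUnion]
  exact Or.inl (Or.inr ⟨i, mem_range.2 hi, he⟩)

/-- the random tiles are in `Lam3` -/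
lemma ee_Lam3 {S : Shape} {h : ℕ} {e : ℤ × ℤ} (he : e ∈ EE S h) : e ∈ Lam3 S h := by
  classical
  unfold Lam3
  rw [mem_union, mem_union]
  exact Or.inl (Or.inl he)

/-- a tile with a common side with a tile of the polygon is in `Lam3` -/
lemma near_Lam3 {S : Shape} {h : ℕ} (hh : 1 ≤ h) {x v : ℤ}
    (hq : (x / (2 * h), (v + 1) / (2 * h)) ∈ S.P.Q ∨ ((x - 1) / (2 * h), v / (2 * h)) ∈ S.P.Q ∨
      (x / (2 * h), (v - 1) / (2 * h)) ∈ S.P.Q ∨ ((x + 1) / (2 * h), v / (2 * h)) ∈ S.P.Q) :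
    lt (x, v) ∈ Lam3 S h := by
  have hn : (2 : ℤ) ≤ 2 * (h : ℤ) := by omega
  by_cases h0 : (x / (2 * h), v / (2 * h)) ∈ S.P.Q
  · apply ee_Lam3
    unfold EE
    rw [lt_mem_TL (by omega)]
    exact h0
  · rcases hq with k | k | k | k
    · have e : (v + 1) / (2 * (h : ℤ)) = v / (2 * h) + 1 := by
        rcases dsucc hn v with a | a
        · exact absurd (a.1 ▸ k) h0
        · exact a.1
      have hs := sx_lt (P := S.P) (isSide0.2 ⟨k, by rw [e, add_sub_cancel_right]; exact h0⟩)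
      exact ly_Lam3 hs ((ly_iff hn hs).2 ⟨h0, Or.inl ⟨k, rfl⟩⟩)
    · have e : (x - 1) / (2 * (h : ℤ)) = x / (2 * h) - 1 := by
        rcases dpred hn x with a | a
        · exact absurd (a.1 ▸ k) h0
        · exact a.1
      have hs := sx_lt (P := S.P) (isSide1.2 ⟨k, by rw [e, sub_add_cancel]; exact h0⟩)
      exact ly_Lam3 hs ((ly_iff hn hs).2 ⟨h0, Or.inr (Or.inl ⟨k, rfl⟩)⟩)
    · have e : (v - 1) / (2 * (h : ℤ)) = v / (2 * h) - 1 := by
        rcases dpred hn v with a | a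
        · exact absurd (a.1 ▸ k) h0
        · exact a.1
      have hs := sx_lt (P := S.P) (isSide2.2 ⟨k, by rw [e, sub_add_cancel]; exact h0⟩)
      exact ly_Lam3 hs ((ly_iff hn hs).2 ⟨h0, Or.inr (Or.inr (Or.inl ⟨k, rfl⟩))⟩)
    · have e : (x + 1) / (2 * (h : ℤ)) = x / (2 * h) + 1 := by
        rcases dsucc hn x with a | a
        · exact absurd (a.1 ▸ k) h0
        · exact a.1
      have hs := sx_lt (P := S.P) (isSide3.2 ⟨k, by rw [e, add_sub_cancel_right]; exact h0⟩)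
      exact ly_Lam3 hs ((ly_iff hn hs).2 ⟨h0, Or.inr (Or.inr (Or.inr ⟨k, rfl⟩))⟩)

end Pool.Agent.H68.W
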