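import Mathlib
import Pool.Agent.H68.W.RoomT
import Pool.Agent.H21.W.RoomIn

set_option autoImplicit false
set_option linter.unusedSimpArgs false
open Finset

/-! # A fine room in the glued world (route W, D11 (P)): from `FRm` to `RoomIn`

`R : FRm S.P.Q pl W y0 y1 A` a fine room, `cp` colours of the plates, `t0` index of the lowest side of its
right wall. `cdR` : coarse data of the room, colours = plates by `cp`, walls by `wf S t0`.
`roomIn_of` : the world `(Lam3, Del, T ∪ Wp)` contains the room. -/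

namespace Pool.Agent.H68.W

open Pool.Agent.H75.Perc hiding WL CT hh PB EE
open Pool.Agent.H75.TwoArm Pool.Agent.H75.Four Pool.Agent.Q1
open Pool.Agent.Q1.M4 (Cell PType IsSide nextSide tail head Good)
open Pool.Agent.H33.Q1 Pool.Agent.H21.FM
open Pool.Agent.H13.W Pool.Agent.H58.W Pool.Agent.H74.W
open Pool.Agent.H37.W (dg)
open Pool.Agent.H54.W (CD)
open Pool.Agent.H78.W (FRm Seg)
open Pool.Agent.H21.W (RP RL1 RDg RT fillC RoomIn)

variable {κ : Type*}

/-- colour of the cell `d` next to the side `(c, k)` of a room -/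
noncomputable def colC (S : Shape) (pl : Cell → Option κ) (cp : κ → Bool) (t0 : ℕ) (d c : Cell)
    (k : ℤ) : Bool :=
  match pl d with
  | some a => cp a
  | none => wf S t0 (sx S.P c k)

section

variable {S : Shape} {pl : Cell → Option κ} {cp : κ → Bool} {t0 : ℕ} {d c : Cell} {k : ℤ}
  {W y0 y1 : ℤ} {A : ℤ → ℤ}

lemma colC_some {a : κ} (h : pl d = some a) : colC S pl cp t0 d c k = cp a := by
  unfold colC; rw [h]

lemma colC_none (h : pl d = none) : colC S pl cp t0 d c k = wf S t0 (sx S.P c k) := by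
  unfold colC; rw [h]

/-- colour to the left of the row `y` -/
noncomputable def clR (S : Shape) (pl : Cell → Option κ) (cp : κ → Bool) (t0 : ℕ) (A : ℤ → ℤ)
    (y : ℤ) : Bool := colC S pl cp t0 (A y - 1, y) (A y, y) 3

/-- colour below the first row -/
noncomputable def cbR (S : Shape) (pl : Cell → Option κ) (cp : κ → Bool) (t0 : ℕ) (W y0 : ℤ) : Bool :=
  colC S pl cp t0 (W - 1, y0 - 1) (W - 1, y0) 0

/-- colour above the last row -/
noncomputable def ctR (S : Shape) (pl : Cell → Option κ) (cp : κ → Bool) (t0 : ℕ) (W y1 : ℤ) : Bool :=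
  colC S pl cp t0 (W - 1, y1) (W - 1, y1 - 1) 2

variable (R : FRm S.P.Q pl W y0 y1 A)
include R

lemma pl_none {c : Cell} (h : c ∉ S.P.Q) : pl c = none := by
  by_contra hc
  exact h (R.plQ c hc)

lemma left_cases {y : ℤ} (h0 : y0 ≤ y) (h1 : y < y1) :
    (∃ a, pl (A y - 1, y) = some a) ∨ (pl (A y - 1, y) = none ∧ (A y - 1, y) ∉ S.P.Q) := by
  rcases R.lf y h0 h1 with k | k
  · exact Or.inl (Option.ne_none_iff_exists'.1 k)
  · exact Or.inr ⟨pl_none R k, k⟩

variable (ht : S.k t0 % 4 = 1)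
include ht

/-- **Above a run** the colour is the one to the left of the next row. -/
lemma colU {X y : ℤ} (h0 : y0 ≤ y) (h1 : y + 1 < y1) (h2 : A y ≤ X) (h3 : X < A (y + 1)) :
    colC S pl cp t0 (X, y + 1) (X, y) 2 = clR S pl cp t0 A (y + 1) := by
  have hlt : A y < A (y + 1) := by omega
  have hW := R.AW (y + 1) (by omega) h1
  unfold clR
  rcases R.up y h0 h1 hlt with ⟨a, ha⟩ | hq
  · rw [colC_some (ha X h2 h3), colC_some (ha (A (y + 1) - 1) (by omega) (by omega))]
  · rw [colC_none (pl_none R (hq X h2 h3)), colC_none (pl_none R (hq (A (y + 1) - 1) (by omega) (by omega)))]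
    rw [f_ceil (stp_wf S t0) ht (a := X) (b := A (y + 1)) (x' := A (y + 1) - 1)
      (fun x a b => ⟨(R.nat x y h0 (by omega) (by omega) (by omega)).1, hq x (by omega) b⟩) le_rfl h3
      (by omega) (by omega)]
    have := f_rx3 (stp_wf S t0) ht (x := A (y + 1)) (y := y + 1)
      (R.nat _ _ (by omega) h1 le_rfl hW).1 (hq _ (by omega) (by omega))
      (by rw [add_sub_cancel_right]; exact (R.nat _ y h0 (by omega) (by omega) (by omega)).1)
    rw [add_sub_cancel_right] at this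
    exact this

/-- **Below a run** the colour is the one to the left of the row below. -/
lemma colD {X y : ℤ} (h0 : y0 < y) (h1 : y < y1) (h2 : A y ≤ X) (h3 : X < A (y - 1)) :
    colC S pl cp t0 (X, y - 1) (X, y) 0 = clR S pl cp t0 A (y - 1) := by
  have hlt : A y < A (y - 1) := by omega
  have hW := R.AW (y - 1) (by omega) (by omega)
  unfold clR
  rcases R.dn y h0 h1 hlt with ⟨a, ha⟩ | hq
  · rw [colC_some (ha X h2 h3), colC_some (ha (A (y - 1) - 1) (by omega) (by omega))]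
  · rw [colC_none (pl_none R (hq X h2 h3)), colC_none (pl_none R (hq (A (y - 1) - 1) (by omega) (by omega)))]
    rw [f_floor (stp_wf S t0) ht (a := X) (b := A (y - 1)) (x' := A (y - 1) - 1)
      (fun x a b => ⟨(R.nat x y (by omega) h1 (by omega) (by omega)).1, hq x (by omega) b⟩) le_rfl h3
      (by omega) (by omega)]
    have := f_rx0 (stp_wf S t0) ht (x := A (y - 1) - 1) (y := y)
      (R.nat _ _ (by omega) h1 (by omega) (by omega)).1 (hq _ (by omega) (by omega))
      (by rw [sub_add_cancel]; exact (R.nat _ _ (by omega) (by omega) le_rfl hW).1)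
    rw [sub_add_cancel] at this
    exact this.symm

lemma colT {X : ℤ} (h2 : A (y1 - 1) ≤ X) (h3 : X < W) :
    colC S pl cp t0 (X, y1) (X, y1 - 1) 2 = ctR S pl cp t0 W y1 := by
  have hlt := R.lt
  unfold ctR
  rcases R.top with ⟨a, ha⟩ | hq
  · rw [colC_some (ha X h2 h3), colC_some (ha (W - 1) (by omega) (by omega))]
  · rw [colC_none (pl_none R (hq X h2 h3)), colC_none (pl_none R (hq (W - 1) (by omega) (by omega)))]
    exact f_ceil (stp_wf S t0) ht (a := X) (b := W)
      (fun x a b => ⟨(R.nat x _ (by omega) (by omega) (by omega) (by omega)).1, by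
        rw [sub_add_cancel]; exact hq x (by omega) b⟩) le_rfl h3 (by omega) (by omega)

lemma colB {X : ℤ} (h2 : A y0 ≤ X) (h3 : X < W) :
    colC S pl cp t0 (X, y0 - 1) (X, y0) 0 = cbR S pl cp t0 W y0 := by
  have hlt := R.lt
  unfold cbR
  rcases R.bot with ⟨a, ha⟩ | hq
  · rw [colC_some (ha X h2 h3), colC_some (ha (W - 1) (by omega) (by omega))]
  · rw [colC_none (pl_none R (hq X h2 h3)), colC_none (pl_none R (hq (W - 1) (by omega) (by omega)))]
    exact f_floor (stp_wf S t0) ht (a := X) (b := W)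
      (fun x a b => ⟨(R.nat x _ (by omega) (by omega) (by omega) (by omega)).1, hq x (by omega) b⟩) le_rfl
      h3 (by omega) (by omega)

/-- one colour on a straight left wall -/
lemma colL {y : ℤ} (h0 : y0 ≤ y) (h1 : y + 1 < y1) (h : A y = A (y + 1)) :
    clR S pl cp t0 A y = clR S pl cp t0 A (y + 1) := by
  have e := R.eq y h0 h1 h
  have hW := R.AW (y + 1) (by omega) h1
  have hn1 := (R.nat (A y) y h0 (by omega) le_rfl (by omega)).1
  have hn2 := (R.nat (A (y + 1)) (y + 1) (by omega) h1 le_rfl hW).1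
  unfold clR
  rcases left_cases R (y := y + 1) (by omega) h1 with ⟨a, ha⟩ | ⟨hn, hq⟩
  · rw [colC_some ha, colC_some (a := a) (by rw [e, h]; exact ha)]
  · have hn' : pl (A y - 1, y) = none := by rw [e, h]; exact hn
    have hq' : (A y - 1, y) ∉ S.P.Q := by
      rcases left_cases R h0 (show y < y1 by omega) with ⟨a, ha⟩ | ⟨-, k⟩
      · rw [ha] at hn'; exact absurd hn' (by simp)
      · exact k
    rw [colC_none hn, colC_none hn']
    have := f_st3 (stp_wf S t0) ht (x := A (y + 1)) (y := y + 1) hn2 hq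
      (by rw [add_sub_cancel_right, ← h]; exact hn1) (by rw [add_sub_cancel_right, ← h]; exact hq')
    rw [add_sub_cancel_right, ← h] at this
    rw [← h]
    exact this

end

/-! ### The wall tiles -/

section walls

variable {S : Shape} {pl : Cell → Option κ} {cp : κ → Bool} {t0 te : ℕ} {c : Cell} {k : ℤ}
  {W y0 y1 : ℤ} {A : ℤ → ℤ} {i : ℕ} {v0 v x X V : ℤ}

/-- away from the right wall of the room the colour does not depend on the exit -/
lemma cf_wf {H : ℤ} (h : ¬ (t0 ≤ i ∧ (i : ℤ) < t0 + H)) (h1 : t0 ≤ te) (h2 : (te : ℤ) < t0 + H) :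
    Cf S te v0 i v ↔ wf S t0 i = true := by
  unfold Cf wf
  have e : (te < i ∨ (te = i ∧ v0 < v)) ↔ t0 < i := by
    constructor
    · intro h3
      rcases h3 with h3 | h3
      · omega
      · exfalso; apply h; omega
    · intro h3
      left
      by_contra h4
      apply h
      omega
  rw [e]
  by_cases a : S.m2 ≤ i ∧ i < S.m3 <;> by_cases b : t0 < i <;> simp [a, b]

variable (R : FRm S.P.Q pl W y0 y1 A)
include R

lemma sideR {y : ℤ} (h0 : y0 ≤ y) (h1 : y < y1) : IsSide S.P.Q ((W - 1, y), 1) :=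
  isSide1.2 ⟨(R.nat _ y h0 h1 (by have := R.AW y h0 h1; omega) (by omega)).1, by
    rw [sub_add_cancel]; exact R.rt y (by omega) (by omega)⟩

/-- the indices on the right wall -/
lemma sxR {y : ℤ} (h0 : y0 ≤ y) (h1 : y < y1) :
    (sx S.P (W - 1, y) 1 : ℤ) = sx S.P (W - 1, y0) 1 + (y - y0) ∧
      (∀ j, sx S.P (W - 1, y0) 1 ≤ j → (j : ℤ) < sx S.P (W - 1, y0) 1 + (y - y0) → j + 1 < S.N ∧
        j + 1 ≠ S.m2 ∧ j + 1 ≠ S.m3 ∧ j + 1 ≠ S.m4) := by
  have key := sx_right (S := S) (X := W - 1) (y0 := y0) (y - y0).toNat (fun y' a b => by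
    have b' : y' ≤ y := by omega
    rw [sub_add_cancel]
    exact ⟨(R.nat _ y' a (by omega) (by have := R.AW y' a (by omega); omega) (by omega)).1,
      R.rt y' (by omega) (by omega)⟩)
  rw [show y0 + ((y - y0).toNat : ℤ) = y by omega] at key
  refine ⟨by rw [key.1]; push_cast; omega, fun j a b => key.2 j a (by omega)⟩

/-- a side which is not in the right wall -/
lemma sx_notin (h : IsSide S.P.Q (c, k)) (hk : k % 4 ≠ 1 ∨ c.1 ≠ W - 1) :
    ¬ (sx S.P (W - 1, y0) 1 ≤ sx S.P c k ∧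
      (sx S.P c k : ℤ) < sx S.P (W - 1, y0) 1 + (y1 - y0)) := by
  rintro ⟨h1, h2⟩
  set y := y0 + ((sx S.P c k : ℤ) - sx S.P (W - 1, y0) 1) with hy
  have e := (sxR R (y := y) (by omega) (by omega)).1
  have e' : sx S.P (W - 1, y) 1 = sx S.P c k := by omega
  have a := sx_spec (sideR R (y := y) (by omega) (by omega))
  have b := sx_spec h
  rw [e'] at a
  rcases hk with hk | hk
  · omega
  · apply hk
    rw [← b.2.1, a.2.1]

variable {h : ℕ} (hh : 1 ≤ h) {p : ℤ × ℤ} (hte : ∀ t, Ex S h p t ↔ t = te)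
  (he1 : sx S.P (W - 1, y0) 1 ≤ te) (he2 : (te : ℤ) < sx S.P (W - 1, y0) 1 + (y1 - y0))
include hh hte he1 he2

/-- wall tile to the left of a cell -/
lemma wallL (h1 : (X, V) ∈ S.P.Q) (h2 : (X - 1, V) ∉ S.P.Q) (hx : x + 1 = 2 * h * X)
    (hv : v / (2 * (h : ℤ)) = V) :
    lt (x, v) ∈ Wp S h p ↔ wf S (sx S.P (W - 1, y0) 1) (sx S.P (X, V) 3) = true := by
  have hn : (2 : ℤ) ≤ 2 * (h : ℤ) := by omega
  have ht : S.k (sx S.P (W - 1, y0) 1) % 4 = 1 := by
    have := (sx_spec (sideR R le_rfl R.lt)).2.2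
    unfold Shape.k; omega
  have hf := stp_wf S (sx S.P (W - 1, y0) 1)
  have e1 : x / (2 * (h : ℤ)) = X - 1 := dq (by omega) (by
    have : 2 * (h : ℤ) * (X - 1) = 2 * h * X - 2 * h := by ring
    omega) (by
    have : 2 * (h : ℤ) * (X - 1) = 2 * h * X - 2 * h := by ring
    omega)
  have e2 : (x - 1) / (2 * (h : ℤ)) = X - 1 := dq (by omega) (by
    have : 2 * (h : ℤ) * (X - 1) = 2 * h * X - 2 * h := by ring
    omega) (by
    have : 2 * (h : ℤ) * (X - 1) = 2 * h * X - 2 * h := by ring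
    omega)
  have e3 : (x + 1) / (2 * (h : ℤ)) = X := dq (by omega) (by omega) (by omega)
  rw [mem_Wp hh hte, e1, e2, e3, hv]
  constructor
  · rintro ⟨-, ⟨a, b⟩ | ⟨a, b⟩ | ⟨a, b⟩ | ⟨a, b⟩⟩
    · rcases dsucc hn v with ⟨k, -⟩ | ⟨k, -⟩
      · rw [k, hv] at a; exact absurd a h2
      · rw [k, hv] at a b
        rw [cf_wf (sx_notin R (isSide0.2 ⟨a, by rw [add_sub_cancel_right]; exact h2⟩)
          (Or.inl (by norm_num))) he1 he2] at b
        have := f_rx0 hf ht (x := X - 1) (y := V + 1) a (by rw [add_sub_cancel_right]; exact h2)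
          (by rw [sub_add_cancel, add_sub_cancel_right]; exact h1)
        rw [sub_add_cancel, add_sub_cancel_right] at this
        rw [this]; exact b
    · exact absurd a h2
    · rcases dpred hn v with ⟨k, -⟩ | ⟨k, -⟩
      · rw [k, hv] at a; exact absurd a h2
      · rw [k, hv] at a b
        rw [cf_wf (sx_notin R (isSide2.2 ⟨a, by rw [sub_add_cancel]; exact h2⟩)
          (Or.inl (by norm_num))) he1 he2] at b
        rw [← f_rx3 hf ht h1 h2 a]; exact b
    · rw [cf_wf (sx_notin R (isSide3.2 ⟨a, h2⟩) (Or.inl (by norm_num))) he1 he2] at b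
      exact b
  · intro hb
    refine ⟨h2, Or.inr (Or.inr (Or.inr ⟨h1, ?_⟩))⟩
    rw [cf_wf (sx_notin R (isSide3.2 ⟨h1, h2⟩) (Or.inl (by norm_num))) he1 he2]
    exact hb

/-- wall tile above a cell -/
lemma wallU (h1 : (X, V) ∈ S.P.Q) (h2 : (X, V + 1) ∉ S.P.Q) (hx : x / (2 * (h : ℤ)) = X)
    (hv : v = 2 * h * (V + 1)) (hW : X < W) :
    lt (x, v) ∈ Wp S h p ↔ wf S (sx S.P (W - 1, y0) 1) (sx S.P (X, V) 2) = true := by
  have hn : (2 : ℤ) ≤ 2 * (h : ℤ) := by omega
  have ht : S.k (sx S.P (W - 1, y0) 1) % 4 = 1 := by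
    have := (sx_spec (sideR R le_rfl R.lt)).2.2
    unfold Shape.k; omega
  have hf := stp_wf S (sx S.P (W - 1, y0) 1)
  have e1 : v / (2 * (h : ℤ)) = V + 1 := dq (by omega) (by omega) (by omega)
  have e2 : (v + 1) / (2 * (h : ℤ)) = V + 1 := dq (by omega) (by omega) (by omega)
  have e3 : (v - 1) / (2 * (h : ℤ)) = V := dq (by omega) (by
    have : 2 * (h : ℤ) * (V + 1) = 2 * h * V + 2 * h := by ring
    omega) (by
    have : 2 * (h : ℤ) * (V + 1) = 2 * h * V + 2 * h := by ring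
    omega)
  rw [mem_Wp hh hte, e1, e2, e3, hx]
  constructor
  · rintro ⟨-, ⟨a, b⟩ | ⟨a, b⟩ | ⟨a, b⟩ | ⟨a, b⟩⟩
    · exact absurd a h2
    · rcases dpred hn x with ⟨k, -⟩ | ⟨k, -⟩
      · rw [k, hx] at a; exact absurd a h2
      · rw [k, hx] at a b
        rw [cf_wf (sx_notin R (isSide1.2 ⟨a, by rw [sub_add_cancel]; exact h2⟩)
          (Or.inr (by simp only; omega))) he1 he2] at b
        rw [← f_rx2 hf ht h1 h2 a]; exact b
    · rw [cf_wf (sx_notin R (isSide2.2 ⟨a, h2⟩) (Or.inl (by norm_num))) he1 he2] at b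
      exact b
    · rcases dsucc hn x with ⟨k, -⟩ | ⟨k, -⟩
      · rw [k, hx] at a; exact absurd a h2
      · rw [k, hx] at a b
        rw [cf_wf (sx_notin R (isSide3.2 ⟨a, by rw [add_sub_cancel_right]; exact h2⟩)
          (Or.inl (by norm_num))) he1 he2] at b
        have := f_rx3 hf ht (x := X + 1) (y := V + 1) a (by rw [add_sub_cancel_right]; exact h2)
          (by rw [add_sub_cancel_right, add_sub_cancel_right]; exact h1)
        rw [add_sub_cancel_right, add_sub_cancel_right] at this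
        rw [this]; exact b
  · intro hb
    refine ⟨h2, Or.inr (Or.inr (Or.inl ⟨h1, ?_⟩))⟩
    rw [cf_wf (sx_notin R (isSide2.2 ⟨h1, h2⟩) (Or.inl (by norm_num))) he1 he2]
    exact hb

/-- wall tile below a cell -/
lemma wallD (h1 : (X, V) ∈ S.P.Q) (h2 : (X, V - 1) ∉ S.P.Q) (hx : x / (2 * (h : ℤ)) = X)
    (hv : v + 1 = 2 * h * V) (hW : X < W) :
    lt (x, v) ∈ Wp S h p ↔ wf S (sx S.P (W - 1, y0) 1) (sx S.P (X, V) 0) = true := by
  have hn : (2 : ℤ) ≤ 2 * (h : ℤ) := by omega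
  have hsR := sideR R le_rfl R.lt
  have ht : S.k (sx S.P (W - 1, y0) 1) % 4 = 1 := by
    have := (sx_spec hsR).2.2
    unfold Shape.k; omega
  have hf := stp_wf S (sx S.P (W - 1, y0) 1)
  have hlt := R.lt
  have e1 : v / (2 * (h : ℤ)) = V - 1 := dq (by omega) (by
    have : 2 * (h : ℤ) * (V - 1) = 2 * h * V - 2 * h := by ring
    omega) (by
    have : 2 * (h : ℤ) * (V - 1) = 2 * h * V - 2 * h := by ring
    omega)
  have e2 : (v - 1) / (2 * (h : ℤ)) = V - 1 := dq (by omega) (by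
    have : 2 * (h : ℤ) * (V - 1) = 2 * h * V - 2 * h := by ring
    omega) (by
    have : 2 * (h : ℤ) * (V - 1) = 2 * h * V - 2 * h := by ring
    omega)
  have e3 : (v + 1) / (2 * (h : ℤ)) = V := dq (by omega) (by omega) (by omega)
  rw [mem_Wp hh hte, e1, e2, e3, hx]
  constructor
  · rintro ⟨-, ⟨a, b⟩ | ⟨a, b⟩ | ⟨a, b⟩ | ⟨a, b⟩⟩
    · rw [cf_wf (sx_notin R (isSide0.2 ⟨a, h2⟩) (Or.inl (by norm_num))) he1 he2] at b
      exact b
    · rcases dpred hn x with ⟨k, -⟩ | ⟨k, -⟩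
      · rw [k, hx] at a; exact absurd a h2
      · rw [k, hx] at a b
        have hs : IsSide S.P.Q ((X - 1, V - 1), 1) := isSide1.2 ⟨a, by rw [sub_add_cancel]; exact h2⟩
        rw [cf_wf (sx_notin R hs (Or.inr (by simp only; omega))) he1 he2] at b
        have hne : sx S.P (X - 1, V - 1) 1 ≠ sx S.P (W - 1, y0) 1 := by
          intro e
          have := sx_notin R hs (Or.inr (by simp only; omega))
          rw [e] at this
          exact this ⟨le_rfl, by omega⟩
        have := f_rx1 hf (x := X - 1) (y := V - 1) a (by rw [sub_add_cancel]; exact h2)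
          (by rw [sub_add_cancel, sub_add_cancel]; exact h1) hne
        rw [sub_add_cancel, sub_add_cancel] at this
        rw [this]; exact b
    · exact absurd a h2
    · rcases dsucc hn x with ⟨k, -⟩ | ⟨k, -⟩
      · rw [k, hx] at a; exact absurd a h2
      · rw [k, hx] at a b
        rw [cf_wf (sx_notin R (isSide3.2 ⟨a, by rw [add_sub_cancel_right]; exact h2⟩)
          (Or.inl (by norm_num))) he1 he2] at b
        rw [← f_rx0 hf ht h1 h2 a]; exact b
  · intro hb
    refine ⟨h2, Or.inl ⟨h1, ?_⟩⟩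
    rw [cf_wf (sx_notin R (isSide0.2 ⟨h1, h2⟩) (Or.inl (by norm_num))) he1 he2]
    exact hb

omit hte he1 he2 in
/-- wall tile on the right wall of the room -/
lemma wallR (hp0 : y0 ≤ p.2 / (2 * (h : ℤ))) (hp1 : p.2 / (2 * (h : ℤ)) < y1)
    (hte : ∀ t, Ex S h p t ↔ t = sx S.P (W - 1, p.2 / (2 * (h : ℤ))) 1)
    (hV0 : y0 ≤ V) (hV1 : V < y1) (hx : x = 2 * h * W) (hv : v / (2 * (h : ℤ)) = V) :
    lt (x, v) ∈ Wp S h p ↔ xor (decide (S.m2 ≤ sx S.P (W - 1, y0) 1 ∧ sx S.P (W - 1, y0) 1 < S.m3))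
      (decide (p.2 < v)) = true := by
  have hn : (2 : ℤ) ≤ 2 * (h : ℤ) := by omega
  have h1 : (W - 1, V) ∈ S.P.Q :=
    (R.nat _ V hV0 hV1 (by have := R.AW V hV0 hV1; omega) (by omega)).1
  have h2 : (W, V) ∉ S.P.Q := R.rt V (by omega) (by omega)
  have e1 : x / (2 * (h : ℤ)) = W := dq (by omega) (by omega) (by omega)
  have e2 : (x - 1) / (2 * (h : ℤ)) = W - 1 := dq (by omega) (by
    have : 2 * (h : ℤ) * (W - 1) = 2 * h * W - 2 * h := by ring
    omega) (by
    have : 2 * (h : ℤ) * (W - 1) = 2 * h * W - 2 * h := by ring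
    omega)
  have e3 : (x + 1) / (2 * (h : ℤ)) = W := dq (by omega) (by omega) (by omega)
  obtain ⟨sV, hno⟩ := sxR R hV0 hV1
  obtain ⟨sp, -⟩ := sxR R hp0 hp1
  have key : Cf S (sx S.P (W - 1, p.2 / (2 * (h : ℤ))) 1) p.2 (sx S.P (W - 1, V) 1) v ↔
      xor (decide (S.m2 ≤ sx S.P (W - 1, y0) 1 ∧ sx S.P (W - 1, y0) 1 < S.m3))
        (decide (p.2 < v)) = true := by
    unfold Cf
    have c1 : (S.m2 ≤ sx S.P (W - 1, V) 1 ∧ sx S.P (W - 1, V) 1 < S.m3) ↔
        (S.m2 ≤ sx S.P (W - 1, y0) 1 ∧ sx S.P (W - 1, y0) 1 < S.m3) := by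
      have a2 := S.h02
      have a3 := S.h23
      have b1 : ¬ (sx S.P (W - 1, y0) 1 < S.m2 ∧ S.m2 ≤ sx S.P (W - 1, V) 1) := by
        rintro ⟨b1, b2⟩
        exact (hno (S.m2 - 1) (by omega) (by omega)).2.1 (by omega)
      have b2 : ¬ (sx S.P (W - 1, y0) 1 < S.m3 ∧ S.m3 ≤ sx S.P (W - 1, V) 1) := by
        rintro ⟨b1, b2⟩
        exact (hno (S.m3 - 1) (by omega) (by omega)).2.2.1 (by omega)
      omega
    have c2 : (sx S.P (W - 1, p.2 / (2 * (h : ℤ))) 1 < sx S.P (W - 1, V) 1 ∨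
        (sx S.P (W - 1, p.2 / (2 * (h : ℤ))) 1 = sx S.P (W - 1, V) 1 ∧ p.2 < v)) ↔ p.2 < v := by
      constructor
      · rintro (h3 | h3)
        · have h4 : p.2 / (2 * (h : ℤ)) < V := by omega
          have := (dv (show 0 < 2 * (h : ℤ) by omega) p.2).2
          have h5 := (dv (show 0 < 2 * (h : ℤ) by omega) v).1
          rw [hv] at h5
          have := ml (show 0 < 2 * (h : ℤ) by omega) h4
          omega
        · exact h3.2
      · intro h3
        have h4 : p.2 / (2 * (h : ℤ)) ≤ V := by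
          rw [← hv]; exact Int.ediv_le_ediv (by omega) h3.le
        rcases lt_or_eq_of_le h4 with h5 | h5
        · left; omega
        · right; exact ⟨by omega, h3⟩
    rw [c1, c2]
    by_cases a : S.m2 ≤ sx S.P (W - 1, y0) 1 ∧ sx S.P (W - 1, y0) 1 < S.m3 <;>
      by_cases b : p.2 < v <;> simp [a, b]
  rw [mem_Wp hh hte, e1, e2, e3, hv]
  constructor
  · rintro ⟨-, ⟨a, b⟩ | ⟨a, b⟩ | ⟨a, b⟩ | ⟨a, b⟩⟩
    · exfalso
      rcases dsucc hn v with ⟨k, -⟩ | ⟨k, -⟩
      · rw [k, hv] at a; exact h2 a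
      · rw [k, hv] at a; exact R.rt (V + 1) (by omega) (by omega) a
    · exact key.1 b
    · exfalso
      rcases dpred hn v with ⟨k, -⟩ | ⟨k, -⟩
      · rw [k, hv] at a; exact h2 a
      · rw [k, hv] at a; exact R.rt (V - 1) (by omega) (by omega) a
    · exact absurd a h2
  · intro hb
    exact ⟨h2, Or.inr (Or.inl ⟨h1, key.2 hb⟩)⟩

end walls

end Pool.Agent.H68.W
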