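import Mathlib
import Pool.Agent.H68.W.RoomP

set_option autoImplicit false
set_option linter.unusedSimpArgs false
open Finset

/-! # A fine room in the glued world, II: diagonal tiles, `RoomIn` -/

namespace Pool.Agent.H68.W

open Pool.Agent.H75.Perc hiding WL CT hh PB EE
open Pool.Agent.H75.TwoArm Pool.Agent.H75.Four Pool.Agent.Q1
open Pool.Agent.Q1.M4 (Cell PType IsSide nextSide tail head Good)
open Pool.Agent.H33.Q1 Pool.Agent.H21.FM
open Pool.Agent.H13.W Pool.Agent.H58.W Pool.Agent.H74.W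
open Pool.Agent.H37.W (dg)
open Pool.Agent.H54.W (CD)
open Pool.Agent.H78.W (FRm Seg)
open Pool.Agent.H21.W (RP RL1 RDg RT fillC RoomIn)

variable {κ : Type*}

/-! ### Diagonal tiles at convex vertices -/

section diag

variable {S : Shape} {h : ℕ} {c : Cell} {k : ℤ}

/-- the diagonal tile in tile coordinates -/
lemma dg_lt {i : ℕ} {T : ℤ × ℤ} (hT : tail (S.P.side (i + 1)) = T) :
    (S.k i % 4 = 0 → dg S h i = lt (2 * h * T.1, 2 * h * T.2 - 1)) ∧
    (S.k i % 4 = 1 → dg S h i = lt (2 * h * T.1, 2 * h * T.2)) ∧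
    (S.k i % 4 = 2 → dg S h i = lt (2 * h * T.1 - 1, 2 * h * T.2)) ∧
    (S.k i % 4 = 3 → dg S h i = lt (2 * h * T.1 - 1, 2 * h * T.2 - 1)) := by
  have e : dg S h i = (2 * h * (T.1 - T.2) + (dir (S.k i)).1, 2 * h * (T.1 + T.2) + (dir (S.k i)).2) := by
    unfold dg ql wv
    rw [hT]
    refine Prod.ext ?_ ?_ <;> simp <;> ring
  rw [e]
  unfold lt
  refine ⟨fun a => ?_, fun a => ?_, fun a => ?_, fun a => ?_⟩ <;>
    (rcases dir_cases (S.k i) with ⟨a', b⟩ | ⟨a', b⟩ | ⟨a', b⟩ | ⟨a', b⟩ <;> try (exfalso; omega)) <;>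
    (rw [b]; refine Prod.ext ?_ ?_ <;> simp only <;> ring)

/-- the diagonal tile at a convex vertex with two closed walls is in `Lam3`. `col` : colours of the two
walls -/
lemma dg_Lam3 (hs : IsSide S.P.Q (c, k)) (hn : nextSide S.P.Q (c, k) = (c, k + 1))
    (hm : sx S.P c k + 1 ≠ S.m2) (hm3 : sx S.P c k + 1 ≠ S.m3) (hN : sx S.P c k + 1 ≠ S.N) :
    dg S h (sx S.P c k) ∈ Lam3 S h ∧ (∀ k', (k' - (k + 1)) % 4 = 0 →
      tail (S.P.side (sx S.P c k + 1)) = tail (c, k')) ∧ (S.k (sx S.P c k) - k) % 4 = 0 := by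
  classical
  have e := (sx_next hs hn).1
  obtain ⟨s1, s2, s3⟩ := sx_spec hs
  refine ⟨?_, fun k' hk' => ?_, s3⟩
  · unfold Lam3
    rw [mem_union]
    right
    rw [mem_image]
    refine ⟨_, ?_, rfl⟩
    rw [mem_filter, mem_range]
    refine ⟨s1, ?_, hm, hm3, hN⟩
    rw [e, s2]
    refine Prod.ext rfl ?_
    simp only
    ring
  · rw [e]
    unfold tail
    simp only
    have : (k + 1 + ((S.P.side (sx S.P c k)).2 - k)) % 4 = k' % 4 := by omega
    rw [this]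

end diag

/-! ### The four kinds of diagonal tiles of a room -/

section four

variable {S : Shape} {pl : Cell → Option κ} {cp : κ → Bool} {te : ℕ} {W y0 y1 : ℤ} {A : ℤ → ℤ}
  {v x X V : ℤ}

/-- the labels `T` of the other tiles of the polygon -/
structure TOK (S : Shape) (pl : Cell → Option κ) (cp : κ → Bool) (W y0 y1 : ℤ) (A : ℤ → ℤ) (h : ℕ)
    (T : Finset (ℤ × ℤ)) : Prop where
  out : ∀ x v : ℤ, (x / (2 * h), v / (2 * h)) ∉ S.P.Q → lt (x, v) ∉ T
  pla : ∀ (x v : ℤ) (a : κ), pl (x / (2 * h), v / (2 * h)) = some a → (lt (x, v) ∈ T ↔ cp a = true)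
  room : ∀ x v : ℤ, y0 ≤ v / (2 * h) → v / (2 * h) < y1 → A (v / (2 * h)) ≤ x / (2 * h) →
    x / (2 * h) < W → lt (x, v) ∉ T

variable (R : FRm S.P.Q pl W y0 y1 A) {h : ℕ} (hh : 1 ≤ h) {T : Finset (ℤ × ℤ)}
  (hT : TOK S pl cp W y0 y1 A h T) {p : ℤ × ℤ}

include R hh hT in
lemma plate_tile {a : κ} (hp : pl (x / (2 * h), v / (2 * h)) = some a) :
    lt (x, v) ∈ Lam3 S h ∧ (lt (x, v) ∈ T ∪ Wp S h p ↔ cp a = true) := by
  classical
  have hQ : (x / (2 * h), v / (2 * h)) ∈ S.P.Q := R.plQ _ (by rw [hp]; simp)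
  have hW : lt (x, v) ∉ Wp S h p := by
    intro hc
    unfold Wp at hc
    simp only [mem_biUnion, mem_range, mem_filter] at hc
    obtain ⟨i, hi, h1, -⟩ := hc
    rw [ly_iff (by omega) hi] at h1
    exact h1.1 hQ
  refine ⟨ee_Lam3 (by unfold H21.FM.EE; rw [lt_mem_TL (by omega)]; exact hQ), ?_⟩
  rw [mem_union, hT.pla x v a hp]
  exact ⟨fun hc => hc.resolve_right hW, fun hc => Or.inl hc⟩

include hT in
lemma out_tile (hq : (x / (2 * h), v / (2 * h)) ∉ S.P.Q) :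
    lt (x, v) ∈ T ∪ Wp S h p ↔ lt (x, v) ∈ Wp S h p := by
  rw [mem_union]
  exact ⟨fun hc => hc.resolve_left (hT.out x v hq), fun hc => Or.inr hc⟩

lemma wf_false {t0 i : ℕ} : wf S t0 i = false ↔ ((S.m2 ≤ i ∧ i < S.m3) ↔ t0 < i) := by
  unfold wf
  by_cases a : S.m2 ≤ i ∧ i < S.m3 <;> by_cases b : t0 < i <;> simp [a, b]

/-- two closed walls: no mark between -/
lemma not_mark {i j t0 : ℕ} (hij : (i + 1 < S.N ∧ j = i + 1) ∨ (i + 1 = S.N ∧ j = 0)) (ht : i ≠ t0)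
    (h0 : t0 < S.N) (hi : wf S t0 i = false) (hj : wf S t0 j = false) :
    i + 1 ≠ S.m2 ∧ i + 1 ≠ S.m3 ∧ i + 1 ≠ S.N := by
  rw [wf_false] at hi hj
  have a2 := S.h02
  have a3 := S.h23
  have a4 : S.m3 < S.P.m := S.h34
  have a5 : S.P.m < S.N := S.P.hmN
  refine ⟨fun h => ?_, fun h => ?_, fun h => ?_⟩ <;> omega

lemma nx_cv0 {x y : ℤ} (h1 : (x + 1, y - 1) ∉ S.P.Q) (h2 : (x + 1, y) ∉ S.P.Q) :
    nextSide S.P.Q ((x, y), 0) = ((x, y), 0 + 1) := by
  unfold nextSide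
  simp [dir, ← sub_eq_add_neg, h1, h2]

lemma nx_cv1 {x y : ℤ} (h1 : (x + 1, y + 1) ∉ S.P.Q) (h2 : (x, y + 1) ∉ S.P.Q) :
    nextSide S.P.Q ((x, y), 1) = ((x, y), 1 + 1) := by
  unfold nextSide
  simp [dir, ← sub_eq_add_neg, h1, h2]

lemma nx_cv2 {x y : ℤ} (h1 : (x - 1, y + 1) ∉ S.P.Q) (h2 : (x - 1, y) ∉ S.P.Q) :
    nextSide S.P.Q ((x, y), 2) = ((x, y), 2 + 1) := by
  unfold nextSide
  simp [dir, ← sub_eq_add_neg, h1, h2]

lemma nx_cv3 {x y : ℤ} (h1 : (x - 1, y - 1) ∉ S.P.Q) (h2 : (x, y - 1) ∉ S.P.Q) :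
    nextSide S.P.Q ((x, y), 3) = ((x, y), 3 + 1) := by
  unfold nextSide
  simp [dir, ← sub_eq_add_neg, h1, h2]

variable (hte : ∀ t, Ex S h p t ↔ t = te)
  (he1 : sx S.P (W - 1, y0) 1 ≤ te) (he2 : (te : ℤ) < sx S.P (W - 1, y0) 1 + (y1 - y0))

include R hh hT hte he1 he2

/-- upper left corner -/
lemma diagUL (hV0 : y0 ≤ V) (hV1 : V < y1) (hx : x + 1 = 2 * h * A V) (hv : v = 2 * h * (V + 1))
    (hc : V = y1 - 1 ∨ A V < A (V + 1)) (c1 : clR S pl cp (sx S.P (W - 1, y0) 1) A V = false)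
    (c2 : colC S pl cp (sx S.P (W - 1, y0) 1) (A V, V + 1) (A V, V) 2 = false) :
    lt (x, v) ∈ Lam3 S h ∧ lt (x, v) ∉ T ∪ Wp S h p := by
  have hn : (2 : ℤ) ≤ 2 * (h : ℤ) := by omega
  have ht : S.k (sx S.P (W - 1, y0) 1) % 4 = 1 := by
    have := (sx_spec (sideR R le_rfl R.lt)).2.2
    unfold Shape.k; omega
  have hf := stp_wf S (sx S.P (W - 1, y0) 1)
  have hQ := (R.nat (A V) V hV0 hV1 le_rfl (R.AW V hV0 hV1)).1
  obtain ⟨d1, d2⟩ := R.dTL V hV0 hV1 hc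
  have r1 : 2 * (h : ℤ) * (A V - 1) = 2 * h * A V - 2 * h := by ring
  have r2 : 2 * (h : ℤ) * (V + 1) = 2 * h * V + 2 * h := by ring
  have e1 : x / (2 * (h : ℤ)) = A V - 1 := dq (by omega) (by omega) (by omega)
  have e2 : (x - 1) / (2 * (h : ℤ)) = A V - 1 := dq (by omega) (by omega) (by omega)
  have e3 : (x + 1) / (2 * (h : ℤ)) = A V := dq (by omega) (by omega) (by omega)
  have f1 : v / (2 * (h : ℤ)) = V + 1 := dq (by omega) (by omega) (by omega)
  have f2 : (v + 1) / (2 * (h : ℤ)) = V + 1 := dq (by omega) (by omega) (by omega)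
  have f3 : (v - 1) / (2 * (h : ℤ)) = V := dq (by omega) (by omega) (by omega)
  rcases left_cases R hV0 hV1 with ⟨a, ha⟩ | ⟨hnone, hq⟩
  · obtain ⟨k1, k2⟩ := plate_tile R hh hT (p := p) (x := x) (v := v) (a := a)
      (by rw [e1, f1, d1]; exact ha)
    refine ⟨k1, fun hc' => ?_⟩
    unfold clR at c1
    rw [colC_some ha] at c1
    rw [k2, c1] at hc'
    exact absurd hc' (by simp)
  · have hd := d2 hq
    have cl1 : wf S (sx S.P (W - 1, y0) 1) (sx S.P (A V, V) 3) = false := by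
      unfold clR at c1
      rwa [colC_none hnone] at c1
    by_cases hU : (A V, V + 1) ∈ S.P.Q
    · refine ⟨near_Lam3 hh (Or.inr (Or.inr (Or.inr (by rw [e3, f1]; exact hU)))), ?_⟩
      rw [out_tile hT (by rw [e1, f1]; exact hd), mem_Wp hh hte, e1, e2, e3, f1, f2, f3]
      rintro ⟨-, ⟨a, -⟩ | ⟨a, -⟩ | ⟨a, -⟩ | ⟨-, b⟩⟩
      · exact hd a
      · exact hd a
      · exact hq a
      · rw [cf_wf (sx_notin R (isSide3.2 ⟨hU, hd⟩) (Or.inl (by norm_num))) he1 he2] at b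
        have := f_st3 hf ht hU hd (by rw [add_sub_cancel_right]; exact hQ)
          (by rw [add_sub_cancel_right]; exact hq)
        rw [add_sub_cancel_right] at this
        rw [← this, cl1] at b
        exact absurd b (by simp)
    · have hsU : IsSide S.P.Q ((A V, V), 2) := isSide2.2 ⟨hQ, hU⟩
      have hnx := nx_cv2 (S := S) hd hq
      have cl2 : wf S (sx S.P (W - 1, y0) 1) (sx S.P (A V, V) 2) = false := by
        rwa [colC_none (pl_none R hU)] at c2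
      have hN0 := sx_lt (sideR R le_rfl R.lt)
      obtain ⟨m1, m2, m3⟩ := not_mark (sx_next hsU hnx).2 (sx_ne ht hsU (by norm_num)) hN0 cl2
        (by norm_num; exact cl1)
      obtain ⟨g1, g2, g3⟩ := dg_Lam3 (h := h) hsU hnx m1 m2 m3
      have g4 := (dg_lt (h := h) (g2 3 (by norm_num))).2.2.1 (by omega)
      have g5 : lt (x, v) = dg S h (sx S.P (A V, V) 2) := by
        rw [g4]
        congr 1
        unfold tail
        norm_num
        constructor <;> omega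
      rw [g5]
      refine ⟨g1, ?_⟩
      rw [← g5, out_tile hT (by rw [e1, f1]; exact hd), mem_Wp hh hte, e1, e2, e3, f1, f2, f3]
      rintro ⟨-, ⟨a, -⟩ | ⟨a, -⟩ | ⟨a, -⟩ | ⟨a, -⟩⟩
      · exact hd a
      · exact hd a
      · exact hq a
      · exact hU a

/-- lower left corner -/
lemma diagLL (hV0 : y0 ≤ V) (hV1 : V < y1) (hx : x + 1 = 2 * h * A V) (hv : v + 1 = 2 * h * V)
    (hc : V = y0 ∨ A V < A (V - 1)) (c1 : clR S pl cp (sx S.P (W - 1, y0) 1) A V = false)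
    (c2 : colC S pl cp (sx S.P (W - 1, y0) 1) (A V, V - 1) (A V, V) 0 = false) :
    lt (x, v) ∈ Lam3 S h ∧ lt (x, v) ∉ T ∪ Wp S h p := by
  have hn : (2 : ℤ) ≤ 2 * (h : ℤ) := by omega
  have ht : S.k (sx S.P (W - 1, y0) 1) % 4 = 1 := by
    have := (sx_spec (sideR R le_rfl R.lt)).2.2
    unfold Shape.k; omega
  have hf := stp_wf S (sx S.P (W - 1, y0) 1)
  have hQ := (R.nat (A V) V hV0 hV1 le_rfl (R.AW V hV0 hV1)).1
  obtain ⟨d1, d2⟩ := R.dBL V hV0 hV1 hc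
  have r1 : 2 * (h : ℤ) * (A V - 1) = 2 * h * A V - 2 * h := by ring
  have r2 : 2 * (h : ℤ) * (V - 1) = 2 * h * V - 2 * h := by ring
  have e1 : x / (2 * (h : ℤ)) = A V - 1 := dq (by omega) (by omega) (by omega)
  have e2 : (x - 1) / (2 * (h : ℤ)) = A V - 1 := dq (by omega) (by omega) (by omega)
  have e3 : (x + 1) / (2 * (h : ℤ)) = A V := dq (by omega) (by omega) (by omega)
  have f1 : v / (2 * (h : ℤ)) = V - 1 := dq (by omega) (by omega) (by omega)
  have f2 : (v + 1) / (2 * (h : ℤ)) = V := dq (by omega) (by omega) (by omega)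
  have f3 : (v - 1) / (2 * (h : ℤ)) = V - 1 := dq (by omega) (by omega) (by omega)
  rcases left_cases R hV0 hV1 with ⟨a, ha⟩ | ⟨hnone, hq⟩
  · obtain ⟨k1, k2⟩ := plate_tile R hh hT (p := p) (x := x) (v := v) (a := a)
      (by rw [e1, f1, d1]; exact ha)
    refine ⟨k1, fun hc' => ?_⟩
    unfold clR at c1
    rw [colC_some ha] at c1
    rw [k2, c1] at hc'
    exact absurd hc' (by simp)
  · have hd := d2 hq
    have cl1 : wf S (sx S.P (W - 1, y0) 1) (sx S.P (A V, V) 3) = false := by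
      unfold clR at c1
      rwa [colC_none hnone] at c1
    by_cases hU : (A V, V - 1) ∈ S.P.Q
    · refine ⟨near_Lam3 hh (Or.inr (Or.inr (Or.inr (by rw [e3, f1]; exact hU)))), ?_⟩
      rw [out_tile hT (by rw [e1, f1]; exact hd), mem_Wp hh hte, e1, e2, e3, f1, f2, f3]
      rintro ⟨-, ⟨a, -⟩ | ⟨a, -⟩ | ⟨a, -⟩ | ⟨-, b⟩⟩
      · exact hq a
      · exact hd a
      · exact hd a
      · rw [cf_wf (sx_notin R (isSide3.2 ⟨hU, hd⟩) (Or.inl (by norm_num))) he1 he2] at b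
        have := f_st3 hf ht hQ hq hU hd
        rw [this, cl1] at b
        exact absurd b (by simp)
    · have hsU : IsSide S.P.Q ((A V, V), 3) := isSide3.2 ⟨hQ, hq⟩
      have hnx := nx_cv3 (S := S) hd hU
      have cl2 : wf S (sx S.P (W - 1, y0) 1) (sx S.P (A V, V) 0) = false := by
        rwa [colC_none (pl_none R hU)] at c2
      have hN0 := sx_lt (sideR R le_rfl R.lt)
      obtain ⟨m1, m2, m3⟩ := not_mark (sx_next hsU hnx).2 (sx_ne ht hsU (by norm_num)) hN0 cl1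
        (by rw [sx_mod (k := 3 + 1) (k2 := 0) (by norm_num)]; exact cl2)
      obtain ⟨g1, g2, g3⟩ := dg_Lam3 (h := h) hsU hnx m1 m2 m3
      have g4 := (dg_lt (h := h) (g2 0 (by norm_num))).2.2.2 (by omega)
      have g5 : lt (x, v) = dg S h (sx S.P (A V, V) 3) := by
        rw [g4]
        congr 1
        unfold tail
        norm_num
        constructor <;> omega
      rw [g5]
      refine ⟨g1, ?_⟩
      rw [← g5, out_tile hT (by rw [e1, f1]; exact hd), mem_Wp hh hte, e1, e2, e3, f1, f2, f3]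
      rintro ⟨-, ⟨a, -⟩ | ⟨a, -⟩ | ⟨a, -⟩ | ⟨a, -⟩⟩
      · exact hq a
      · exact hd a
      · exact hd a
      · exact hU a

/-- upper right corner -/
lemma diagUR (hx : x = 2 * h * W) (hv : v = 2 * h * y1)
    (c0 : S.m2 ≤ sx S.P (W - 1, y0) 1 ∧ sx S.P (W - 1, y0) 1 < S.m3)
    (c2 : ctR S pl cp (sx S.P (W - 1, y0) 1) W y1 = false) :
    lt (x, v) ∈ Lam3 S h ∧ lt (x, v) ∉ T ∪ Wp S h p := by
  have hn : (2 : ℤ) ≤ 2 * (h : ℤ) := by omega
  have hlt := R.lt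
  have r1 : 2 * (h : ℤ) * (W - 1) = 2 * h * W - 2 * h := by ring
  have r2 : 2 * (h : ℤ) * (y1 - 1) = 2 * h * y1 - 2 * h := by ring
  have e1 : x / (2 * (h : ℤ)) = W := dq (by omega) (by omega) (by omega)
  have e2 : (x - 1) / (2 * (h : ℤ)) = W - 1 := dq (by omega) (by omega) (by omega)
  have e3 : (x + 1) / (2 * (h : ℤ)) = W := dq (by omega) (by omega) (by omega)
  have f1 : v / (2 * (h : ℤ)) = y1 := dq (by omega) (by omega) (by omega)
  have f2 : (v + 1) / (2 * (h : ℤ)) = y1 := dq (by omega) (by omega) (by omega)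
  have f3 : (v - 1) / (2 * (h : ℤ)) = y1 - 1 := dq (by omega) (by omega) (by omega)
  have hd : (W, y1) ∉ S.P.Q := R.rt y1 (by omega) (by omega)
  have hr : (W, y1 - 1) ∉ S.P.Q := R.rt (y1 - 1) (by omega) (by omega)
  have hs1 := sideR R (y := y1 - 1) (by omega) (by omega)
  obtain ⟨sV, hno⟩ := sxR R (y := y1 - 1) (by omega) (by omega)
  have a2 := S.h02
  have a3 := S.h23
  have a4 : S.m3 < S.P.m := S.h34
  have a5 : S.P.m < S.N := S.P.hmN
  have b2 : ¬ (sx S.P (W - 1, y0) 1 < S.m3 ∧ S.m3 ≤ sx S.P (W - 1, y1 - 1) 1) := by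
    rintro ⟨b1, b2⟩
    exact (hno (S.m3 - 1) (by omega) (by omega)).2.2.1 (by omega)
  by_cases hU : (W - 1, y1) ∈ S.P.Q
  · refine ⟨near_Lam3 hh (Or.inr (Or.inl (by rw [e2, f1]; exact hU))), ?_⟩
    rw [out_tile hT (by rw [e1, f1]; exact hd), mem_Wp hh hte, e1, e2, e3, f1, f2, f3]
    rintro ⟨-, ⟨a, -⟩ | ⟨-, b⟩ | ⟨a, -⟩ | ⟨a, -⟩⟩
    · exact hd a
    · have st := sx_step (S := S) hs1 (nx_st1 (by rw [sub_add_cancel]; exact hU)
        (by rw [sub_add_cancel, sub_add_cancel]; exact hd))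
        (by intro hc; have := congrArg Prod.snd hc; simp only at this; omega)
      rw [sub_add_cancel] at st
      unfold Cf at b
      apply b
      constructor <;> intro _ <;> omega
    · exact hr a
    · exact hd a
  · have hsU : IsSide S.P.Q ((W - 1, y1 - 1), 2) := isSide2.2
      ⟨(R.nat _ (y1 - 1) (by omega) (by omega) (by have := R.AW (y1 - 1) (by omega) (by omega); omega)
        (by omega)).1, by rw [sub_add_cancel]; exact hU⟩
    have hnx := nx_cv1 (S := S) (x := W - 1) (y := y1 - 1)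
      (by rw [sub_add_cancel, sub_add_cancel]; exact hd) (by rw [sub_add_cancel]; exact hU)
    have cl2 : wf S (sx S.P (W - 1, y0) 1) (sx S.P (W - 1, y1 - 1) 2) = false := by
      unfold ctR at c2
      rwa [colC_none (pl_none R hU)] at c2
    rw [wf_false] at cl2
    have hij := (sx_next hs1 hnx).2
    have hij' : (sx S.P (W - 1, y1 - 1) 1 + 1 < S.N ∧
        sx S.P (W - 1, y1 - 1) 2 = sx S.P (W - 1, y1 - 1) 1 + 1) ∨
        (sx S.P (W - 1, y1 - 1) 1 + 1 = S.N ∧ sx S.P (W - 1, y1 - 1) 2 = 0) := by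
      simpa using hij
    have m1 : sx S.P (W - 1, y1 - 1) 1 + 1 ≠ S.m2 := by omega
    have m2 : sx S.P (W - 1, y1 - 1) 1 + 1 ≠ S.m3 := by omega
    have m3 : sx S.P (W - 1, y1 - 1) 1 + 1 ≠ S.N := by omega
    obtain ⟨g1, g2, g3⟩ := dg_Lam3 (h := h) hs1 hnx m1 m2 m3
    have g4 := (dg_lt (h := h) (g2 2 (by norm_num))).2.1 (by omega)
    have g5 : lt (x, v) = dg S h (sx S.P (W - 1, y1 - 1) 1) := by
      rw [g4]
      congr 1
      unfold tail
      norm_num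
      constructor <;> omega
    rw [g5]
    refine ⟨g1, ?_⟩
    rw [← g5, out_tile hT (by rw [e1, f1]; exact hd), mem_Wp hh hte, e1, e2, e3, f1, f2, f3]
    rintro ⟨-, ⟨a, -⟩ | ⟨a, -⟩ | ⟨a, -⟩ | ⟨a, -⟩⟩
    · exact hd a
    · exact hU a
    · exact hr a
    · exact hd a

/-- lower right corner -/
lemma diagLR (hx : x = 2 * h * W) (hv : v + 1 = 2 * h * y0)
    (c0 : ¬ (S.m2 ≤ sx S.P (W - 1, y0) 1 ∧ sx S.P (W - 1, y0) 1 < S.m3))
    (c2 : cbR S pl cp (sx S.P (W - 1, y0) 1) W y0 = false) :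
    lt (x, v) ∈ Lam3 S h ∧ lt (x, v) ∉ T ∪ Wp S h p := by
  have hn : (2 : ℤ) ≤ 2 * (h : ℤ) := by omega
  have hlt := R.lt
  have r1 : 2 * (h : ℤ) * (W - 1) = 2 * h * W - 2 * h := by ring
  have r2 : 2 * (h : ℤ) * (y0 - 1) = 2 * h * y0 - 2 * h := by ring
  have e1 : x / (2 * (h : ℤ)) = W := dq (by omega) (by omega) (by omega)
  have e2 : (x - 1) / (2 * (h : ℤ)) = W - 1 := dq (by omega) (by omega) (by omega)
  have e3 : (x + 1) / (2 * (h : ℤ)) = W := dq (by omega) (by omega) (by omega)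
  have f1 : v / (2 * (h : ℤ)) = y0 - 1 := dq (by omega) (by omega) (by omega)
  have f2 : (v + 1) / (2 * (h : ℤ)) = y0 := dq (by omega) (by omega) (by omega)
  have f3 : (v - 1) / (2 * (h : ℤ)) = y0 - 1 := dq (by omega) (by omega) (by omega)
  have hd : (W, y0 - 1) ∉ S.P.Q := R.rt (y0 - 1) (by omega) (by omega)
  have hr : (W, y0) ∉ S.P.Q := R.rt y0 (by omega) (by omega)
  have hs1 := sideR R le_rfl hlt
  have a2 := S.h02
  have a3 := S.h23
  have a4 : S.m3 < S.P.m := S.h34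
  have a5 : S.P.m < S.N := S.P.hmN
  by_cases hU : (W - 1, y0 - 1) ∈ S.P.Q
  · refine ⟨near_Lam3 hh (Or.inr (Or.inl (by rw [e2, f1]; exact hU))), ?_⟩
    rw [out_tile hT (by rw [e1, f1]; exact hd), mem_Wp hh hte, e1, e2, e3, f1, f2, f3]
    rintro ⟨-, ⟨a, -⟩ | ⟨-, b⟩ | ⟨a, -⟩ | ⟨a, -⟩⟩
    · exact hr a
    · have st := sx_step (S := S) (isSide1.2 ⟨hU, by rw [sub_add_cancel]; exact hd⟩)
        (nx_st1 (by rw [sub_add_cancel]; exact hs1.1)
        (by rw [sub_add_cancel, sub_add_cancel]; exact hr))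
        (by intro hc; have := congrArg Prod.snd hc; simp only at this; omega)
      rw [sub_add_cancel] at st
      unfold Cf at b
      apply b
      constructor <;> intro _ <;> omega
    · exact hd a
    · exact hd a
  · have hsU : IsSide S.P.Q ((W - 1, y0), 0) := isSide0.2 ⟨hs1.1, hU⟩
    have hnx := nx_cv0 (S := S) (x := W - 1) (y := y0)
      (by rw [sub_add_cancel]; exact hd) (by rw [sub_add_cancel]; exact hr)
    have cl2 : wf S (sx S.P (W - 1, y0) 1) (sx S.P (W - 1, y0) 0) = false := by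
      unfold cbR at c2
      rwa [colC_none (pl_none R hU)] at c2
    rw [wf_false] at cl2
    have hij := (sx_next hsU hnx).2
    have hij' : (sx S.P (W - 1, y0) 0 + 1 < S.N ∧
        sx S.P (W - 1, y0) 1 = sx S.P (W - 1, y0) 0 + 1) ∨
        (sx S.P (W - 1, y0) 0 + 1 = S.N ∧ sx S.P (W - 1, y0) 1 = 0) := by
      simpa using hij
    have m1 : sx S.P (W - 1, y0) 0 + 1 ≠ S.m2 := by omega
    have m2 : sx S.P (W - 1, y0) 0 + 1 ≠ S.m3 := by omega
    have m3 : sx S.P (W - 1, y0) 0 + 1 ≠ S.N := by omega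
    obtain ⟨g1, g2, g3⟩ := dg_Lam3 (h := h) hsU hnx m1 m2 m3
    have g4 := (dg_lt (h := h) (g2 1 (by norm_num))).1 (by omega)
    have g5 : lt (x, v) = dg S h (sx S.P (W - 1, y0) 0) := by
      rw [g4]
      congr 1
      unfold tail
      norm_num
      constructor <;> omega
    rw [g5]
    refine ⟨g1, ?_⟩
    rw [← g5, out_tile hT (by rw [e1, f1]; exact hd), mem_Wp hh hte, e1, e2, e3, f1, f2, f3]
    rintro ⟨-, ⟨a, -⟩ | ⟨a, -⟩ | ⟨a, -⟩ | ⟨a, -⟩⟩
    · exact hr a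
    · exact hU a
    · exact hd a
    · exact hd a

end four

end Pool.Agent.H68.W
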