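import Mathlib
import Pool.Agent.H68.W.RoomQ

set_option autoImplicit false
set_option linter.unusedSimpArgs false
set_option linter.unusedSectionVars false
open Finset

/-! # A fine room in the glued world, III: coarse data and `RoomIn` -/

namespace Pool.Agent.H68.W

open Pool.Agent.H75.Perc hiding WL CT hh PB EE
open Pool.Agent.H75.TwoArm Pool.Agent.H75.Four Pool.Agent.Q1
open Pool.Agent.Q1.M4 (Cell PType IsSide nextSide tail head Good)
open Pool.Agent.H33.Q1 Pool.Agent.H21.FM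
open Pool.Agent.H13.W Pool.Agent.H58.W Pool.Agent.H74.W
open Pool.Agent.H37.W (dg)
open Pool.Agent.H54.W (CD)
open Pool.Agent.H78.W (FRm Seg)
open Pool.Agent.H21.W (RP RL1 RDg RT fillC RoomIn)

variable {κ : Type*} {S : Shape} {pl : Cell → Option κ} {W y0 y1 : ℤ} {A : ℤ → ℤ}

/-- index of the first side of the right wall -/
noncomputable abbrev tR (S : Shape) (W y0 : ℤ) : ℕ := sx S.P (W - 1, y0) 1

lemma tR_dir (R : FRm S.P.Q pl W y0 y1 A) : S.k (tR S W y0) % 4 = 1 := by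
  have := (sx_spec (sideR R le_rfl R.lt)).2.2
  unfold Shape.k tR; omega

/-- **Coarse data of a fine room.** -/
noncomputable def cdR (R : FRm S.P.Q pl W y0 y1 A) (cp : κ → Bool) : CD where
  H := y1 - y0
  W := W
  LO := -(exists_bound S.P.Q).choose
  A := fun Y => A (y0 + Y)
  CL := fun Y => clR S pl cp (tR S W y0) A (y0 + Y)
  CB := cbR S pl cp (tR S W y0) W y0
  CT := ctR S pl cp (tR S W y0) W y1
  H0 := by have := R.lt; omega
  AW := fun Y h0 h1 => R.AW _ (by omega) (by omega)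
  lo := fun Y h0 h1 => by
    have hQ := (R.nat (A (y0 + Y)) (y0 + Y) (by omega) (by omega) le_rfl (R.AW _ (by omega) (by omega))).1
    have := (abs_lt.1 ((exists_bound S.P.Q).choose_spec _ hQ).1).1
    simp only at this
    exact this.le
  sc := fun Y h0 h1 he => by
    have e : y0 + (Y + 1) = y0 + Y + 1 := by ring
    rw [e] at he ⊢
    exact colL R (tR_dir R) (by omega) (by omega) he

section

variable (R : FRm S.P.Q pl W y0 y1 A) {cp : κ → Bool} {h : ℕ} {cr : ℤ → Bool} {x y v : ℤ}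

/-- the tile is in the room, real coordinates -/
def IR (W y0 y1 : ℤ) (A : ℤ → ℤ) (n x v : ℤ) : Prop :=
  (y0 ≤ v / n ∧ v / n < y1) ∧ A (v / n) ≤ x / n ∧ x / n < W

lemma le_div_iff' {n a b : ℤ} (hn : 0 < n) : a ≤ b / n ↔ n * a ≤ b := by
  rw [Int.le_ediv_iff_mul_le hn, mul_comm]

lemma div_lt_iff' {n a b : ℤ} (hn : 0 < n) : b / n < a ↔ b < n * a := by
  rw [Int.ediv_lt_iff_lt_mul hn, mul_comm]

lemma v_div {n : ℤ} (hn : 0 < n) (y y0 : ℤ) : (y + n * y0) / n = y0 + y / n := by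
  rw [Int.add_mul_ediv_left _ _ hn.ne']; ring

lemma rp_iff {n : ℤ} (hn : 0 < n) : RP (cdR R cp) n x y ↔ IR W y0 y1 A n x (y + n * y0) := by
  unfold RP IR
  show (0 ≤ y ∧ y < n * (y1 - y0) ∧ n * A (y0 + y / n) ≤ x ∧ x < n * W) ↔ _
  rw [v_div hn, le_div_iff' hn, div_lt_iff' hn]
  have e1 : y0 ≤ y0 + y / n ↔ 0 ≤ y := by
    constructor
    · intro h
      have := (le_div_iff' (a := 0) (b := y) hn).1 (by omega)
      simpa using this
    · intro h
      have := (le_div_iff' (a := 0) (b := y) hn).2 (by simpa using h)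
      omega
  have e2 : y0 + y / n < y1 ↔ y < n * (y1 - y0) := by
    rw [← div_lt_iff' hn]
    constructor <;> intro h <;> omega
  rw [e1, e2]
  tauto

/-- colours in real coordinates -/
noncomputable def fillR (R : FRm S.P.Q pl W y0 y1 A) (cp : κ → Bool) (n : ℤ) (cr : ℤ → Bool)
    (x v : ℤ) : Bool :=
  if v < n * y0 then cbR S pl cp (tR S W y0) W y0
  else if n * y1 ≤ v then ctR S pl cp (tR S W y0) W y1
  else if x < n * A (v / n) then clR S pl cp (tR S W y0) A (v / n) else cr (v - n * y0)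

lemma fill_iff {n : ℤ} (hn : 0 < n) : fillC (cdR R cp) n cr x y = fillR R cp n cr x (y + n * y0) := by
  unfold fillC fillR
  show (if y < 0 then _ else if n * (y1 - y0) ≤ y then _ else if x < n * A (y0 + y / n) then
    clR S pl cp (tR S W y0) A (y0 + y / n) else cr y) = _
  have e1 : y + n * y0 < n * y0 ↔ y < 0 := by constructor <;> intro h <;> omega
  have e2 : n * y1 ≤ y + n * y0 ↔ n * (y1 - y0) ≤ y := by
    have : n * (y1 - y0) = n * y1 - n * y0 := by ring
    rw [this]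
    constructor <;> intro h <;> omega
  have e3 : y + n * y0 - n * y0 = y := by ring
  simp only [e1, e2, v_div hn, e3]
  rfl

variable {n : ℤ} (hn : 2 ≤ n)
include hn

lemma irL (h1 : IR W y0 y1 A n (x + 1) v) (h2 : ¬ IR W y0 y1 A n x v) :
    y0 ≤ v / n ∧ v / n < y1 ∧ x + 1 = n * A (v / n) := by
  unfold IR at h1 h2
  have a := dsucc hn x
  refine ⟨h1.1.1, h1.1.2, ?_⟩
  have h3 : ¬ A (v / n) ≤ x / n := fun h3 => h2 ⟨h1.1, h3, by omega⟩
  rw [le_div_iff' (by omega)] at h3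
  have h4 := (le_div_iff' (a := A (v / n)) (b := x + 1) (by omega : 0 < n)).1 h1.2.1
  omega

lemma irR (h1 : IR W y0 y1 A n (x - 1) v) (h2 : ¬ IR W y0 y1 A n x v) :
    y0 ≤ v / n ∧ v / n < y1 ∧ x = n * W := by
  unfold IR at h1 h2
  have a := dpred hn x
  refine ⟨h1.1.1, h1.1.2, ?_⟩
  have h3 : ¬ x / n < W := fun h3 => h2 ⟨h1.1, by omega, h3⟩
  rw [div_lt_iff' (by omega)] at h3
  have h4 := (div_lt_iff' (a := W) (b := x - 1) (by omega : 0 < n)).1 h1.2.2
  omega

lemma irU (h1 : IR W y0 y1 A n x (v - 1)) (h2 : ¬ IR W y0 y1 A n x v) :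
    ∃ V, y0 ≤ V ∧ V < y1 ∧ v = n * (V + 1) ∧ (v - 1) / n = V ∧ A V ≤ x / n ∧ x / n < W ∧
      (V + 1 = y1 ∨ (V + 1 < y1 ∧ x / n < A (V + 1))) := by
  unfold IR at h1 h2
  rcases dpred hn v with ⟨a, b⟩ | ⟨a, b⟩
  · rw [a] at h1; exact absurd h1 h2
  · refine ⟨(v - 1) / n, h1.1.1, h1.1.2, ?_, rfl, h1.2.1, h1.2.2, ?_⟩
    · rw [a, sub_add_cancel]; exact b
    · rw [a, sub_add_cancel]
      by_cases hc : v / n = y1
      · exact Or.inl hc
      · right
        refine ⟨by omega, ?_⟩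
        by_contra h3
        exact h2 ⟨⟨by omega, by omega⟩, by omega, h1.2.2⟩

lemma irD (h1 : IR W y0 y1 A n x (v + 1)) (h2 : ¬ IR W y0 y1 A n x v) :
    ∃ V, y0 ≤ V ∧ V < y1 ∧ v + 1 = n * V ∧ (v + 1) / n = V ∧ A V ≤ x / n ∧ x / n < W ∧
      (V = y0 ∨ (y0 < V ∧ x / n < A (V - 1))) := by
  unfold IR at h1 h2
  rcases dsucc hn v with ⟨a, b⟩ | ⟨a, b⟩
  · rw [a] at h1; exact absurd h1 h2
  · refine ⟨(v + 1) / n, h1.1.1, h1.1.2, ?_, rfl, h1.2.1, h1.2.2, ?_⟩
    · rw [a, b]; ring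
    · rw [a, add_sub_cancel_right]
      by_cases hc : v / n + 1 = y0
      · exact Or.inl hc
      · right
        refine ⟨by omega, ?_⟩
        by_contra h3
        exact h2 ⟨⟨by omega, by omega⟩, by omega, h1.2.2⟩

lemma fillL (h0 : y0 ≤ v / n) (h1 : v / n < y1) (hx : x + 1 = n * A (v / n)) :
    fillR R cp n cr x v = clR S pl cp (tR S W y0) A (v / n) := by
  unfold fillR
  rw [le_div_iff' (by omega)] at h0
  rw [div_lt_iff' (by omega)] at h1
  rw [if_neg (by omega), if_neg (by omega), if_pos (by omega)]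

lemma fillRt (h0 : y0 ≤ v / n) (h1 : v / n < y1) (hx : x = n * W) :
    fillR R cp n cr x v = cr (v - n * y0) := by
  have hW := R.AW _ h0 h1
  have := mle (show 0 < n by omega) hW.le
  unfold fillR
  rw [le_div_iff' (by omega)] at h0
  rw [div_lt_iff' (by omega)] at h1
  rw [if_neg (by omega), if_neg (by omega), if_neg (by omega)]

lemma fillU {V : ℤ} (h0 : y0 ≤ V) (h1 : V < y1) (hv : v = n * (V + 1)) (hA : A V ≤ x / n)
    (hxW : x / n < W) (hc : V + 1 = y1 ∨ (V + 1 < y1 ∧ x / n < A (V + 1))) :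
    fillR R cp n cr x v = colC S pl cp (tR S W y0) (x / n, V + 1) (x / n, V) 2 := by
  have a0 := mle (show 0 < n by omega) (show y0 ≤ V + 1 by omega)
  unfold fillR
  rw [if_neg (by omega)]
  rcases hc with hc | ⟨hc, hx⟩
  · rw [if_pos (by rw [hv, hc])]
    have := colT (cp := cp) R (tR_dir R) (X := x / n) (by rw [← hc, add_sub_cancel_right]; exact hA) hxW
    rw [← this, ← hc, add_sub_cancel_right]
  · have a1 := ml (show 0 < n by omega) hc
    have e : v / n = V + 1 := dq (by omega) (by omega) (by omega)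
    rw [if_neg (by omega), e]
    rw [div_lt_iff' (by omega)] at hx
    rw [if_pos hx]
    rw [← div_lt_iff' (by omega)] at hx
    exact (colU R (tR_dir R) h0 hc hA hx).symm

lemma fillD {V : ℤ} (h0 : y0 ≤ V) (h1 : V < y1) (hv : v + 1 = n * V) (hA : A V ≤ x / n)
    (hxW : x / n < W) (hc : V = y0 ∨ (y0 < V ∧ x / n < A (V - 1))) :
    fillR R cp n cr x v = colC S pl cp (tR S W y0) (x / n, V - 1) (x / n, V) 0 := by
  unfold fillR
  rcases hc with hc | ⟨hc, hx⟩
  · subst hc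
    rw [if_pos (by omega)]
    exact (colB (cp := cp) R (tR_dir R) hA hxW).symm
  · have a1 := ml (show 0 < n by omega) hc
    have a2 := ml (show 0 < n by omega) h1
    have r1 : n * (V - 1) = n * V - n := by ring
    have e : v / n = V - 1 := dq (by omega) (by omega) (by omega)
    rw [if_neg (by omega), if_neg (by omega), e]
    rw [div_lt_iff' (by omega)] at hx
    rw [if_pos hx]
    rw [← div_lt_iff' (by omega)] at hx
    exact (colD R (tR_dir R) hc h1 hA hx).symm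

end

/-! ### The tiles of the room graph -/

section main

variable (R : FRm S.P.Q pl W y0 y1 A) {cp : κ → Bool} {h : ℕ} {x v r x0 : ℤ}

/-- colours of the right wall: string in the row `r` -/
noncomputable def crR (S : Shape) (W y0 r : ℤ) (y : ℤ) : Bool :=
  xor (decide (S.m2 ≤ tR S W y0 ∧ tR S W y0 < S.m3)) (decide (r < y))

include R in
lemma cellU {X V : ℤ} (h0 : y0 ≤ V) (h1 : V < y1) (hA : A V ≤ X) (hW : X < W)
    (hc : V + 1 = y1 ∨ (V + 1 < y1 ∧ X < A (V + 1))) (hp : pl (X, V + 1) = none) :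
    (X, V + 1) ∉ S.P.Q := by
  rcases hc with hc | ⟨hc, hx⟩
  · rcases R.top with ⟨a, ha⟩ | hq
    · have := ha X (by rw [← hc, add_sub_cancel_right]; exact hA) hW
      rw [hc, this] at hp
      exact absurd hp (by simp)
    · rw [hc]
      exact hq X (by rw [← hc, add_sub_cancel_right]; exact hA) hW
  · rcases R.up V h0 hc (by omega) with ⟨a, ha⟩ | hq
    · rw [ha X hA hx] at hp
      exact absurd hp (by simp)
    · exact hq X hA hx

include R in
lemma cellD {X V : ℤ} (h0 : y0 ≤ V) (h1 : V < y1) (hA : A V ≤ X) (hW : X < W)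
    (hc : V = y0 ∨ (y0 < V ∧ X < A (V - 1))) (hp : pl (X, V - 1) = none) :
    (X, V - 1) ∉ S.P.Q := by
  rcases hc with hc | ⟨hc, hx⟩
  · subst hc
    rcases R.bot with ⟨a, ha⟩ | hq
    · rw [ha X hA hW] at hp
      exact absurd hp (by simp)
    · exact hq X hA hW
  · rcases R.dn V hc h1 (by omega) with ⟨a, ha⟩ | hq
    · rw [ha X hA hx] at hp
      exact absurd hp (by simp)
    · exact hq X hA hx

variable {T : Finset (ℤ × ℤ)} (hh : 1 ≤ h) (hT : TOK S pl cp W y0 y1 A h T) {p : ℤ × ℤ}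
  (hp0 : y0 ≤ p.2 / (2 * (h : ℤ))) (hp1 : p.2 / (2 * (h : ℤ)) < y1)
  (hte : ∀ t, Ex S h p t ↔ t = sx S.P (W - 1, p.2 / (2 * (h : ℤ))) 1)
include R hh hT hp0 hp1 hte

/-- **Tiles with a common side with the room.** -/
lemma l1_tile (hn : ¬ IR W y0 y1 A (2 * h) x v)
    (hc : IR W y0 y1 A (2 * h) (x + 1) v ∨ IR W y0 y1 A (2 * h) (x - 1) v ∨
      IR W y0 y1 A (2 * h) x (v + 1) ∨ IR W y0 y1 A (2 * h) x (v - 1)) :
    lt (x, v) ∈ Lam3 S h ∧
      (lt (x, v) ∈ T ∪ Wp S h p ↔ fillR R cp (2 * h) (crR S W y0 (p.2 - 2 * h * y0)) x v = true) := by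
  have h2 : (2 : ℤ) ≤ 2 * (h : ℤ) := by omega
  have he1 : sx S.P (W - 1, y0) 1 ≤ sx S.P (W - 1, p.2 / (2 * (h : ℤ))) 1 := by
    have := (sxR R hp0 hp1).1; omega
  have he2 : (sx S.P (W - 1, p.2 / (2 * (h : ℤ))) 1 : ℤ) < sx S.P (W - 1, y0) 1 + (y1 - y0) := by
    have := (sxR R hp0 hp1).1; omega
  have hcell : ∀ {a b : ℤ}, IR W y0 y1 A (2 * h) a b → (a / (2 * h), b / (2 * h)) ∈ S.P.Q :=
    fun hab => (R.nat _ _ hab.1.1 hab.1.2 hab.2.1 hab.2.2).1
  refine ⟨near_Lam3 hh ?_, ?_⟩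
  · rcases hc with hc | hc | hc | hc
    · exact Or.inr (Or.inr (Or.inr (hcell hc)))
    · exact Or.inr (Or.inl (hcell hc))
    · exact Or.inl (hcell hc)
    · exact Or.inr (Or.inr (Or.inl (hcell hc)))
  rcases hc with hc | hc | hc | hc
  · obtain ⟨a0, a1, a2⟩ := irL h2 hc hn
    rw [fillL R h2 a0 a1 a2]
    have r1 : 2 * (h : ℤ) * (A (v / (2 * h)) - 1) = 2 * h * A (v / (2 * h)) - 2 * h := by ring
    have e : x / (2 * (h : ℤ)) = A (v / (2 * h)) - 1 := dq (by omega) (by omega) (by omega)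
    have hA := (R.nat _ _ a0 a1 le_rfl (R.AW _ a0 a1)).1
    unfold clR
    rcases left_cases R a0 a1 with ⟨a, ha⟩ | ⟨hnone, hq⟩
    · rw [colC_some ha]
      exact (plate_tile R hh hT (by rw [e]; exact ha)).2
    · rw [colC_none hnone, out_tile hT (by rw [e]; exact hq)]
      exact wallL R hh hte he1 he2 hA hq a2 rfl
  · obtain ⟨a0, a1, a2⟩ := irR h2 hc hn
    rw [fillRt R h2 a0 a1 a2]
    have e : x / (2 * (h : ℤ)) = W := dq (by omega) (by omega) (by omega)
    rw [out_tile hT (by rw [e]; exact R.rt _ (by omega) (by omega)),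
      wallR R hh hp0 hp1 hte a0 a1 a2 rfl]
    unfold crR tR
    have e2 : p.2 - 2 * h * y0 < v - 2 * h * y0 ↔ p.2 < v := by constructor <;> intro h <;> omega
    rw [decide_eq_decide.2 e2]
  · obtain ⟨V, a0, a1, a2, a3, a4, a5, a6⟩ := irD h2 hc hn
    rw [fillD R h2 a0 a1 a2 a4 a5 a6]
    have r1 : 2 * (h : ℤ) * (V - 1) = 2 * h * V - 2 * h := by ring
    have e : v / (2 * (h : ℤ)) = V - 1 := dq (by omega) (by omega) (by omega)
    have hA := (R.nat _ _ a0 a1 a4 a5).1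
    cases hpl : pl (x / (2 * h), V - 1) with
    | some a =>
      rw [colC_some hpl]
      exact (plate_tile R hh hT (by rw [e]; exact hpl)).2
    | none =>
      have hq := cellD R a0 a1 a4 a5 a6 hpl
      rw [colC_none hpl, out_tile hT (by rw [e]; exact hq)]
      exact wallD R hh hte he1 he2 hA hq rfl a2 a5
  · obtain ⟨V, a0, a1, a2, a3, a4, a5, a6⟩ := irU h2 hc hn
    rw [fillU R h2 a0 a1 a2 a4 a5 a6]
    have e : v / (2 * (h : ℤ)) = V + 1 := dq (by omega) (by omega) (by omega)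
    have hA := (R.nat _ _ a0 a1 a4 a5).1
    cases hpl : pl (x / (2 * h), V + 1) with
    | some a =>
      rw [colC_some hpl]
      exact (plate_tile R hh hT (by rw [e]; exact hpl)).2
    | none =>
      have hq := cellU R a0 a1 a4 a5 a6 hpl
      rw [colC_none hpl, out_tile hT (by rw [e]; exact hq)]
      exact wallU R hh hte he1 he2 hA hq rfl a2 a5

/-- **Diagonal tiles with two closed walls.** -/
lemma dg_tile (hn : ¬ IR W y0 y1 A (2 * h) x v) (hr0 : 2 * h * y0 < p.2) (hr1 : p.2 + 1 < 2 * h * y1)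
    (hc : ¬ (IR W y0 y1 A (2 * h) (x + 1) v ∨ IR W y0 y1 A (2 * h) (x - 1) v ∨
      IR W y0 y1 A (2 * h) x (v + 1) ∨ IR W y0 y1 A (2 * h) x (v - 1))) {i j : ℤ}
    (hi : i = 1 ∨ i = -1) (hj : j = 1 ∨ j = -1) (hij : IR W y0 y1 A (2 * h) (x + i) (v + j))
    (c1 : fillR R cp (2 * h) (crR S W y0 (p.2 - 2 * h * y0)) (x + i) v = false)
    (c2 : fillR R cp (2 * h) (crR S W y0 (p.2 - 2 * h * y0)) x (v + j) = false) :
    lt (x, v) ∈ Lam3 S h ∧ lt (x, v) ∉ T ∪ Wp S h p ∧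
      fillR R cp (2 * h) (crR S W y0 (p.2 - 2 * h * y0)) x v = false := by
  have h2 : (2 : ℤ) ≤ 2 * (h : ℤ) := by omega
  have he1 : sx S.P (W - 1, y0) 1 ≤ sx S.P (W - 1, p.2 / (2 * (h : ℤ))) 1 := by
    have := (sxR R hp0 hp1).1; omega
  have he2 : (sx S.P (W - 1, p.2 / (2 * (h : ℤ))) 1 : ℤ) < sx S.P (W - 1, y0) 1 + (y1 - y0) := by
    have := (sxR R hp0 hp1).1; omega
  push Not at hc
  obtain ⟨n1, n2, n3, n4⟩ := hc
  rcases hi with rfl | rfl <;> rcases hj with rfl | rfl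
  · -- lower left
    obtain ⟨a0, a1, a2⟩ := irL h2 hij n3
    obtain ⟨V, b0, b1, b2, b3, b4, b5, b6⟩ := irD h2 hij n1
    rw [b3] at a2
    have e : (x + 1) / (2 * (h : ℤ)) = A V := dq (by omega) (by omega) (by omega)
    rw [fillL R h2 a0 a1 (by rw [b3]; exact a2), b3] at c2
    have c3 := c1
    rw [fillD R h2 b0 b1 b2 b4 b5 b6, e] at c3
    rw [e] at b6
    have D := diagLL R hh hT hte he1 he2 b0 b1 a2 b2 (by omega) c2 c3
    refine ⟨D.1, D.2, ?_⟩
    rw [← c1]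
    have q0 := mle (show 0 < 2 * (h : ℤ) by omega) (show V ≤ y1 by omega)
    unfold fillR
    rcases b6 with b6 | ⟨b6, b7⟩
    · rw [if_pos (by rw [b6] at b2; omega), if_pos (by rw [b6] at b2; omega)]
    · have r1 : 2 * (h : ℤ) * (V - 1) = 2 * h * V - 2 * h := by ring
      have e2 : v / (2 * (h : ℤ)) = V - 1 := dq (by omega) (by omega) (by omega)
      have q1 := ml (show 0 < 2 * (h : ℤ) by omega) b6
      have q2 := ml (show 0 < 2 * (h : ℤ) by omega) b7
      rw [if_neg (by omega), if_neg (by omega), if_pos (by rw [e2]; omega), if_neg (by omega),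
        if_neg (by omega), if_pos (by rw [e2]; omega)]
  · -- upper left
    obtain ⟨a0, a1, a2⟩ := irL h2 hij n4
    obtain ⟨V, b0, b1, b2, b3, b4, b5, b6⟩ := irU h2 hij n1
    have b3' : (v + -1) / (2 * (h : ℤ)) = V := b3
    rw [b3'] at a2
    have e : (x + 1) / (2 * (h : ℤ)) = A V := dq (by omega) (by omega) (by omega)
    rw [fillL R h2 a0 a1 (by rw [b3']; exact a2), b3'] at c2
    have c3 := c1
    rw [fillU R h2 b0 b1 b2 b4 b5 b6, e] at c3
    rw [e] at b6
    have D := diagUL R hh hT hte he1 he2 b0 b1 a2 b2 (by omega) c2 c3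
    refine ⟨D.1, D.2, ?_⟩
    rw [← c1]
    have q0 := mle (show 0 < 2 * (h : ℤ) by omega) (show y0 ≤ V + 1 by omega)
    unfold fillR
    rcases b6 with b6 | ⟨b6, b7⟩
    · rw [if_neg (by omega), if_pos (by rw [b2, b6]), if_neg (by omega), if_pos (by rw [b2, b6])]
    · have e2 : v / (2 * (h : ℤ)) = V + 1 := dq (by omega) (by omega) (by omega)
      have q1 := ml (show 0 < 2 * (h : ℤ) by omega) b6
      have q2 := ml (show 0 < 2 * (h : ℤ) by omega) b7
      rw [if_neg (by omega), if_neg (by omega), if_pos (by rw [e2]; omega), if_neg (by omega),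
        if_neg (by omega), if_pos (by rw [e2]; omega)]
  · -- lower right
    have hij' : IR W y0 y1 A (2 * h) (x - 1) (v + 1) := hij
    obtain ⟨a0, a1, a2⟩ := irR h2 hij' n3
    obtain ⟨V, b0, b1, b2, b3, b4, b5, b6⟩ := irD h2 hij' n2
    have r0 : 2 * (h : ℤ) * (W - 1) = 2 * h * W - 2 * h := by ring
    have e : (x - 1) / (2 * (h : ℤ)) = W - 1 := dq (by omega) (by omega) (by omega)
    rw [e] at b6
    have hV : V = y0 := by
      rcases b6 with b6 | ⟨b6, b7⟩
      · exact b6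
      · have := R.AW (V - 1) (by omega) (by omega); omega
    subst hV
    have c1' : fillR R cp (2 * h) (crR S W V (p.2 - 2 * h * V)) (x - 1) v = false := c1
    have c3 : cbR S pl cp (tR S W V) W V = false := by
      unfold fillR at c1'
      rwa [if_pos (by omega)] at c1'
    rw [fillRt R h2 a0 a1 a2] at c2
    unfold crR at c2
    have c0 : ¬ (S.m2 ≤ tR S W V ∧ tR S W V < S.m3) := by
      intro hc0
      have : ¬ (p.2 - 2 * h * V < v + 1 - 2 * h * V) := by omega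
      simp [hc0, this] at c2
    have D := diagLR R hh hT hte he1 he2 a2 b2 c0 c3
    refine ⟨D.1, D.2, ?_⟩
    unfold fillR
    rw [if_pos (by omega)]
    exact c3
  · -- upper right
    have hij' : IR W y0 y1 A (2 * h) (x - 1) (v - 1) := hij
    obtain ⟨a0, a1, a2⟩ := irR h2 hij' n4
    obtain ⟨V, b0, b1, b2, b3, b4, b5, b6⟩ := irU h2 hij' n2
    have r0 : 2 * (h : ℤ) * (W - 1) = 2 * h * W - 2 * h := by ring
    have e : (x - 1) / (2 * (h : ℤ)) = W - 1 := dq (by omega) (by omega) (by omega)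
    rw [e] at b6
    have hV : V + 1 = y1 := by
      rcases b6 with b6 | ⟨b6, b7⟩
      · exact b6
      · have := R.AW (V + 1) (by omega) (by omega); omega
    rw [hV] at b2
    have q0 := mle (show 0 < 2 * (h : ℤ) by omega) R.lt.le
    have c1' : fillR R cp (2 * h) (crR S W y0 (p.2 - 2 * h * y0)) (x - 1) v = false := c1
    have c3 : ctR S pl cp (tR S W y0) W y1 = false := by
      unfold fillR at c1'
      rwa [if_neg (by omega), if_pos (by omega)] at c1'
    have c2' : fillR R cp (2 * h) (crR S W y0 (p.2 - 2 * h * y0)) x (v - 1) = false := c2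
    rw [fillRt R h2 a0 a1 a2] at c2'
    unfold crR at c2'
    have c0 : S.m2 ≤ tR S W y0 ∧ tR S W y0 < S.m3 := by
      by_contra hc0
      have : p.2 - 2 * h * y0 < v - 1 - 2 * h * y0 := by omega
      simp [hc0, this] at c2'
    have D := diagUR R hh hT hte he1 he2 a2 b2 c0 c3
    refine ⟨D.1, D.2, ?_⟩
    unfold fillR
    rw [if_neg (by omega), if_pos (by omega)]
    exact c3

end main

/-- **The glued world contains the room.** -/
theorem roomIn_of (R : FRm S.P.Q pl W y0 y1 A) (cp : κ → Bool) {h : ℕ} (h4 : 4 ≤ h)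
    {T : Finset (ℤ × ℤ)} (hT : TOK S pl cp W y0 y1 A h T) {x0 r : ℤ} (hr0 : 0 < r)
    (hr1 : r + 1 < 2 * h * (y1 - y0)) (hx0 : 2 * h * A (y0 + r / (2 * h)) ≤ x0)
    (hx1 : x0 ≤ 2 * h * W) :
    RoomIn (cdR R cp) (2 * h) (2 * h * y0) (crR S W y0 r) x0 r (Lam3 S h)
      (Del S.P.Q (2 * h) (x0, r + 2 * h * y0)) (T ∪ Wp S h (x0, r + 2 * h * y0)) := by
  classical
  have hn : (2 : ℤ) ≤ 2 * (h : ℤ) := by omega
  have hn0 : (0 : ℤ) < 2 * (h : ℤ) := by omega
  have hh : 1 ≤ h := by omega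
  have hm : 2 * (h : ℤ) * (y1 - y0) = 2 * h * y1 - 2 * h * y0 := by ring
  have hdiv : (r + 2 * h * y0) / (2 * (h : ℤ)) = y0 + r / (2 * h) := v_div hn0 r y0
  have hp0 : y0 ≤ (r + 2 * h * y0) / (2 * (h : ℤ)) := (le_div_iff' hn0).2 (by omega)
  have hp1 : (r + 2 * h * y0) / (2 * (h : ℤ)) < y1 := (div_lt_iff' hn0).2 (by omega)
  have hA0 := R.AW _ hp0 hp1
  have hin : ∀ x, x0 ≤ x → x < 2 * h * W → (x / (2 * h), (r + 2 * h * y0) / (2 * h)) ∈ S.P.Q := by
    intro x a b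
    refine (R.nat _ _ hp0 hp1 ?_ ((div_lt_iff' hn0).2 b)).1
    rw [le_div_iff' hn0, hdiv]
    omega
  have hte : ∀ t, Ex S h (x0, r + 2 * h * y0) t ↔
      t = sx S.P (W - 1, (r + 2 * h * y0) / (2 * (h : ℤ))) 1 := fun t =>
    ex_iff hh hx1 hin (sideR R hp0 hp1).1 (R.rt _ (by omega) (by omega))
  have hcr : crR S W y0 r = crR S W y0 ((x0, r + 2 * h * y0).2 - 2 * h * y0) := by
    congr 1
    simp only
    ring
  have hrp : ∀ x y, RP (cdR R cp) (2 * h) x y ↔ IR W y0 y1 A (2 * h) x (y + 2 * h * y0) :=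
    fun x y => rp_iff R hn0
  have hfill : ∀ x y, fillC (cdR R cp) (2 * h) (crR S W y0 r) x y =
      fillR R cp (2 * h) (crR S W y0 ((x0, r + 2 * h * y0).2 - 2 * h * y0)) x (y + 2 * h * y0) := by
    intro x y
    rw [fill_iff R hn0, ← hcr]
  -- the tiles outside of the room
  have key : ∀ x y, RT (cdR R cp) (2 * h) (crR S W y0 r) x y → ¬ RP (cdR R cp) (2 * h) x y →
      lt (x, y + 2 * h * y0) ∈ Lam3 S h ∧ (lt (x, y + 2 * h * y0) ∈ T ∪ Wp S h (x0, r + 2 * h * y0) ↔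
        fillC (cdR R cp) (2 * h) (crR S W y0 r) x y = true) := by
    intro x y hRT hRP
    have hnI : ¬ IR W y0 y1 A (2 * h) x (y + 2 * h * y0) := fun hc => hRP ((hrp _ _).2 hc)
    have hadj : (RP (cdR R cp) (2 * h) (x + 1) y ∨ RP (cdR R cp) (2 * h) (x - 1) y ∨
        RP (cdR R cp) (2 * h) x (y + 1) ∨ RP (cdR R cp) (2 * h) x (y - 1)) ↔
        (IR W y0 y1 A (2 * h) (x + 1) (y + 2 * h * y0) ∨ IR W y0 y1 A (2 * h) (x - 1) (y + 2 * h * y0) ∨
        IR W y0 y1 A (2 * h) x (y + 2 * h * y0 + 1) ∨ IR W y0 y1 A (2 * h) x (y + 2 * h * y0 - 1)) := by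
      rw [hrp, hrp, hrp, hrp, show y + 1 + 2 * h * y0 = y + 2 * h * y0 + 1 by ring,
        show y - 1 + 2 * h * y0 = y + 2 * h * y0 - 1 by ring]
    rw [hfill]
    rcases hRT with hRT | hRT | hRT
    · exact absurd hRT hRP
    · exact l1_tile R hh hT hp0 hp1 hte hnI (hadj.1 hRT.2)
    · obtain ⟨-, b, i, j, hi, hj, b1, b2, b3⟩ := hRT
      have b1' := (hrp _ _).1 b1
      rw [show y + j + 2 * h * y0 = y + 2 * h * y0 + j by ring] at b1'
      rw [hfill] at b2 b3
      rw [show y + j + 2 * h * y0 = y + 2 * h * y0 + j by ring] at b3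
      obtain ⟨d1, d2, d3⟩ := dg_tile R hh hT hp0 hp1 hte hnI (by simp only; omega)
        (by simp only; omega) (fun hc => b ⟨hRP, hadj.2 hc⟩) hi hj b1' b2 b3
      refine ⟨d1, ?_⟩
      rw [d3]
      exact ⟨fun hc => absurd hc d2, fun hc => absurd hc (by simp)⟩
  refine ⟨by omega, by omega, ?_, ?_, ?_, fun x y h1 h2 => (key x y h1 h2).2, ?_⟩
  · have : 2 * (h : ℤ) * y0 = 2 * (h * y0) := by ring
    omega
  · intro x y hRT
    by_cases hRP : RP (cdR R cp) (2 * h) x y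
    · have hI := (hrp _ _).1 hRP
      apply ee_Lam3
      unfold H21.FM.EE
      rw [lt_mem_TL hn0]
      exact (R.nat _ _ hI.1.1 hI.1.2 hI.2.1 hI.2.2).1
    · exact (key x y hRT hRP).1
  · intro x y hRP
    have hI := (hrp _ _).1 hRP
    have hQ := (R.nat _ _ hI.1.1 hI.1.2 hI.2.1 hI.2.2).1
    rw [mem_union, not_or]
    refine ⟨hT.room _ _ hI.1.1 hI.1.2 hI.2.1 hI.2.2, fun hc => ?_⟩
    rw [mem_Wp hh hte] at hc
    exact hc.1 hQ
  · intro x y hRT
    have hb := hRT.box hn0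
    have e0 : (cdR R cp).W = W := rfl
    rw [e0] at hb
    unfold Del
    simp only [Set.mem_setOf_eq, tt_lt]
    constructor
    · rintro ⟨-, h1, h2, -⟩
      exact ⟨by omega, h2⟩
    · rintro ⟨rfl, h2⟩
      refine ⟨lt_odd _, rfl, h2, fun x' a b => ?_⟩
      exact hin x' a (by omega)

end Pool.Agent.H68.W
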