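import Mathlib
import Pool.Agent.H68.W.RoomR

set_option autoImplicit false
set_option linter.unusedSimpArgs false
set_option linter.unusedSectionVars false
open Finset

/-! # The world outside of a room does not depend on the string in the room

`R` a fine room, `p`, `p'` two string tiles in the room (or on its right wall). Off the right layer of the room
the open layer labels `Wp S h p`, `Wp S h p'` are the same; the string tiles are in the room or in its
right layer; the far ends are the same. -/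

namespace Pool.Agent.H68.W

open Pool.Agent.H75.Perc hiding WL CT hh PB EE
open Pool.Agent.H75.TwoArm Pool.Agent.H75.Four Pool.Agent.Q1
open Pool.Agent.Q1.M4 (Cell PType IsSide nextSide tail head Good)
open Pool.Agent.H33.Q1 Pool.Agent.H21.FM
open Pool.Agent.H13.W Pool.Agent.H58.W Pool.Agent.H74.W
open Pool.Agent.H78.W (FRm Seg)

variable {κ : Type*} {S : Shape} {pl : Cell → Option κ} {W y0 y1 : ℤ} {A : ℤ → ℤ}

/-- the string tile `p` is in the room or on its right wall, not in the first or last row -/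
structure InS (W y0 y1 : ℤ) (A : ℤ → ℤ) (n : ℤ) (p : ℤ × ℤ) : Prop where
  lo : n * y0 < p.2
  hi : p.2 + 1 < n * y1
  le : n * A (p.2 / n) ≤ p.1
  re : p.1 ≤ n * W

section

variable (R : FRm S.P.Q pl W y0 y1 A) {c : Cell} {k : ℤ}
include R

lemma sx_notin' (h : IsSide S.P.Q (c, k)) (hk : k % 4 ≠ 1 ∨ c.1 ≠ W - 1 ∨ c.2 < y0 ∨ y1 ≤ c.2) :
    ¬ (sx S.P (W - 1, y0) 1 ≤ sx S.P c k ∧
      (sx S.P c k : ℤ) < sx S.P (W - 1, y0) 1 + (y1 - y0)) := by
  rintro ⟨h1, h2⟩
  set y := y0 + ((sx S.P c k : ℤ) - sx S.P (W - 1, y0) 1) with hy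
  have e := (sxR R (y := y) (by omega) (by omega)).1
  have e' : sx S.P (W - 1, y) 1 = sx S.P c k := by omega
  have a := sx_spec (sideR R (y := y) (by omega) (by omega))
  have b := sx_spec h
  rw [e'] at a
  have hc : c = (W - 1, y) := by rw [← b.2.1, a.2.1]
  rcases hk with hk | hk | hk | hk
  · omega
  · exact hk (by rw [hc])
  · rw [hc] at hk; simp only at hk; omega
  · rw [hc] at hk; simp only at hk; omega

variable {h : ℕ} (hh : 1 ≤ h) {p p' : ℤ × ℤ} {x v : ℤ}
include hh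

lemma InS.row (hp : InS W y0 y1 A (2 * h) p) : y0 ≤ p.2 / (2 * (h : ℤ)) ∧ p.2 / (2 * (h : ℤ)) < y1 := by
  have hn0 : (0 : ℤ) < 2 * (h : ℤ) := by omega
  have h1 := hp.lo
  have h2 := hp.hi
  exact ⟨(le_div_iff' hn0).2 (by omega), (div_lt_iff' hn0).2 (by omega)⟩

/-- the exit -/
lemma ex_room (hp : InS W y0 y1 A (2 * h) p) {t : ℕ} :
    Ex S h p t ↔ t = sx S.P (W - 1, p.2 / (2 * (h : ℤ))) 1 := by
  have hn0 : (0 : ℤ) < 2 * (h : ℤ) := by omega
  obtain ⟨h0, h1⟩ := InS.row R hh hp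
  have e : p = (p.1, p.2) := rfl
  rw [e]
  refine ex_iff hh hp.re (fun x a b => (R.nat _ _ h0 h1 ?_ ((div_lt_iff' hn0).2 b)).1)
    (sideR R h0 h1).1 (R.rt _ (by omega) (by omega))
  rw [le_div_iff' hn0]
  exact hp.le.trans a

lemma ex_range (hp : InS W y0 y1 A (2 * h) p) :
    sx S.P (W - 1, y0) 1 ≤ sx S.P (W - 1, p.2 / (2 * (h : ℤ))) 1 ∧
      (sx S.P (W - 1, p.2 / (2 * (h : ℤ))) 1 : ℤ) < sx S.P (W - 1, y0) 1 + (y1 - y0) := by
  obtain ⟨h0, h1⟩ := InS.row R hh hp
  have := (sxR R h0 h1).1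
  constructor <;> omega

/-- **The layer labels off the right layer of the room do not depend on the string.** -/
theorem wp_off (hp : InS W y0 y1 A (2 * h) p) (hp' : InS W y0 y1 A (2 * h) p')
    (hx : ¬ (x = 2 * h * W ∧ y0 ≤ v / (2 * h) ∧ v / (2 * h) < y1)) :
    lt (x, v) ∈ Wp S h p ↔ lt (x, v) ∈ Wp S h p' := by
  have hn : (2 : ℤ) ≤ 2 * (h : ℤ) := by omega
  obtain ⟨r1, r2⟩ := ex_range R hh hp
  obtain ⟨r1', r2'⟩ := ex_range R hh hp'
  rw [mem_Wp hh (fun t => ex_room R hh hp), mem_Wp hh (fun t => ex_room R hh hp')]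
  by_cases h0 : (x / (2 * h), v / (2 * h)) ∈ S.P.Q
  · exact ⟨fun hc => absurd h0 hc.1, fun hc => absurd h0 hc.1⟩
  have key : ∀ c k, IsSide S.P.Q (c, k) → (k % 4 ≠ 1 ∨ c.1 ≠ W - 1 ∨ c.2 < y0 ∨ y1 ≤ c.2) →
      (Cf S (sx S.P (W - 1, p.2 / (2 * (h : ℤ))) 1) p.2 (sx S.P c k) v ↔
        Cf S (sx S.P (W - 1, p'.2 / (2 * (h : ℤ))) 1) p'.2 (sx S.P c k) v) := by
    intro c k hs hk
    rw [cf_wf (sx_notin' R hs hk) r1 r2, cf_wf (sx_notin' R hs hk) r1' r2']
  refine and_congr Iff.rfl (or_congr (and_congr_right fun a => ?_) (or_congr (and_congr_right fun a => ?_)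
    (or_congr (and_congr_right fun a => ?_) (and_congr_right fun a => ?_))))
  · have e : (v + 1) / (2 * (h : ℤ)) = v / (2 * h) + 1 := by
      rcases dsucc hn v with b | b
      · exact absurd (b.1 ▸ a) h0
      · exact b.1
    exact key _ _ (isSide0.2 ⟨a, by rw [e, add_sub_cancel_right]; exact h0⟩) (Or.inl (by norm_num))
  · have e : (x - 1) / (2 * (h : ℤ)) = x / (2 * h) - 1 ∧ x = 2 * h * (x / (2 * h)) := by
      rcases dpred hn x with b | b
      · exact absurd (b.1 ▸ a) h0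
      · exact b
    refine key _ _ (isSide1.2 ⟨a, by rw [e.1, sub_add_cancel]; exact h0⟩) (Or.inr ?_)
    by_contra hc
    push Not at hc
    simp only at hc
    apply hx
    refine ⟨?_, hc.2.1, hc.2.2⟩
    rw [e.2, show x / (2 * (h : ℤ)) = W by omega]
  · have e : (v - 1) / (2 * (h : ℤ)) = v / (2 * h) - 1 := by
      rcases dpred hn v with b | b
      · exact absurd (b.1 ▸ a) h0
      · exact b.1
    exact key _ _ (isSide2.2 ⟨a, by rw [e, sub_add_cancel]; exact h0⟩) (Or.inl (by norm_num))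
  · have e : (x + 1) / (2 * (h : ℤ)) = x / (2 * h) + 1 := by
      rcases dsucc hn x with b | b
      · exact absurd (b.1 ▸ a) h0
      · exact b.1
    exact key _ _ (isSide3.2 ⟨a, by rw [e, add_sub_cancel_right]; exact h0⟩) (Or.inl (by norm_num))

/-- **The string is in the room and its right layer.** -/
theorem del_room (hp : InS W y0 y1 A (2 * h) p) :
    lt (x, v) ∈ Del S.P.Q (2 * h) p ↔ v = p.2 ∧ p.1 ≤ x ∧ x ≤ 2 * h * W := by
  have hn0 : (0 : ℤ) < 2 * (h : ℤ) := by omega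
  obtain ⟨h0, h1⟩ := InS.row R hh hp
  unfold Del
  show ((lt (x, v)).1 + (lt (x, v)).2) % 2 = 1 ∧ (tt (lt (x, v))).2 = p.2 ∧ p.1 ≤ (tt (lt (x, v))).1 ∧
    (∀ x', p.1 ≤ x' → x' < (tt (lt (x, v))).1 → ct (2 * h) (x', p.2) ∈ S.P.Q) ↔ _
  rw [tt_lt]
  simp only
  constructor
  · rintro ⟨-, a, b, c⟩
    refine ⟨a, b, ?_⟩
    by_contra hc
    have := c (2 * h * W) hp.re (by omega)
    unfold ct at this
    simp only at this
    rw [show 2 * (h : ℤ) * W / (2 * h) = W by rw [mul_comm]; exact Int.mul_ediv_cancel _ (by omega)] at this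
    exact R.rt _ (by omega) (by omega) this
  · rintro ⟨a, b, c⟩
    refine ⟨lt_odd _, a, b, fun x' d e => (R.nat _ _ h0 h1 ?_ ((div_lt_iff' hn0).2 (by omega))).1⟩
    rw [le_div_iff' hn0]
    exact hp.le.trans d

/-- the exits of two strings of one room are in the same arc -/
lemma ex_arc (hp : InS W y0 y1 A (2 * h) p) {m : ℕ} (hm : m = S.m2 ∨ m = S.m3 ∨ m = S.m4) :
    (∃ t, Ex S h p t ∧ t < m) ↔ sx S.P (W - 1, y0) 1 < m := by
  obtain ⟨h0, h1⟩ := InS.row R hh hp
  obtain ⟨e, hno⟩ := sxR R h0 h1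
  have h02 := S.h02
  have h23 := S.h23
  have h34 : S.m3 < S.m4 := S.h34
  constructor
  · rintro ⟨t, ht, hlt⟩
    rw [ex_room R hh hp] at ht
    omega
  · intro hlt
    refine ⟨_, (ex_room R hh hp).2 rfl, ?_⟩
    by_contra hc
    have := hno (m - 1) (by omega) (by omega)
    rcases hm with rfl | rfl | rfl
    · exact this.2.1 (by omega)
    · exact this.2.2.1 (by omega)
    · exact this.2.2.2 (by omega)

/-- **The far ends do not depend on the string in the room.** -/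
theorem yy_eq (hp : InS W y0 y1 A (2 * h) p) (hp' : InS W y0 y1 A (2 * h) p') (j : Fin 3) :
    yy S h p j = yy S h p' j := by
  classical
  unfold yy
  simp only [ex_arc R hh hp (Or.inl rfl), ex_arc R hh hp' (Or.inl rfl),
    ex_arc R hh hp (Or.inr (Or.inl rfl)), ex_arc R hh hp' (Or.inr (Or.inl rfl))]

end

end Pool.Agent.H68.W
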