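import Mathlib
import Pool.Agent.H68.W.RoomG

set_option autoImplicit false
open Finset

/-! # A disc in one room (route W, D11 (P))

A point of the domain which is neither on a chord nor a grid vertex has a neighbourhood in one room. -/

namespace Pool.Agent.H68.W

open Metric
open Pool.Agent.Q1.M4 (Cell Om Reg rect mem_Om pt)
open Pool.Agent.H14.FM (ic ic_mono)
open Pool.Agent.H13.W (chG)

/-- near `t` the integer part is `⌊t⌋`, or `t` is an integer and it is `⌊t⌋ - 1` -/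
lemma floor_near (t : ℝ) : ∃ r > 0, ∀ s : ℝ, |s - t| < r →
    ⌊s⌋ = ⌊t⌋ ∨ (t = ⌊t⌋ ∧ ⌊s⌋ = ⌊t⌋ - 1) := by
  have h1 := Int.floor_le t
  have h2 := Int.lt_floor_add_one t
  rcases eq_or_lt_of_le h1 with e | e
  · refine ⟨1, one_pos, fun s hs => ?_⟩
    rw [abs_lt] at hs
    rcases le_total t s with k | k
    · left
      rw [Int.floor_eq_iff]
      constructor <;> linarith
    · rcases eq_or_lt_of_le k with k' | k'
      · left; rw [k']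
      · right
        refine ⟨e.symm, ?_⟩
        rw [Int.floor_eq_iff]
        push_cast
        constructor <;> linarith
  · refine ⟨min (t - ⌊t⌋) (⌊t⌋ + 1 - t), lt_min (by linarith) (by linarith), fun s hs => ?_⟩
    rw [lt_min_iff, abs_lt, abs_lt] at hs
    left
    rw [Int.floor_eq_iff]
    constructor <;> linarith [hs.1.1, hs.2.2]

/-- the coarse cell of a point -/
noncomputable def cz (z : ℂ) : Cell := (⌊z.re⌋, ⌊z.im⌋)

/-- **A disc in one room.** -/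
theorem room_ball {Q : Finset Cell} {z0 : ℂ} (h0 : z0 ∈ Om Q ic ic)
    (h1 : ∀ c ∈ chG Q, ¬ (z0.im = c.2 ∧ (c.1 : ℝ) ≤ z0.re ∧ z0.re ≤ c.1 + 1))
    (h2 : ∀ p : ℤ × ℤ, z0 ≠ pt ic ic p) : ∃ r > 0, ∃ W y0 y1, RSide Q W y0 y1 ∧
      ∀ z ∈ ball z0 r, cz z ∈ room Q W y0 y1 := by
  obtain ⟨-, hc⟩ := (mem_Om ic_mono ic_mono).1 h0
  obtain ⟨r1, hr1, k1⟩ := floor_near z0.re
  obtain ⟨r2, hr2, k2⟩ := floor_near z0.im
  have a1 := Int.floor_le z0.re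
  have a2 := Int.lt_floor_add_one z0.re
  have b1 := Int.floor_le z0.im
  have b2 := Int.lt_floor_add_one z0.im
  have m0 : (⌊z0.re⌋, ⌊z0.im⌋) ∈ Q := hc _ ⟨⟨a1, by
    show z0.re ≤ ((⌊z0.re⌋ + 1 : ℤ) : ℝ)
    push_cast; exact a2.le⟩, b1, by
    show z0.im ≤ ((⌊z0.im⌋ + 1 : ℤ) : ℝ)
    push_cast; exact b2.le⟩
  obtain ⟨W, y0, y1, H, hm, hr, -⟩ := exists_room m0
  refine ⟨min r1 r2, lt_min hr1 hr2, W, y0, y1, H, fun z hz => ?_⟩
  rw [mem_ball, dist_eq_norm, lt_min_iff] at hz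
  have c1 := k1 z.re (lt_of_le_of_lt (by
    have := Complex.abs_re_le_norm (z - z0)
    rwa [Complex.sub_re] at this) hz.1)
  have c2 := k2 z.im (lt_of_le_of_lt (by
    have := Complex.abs_im_le_norm (z - z0)
    rwa [Complex.sub_im] at this) hz.2)
  unfold cz
  rcases c1 with c1 | ⟨c1, c1'⟩
  · rcases c2 with c2 | ⟨c2, c2'⟩
    · rw [c1, c2]; exact hm
    · -- horizontal side
      rw [c1, c2']
      have m1 : (⌊z0.re⌋, ⌊z0.im⌋ - 1) ∈ Q := hc _ ⟨⟨a1, by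
        show z0.re ≤ ((⌊z0.re⌋ + 1 : ℤ) : ℝ)
        push_cast; exact a2.le⟩, by
        show ((⌊z0.im⌋ - 1 : ℤ) : ℝ) ≤ z0.im
        push_cast; linarith, by
        show z0.im ≤ ((⌊z0.im⌋ - 1 + 1 : ℤ) : ℝ)
        rw [sub_add_cancel]; exact c2.le⟩
      have hn : (⌊z0.re⌋, ⌊z0.im⌋) ∉ chG Q := fun hn => h1 _ hn ⟨c2, a1, a2.le⟩
      rw [mem_chG] at hn
      have e : rgt Q ⌊z0.re⌋ ⌊z0.im⌋ = rgt Q ⌊z0.re⌋ (⌊z0.im⌋ - 1) := by
        by_contra hne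
        exact hn ⟨m0, m1, hne⟩
      rw [H.mem_iff_rid m1, ← hr]
      have := rid_up (y := ⌊z0.im⌋ - 1) m1 (by rw [sub_add_cancel]; exact m0)
      rw [sub_add_cancel] at this
      exact (this.2 e).symm
  · have m1 : (⌊z0.re⌋ - 1, ⌊z0.im⌋) ∈ Q := hc _ ⟨⟨by
        show ((⌊z0.re⌋ - 1 : ℤ) : ℝ) ≤ z0.re
        push_cast; linarith, by
        show z0.re ≤ ((⌊z0.re⌋ - 1 + 1 : ℤ) : ℝ)
        rw [sub_add_cancel]; exact c1.le⟩, b1, by
        show z0.im ≤ ((⌊z0.im⌋ + 1 : ℤ) : ℝ)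
        push_cast; exact b2.le⟩
    rcases c2 with c2 | ⟨c2, c2'⟩
    · rw [c1', c2, H.mem_iff_rid m1, ← hr]
      have := rid_succ (x := ⌊z0.re⌋ - 1) m1 (by rw [sub_add_cancel]; exact m0)
      rw [sub_add_cancel] at this
      exact this.symm
    · exact absurd (Complex.ext c1 c2 : z0 = pt ic ic (⌊z0.re⌋, ⌊z0.im⌋)) (h2 _)

/-- the vertices of the cells -/
noncomputable def vtx (Q : Finset Cell) : Finset ℂ := open Classical in
  Q.biUnion fun c => {pt ic ic c, pt ic ic (c.1 + 1, c.2), pt ic ic (c.1 + 1, c.2 + 1),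
    pt ic ic (c.1, c.2 + 1)}

lemma not_vtx {Q : Finset Cell} {z0 : ℂ} (h0 : z0 ∈ Om Q ic ic) (h : z0 ∉ vtx Q) (p : ℤ × ℤ) :
    z0 ≠ pt ic ic p := by
  classical
  rintro rfl
  obtain ⟨-, hc⟩ := (mem_Om ic_mono ic_mono).1 h0
  apply h
  have : p ∈ Q := by
    apply hc
    refine ⟨⟨le_rfl, ?_⟩, le_rfl, ?_⟩
    · show (p.1 : ℝ) ≤ ((p.1 + 1 : ℤ) : ℝ)
      push_cast; linarith
    · show (p.2 : ℝ) ≤ ((p.2 + 1 : ℤ) : ℝ)
      push_cast; linarith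
  unfold vtx
  rw [mem_biUnion]
  exact ⟨p, this, by simp⟩

/-- **A disc in one room**, with 74's exceptional sets. -/
theorem room_ball' {Q : Finset Cell} {z0 : ℂ} (h0 : z0 ∈ Om Q ic ic)
    (h1 : z0 ∉ {z : ℂ | ∃ c ∈ chG Q, z.im = c.2 ∧ (c.1 : ℝ) ≤ z.re ∧ z.re ≤ c.1 + 1})
    (h2 : z0 ∉ vtx Q) : ∃ r > 0, ∃ W y0 y1, RSide Q W y0 y1 ∧
      ∀ z ∈ ball z0 r, cz z ∈ room Q W y0 y1 :=
  room_ball h0 (fun c hc h => h1 ⟨c, hc, h⟩) (not_vtx h0 h2)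

end Pool.Agent.H68.W
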