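import Mathlib
import Pool.Agent.H78.W.FBall
import Pool.Agent.H68.W.RoomR
import Pool.Agent.H20.W.SDef

set_option autoImplicit false
open Finset

/-! # A disc in the interior of one fine room (route W, StHol)

`ball_room` : near a point of the domain off the chords and off finitely many points, for all fine plates,
the rescaled disc lies in the interior `OmC` of the coarse data of one fine room.
`omC_cell` : a point of `OmC` and its cell.
-/

namespace Pool.Agent.H68.W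

open Metric Filter
open Pool.Agent.Q1.M4 (Cell Om)
open Pool.Agent.H5.C3 (Gen)
open Pool.Agent.H13.W (chG)
open Pool.Agent.H14.FM (ic)
open Pool.Agent.H21.FM (Shape)
open Pool.Agent.H50.W (dv rf)
open Pool.Agent.H58.W (plV)
open Pool.Agent.H74.W (lK chU)
open Pool.Agent.H78.W
open Pool.Agent.H54.W (CD)
open Pool.Agent.H20.W (OmC)

/-- the cell of the point `z` in fine units is close to `z` -/
lemma cell_near' {M : ℤ} (hM : 0 < M) (t : ℝ) (d : ℤ) :
    |((⌊(M : ℝ) * t⌋ + d : ℤ) : ℝ) / M - t| ≤ (|(d : ℝ)| + 1) / M := by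
  have hM' : (0 : ℝ) < M := by exact_mod_cast hM
  have h1 := Int.floor_le ((M : ℝ) * t)
  have h2 := Int.lt_floor_add_one ((M : ℝ) * t)
  set q : ℝ := ((⌊(M : ℝ) * t⌋ : ℤ) : ℝ) with hq
  have e : ((⌊(M : ℝ) * t⌋ + d : ℤ) : ℝ) / M - t = (q + d - M * t) / M := by
    push_cast
    rw [← hq]
    field_simp
  rw [e, abs_div, abs_of_pos hM']
  apply div_le_div_of_nonneg_right _ hM'.le
  have h5 : |q - M * t| ≤ 1 := by rw [abs_le]; constructor <;> linarith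
  have h6 : q + d - M * t = (q - M * t) + d := by ring
  rw [h6]
  have := abs_add_le (q - M * t) (d : ℝ)
  linarith

/-- the closed cells of the room -/
def OmS (C : CD) : Set ℂ := {z : ℂ | ∃ Y : ℤ, 0 ≤ Y ∧ Y < C.H ∧ (Y : ℝ) ≤ z.im ∧ z.im ≤ Y + 1 ∧
  (C.A Y : ℝ) ≤ z.re ∧ z.re ≤ C.W}

/-- **A disc in the interior of one fine room.** -/
theorem ball_room (S : Shape) (hG : Gen S.P.Q) (b : ℤ) (hb : ∀ c ∈ chG S.P.Q, c.1 < b) :
    ∃ F : Finset ℂ, ∀ z0 ∈ Om S.P.Q ic ic, z0 ∉ chU S.P.Q → z0 ∉ F → ∃ ρ > (0 : ℝ), ∀ᶠ k in lK,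
      ∃ (hM : 0 < k.1 * k.2) (W y0 y1 : ℤ) (A : ℤ → ℤ)
        (R : FRm (rf S (k.1 * k.2) hM).P.Q (plV (chG S.P.Q) b k.1 k.2) W y0 y1 A),
        ∀ cp : ℤ × ℤ → Bool, ∀ z ∈ ball z0 ρ,
          (((k.1 * k.2 : ℕ) : ℝ) : ℂ) * z + (-(y0 : ℂ) * Complex.I) ∈ OmC (cdR R cp) := by
  refine ⟨vtx S.P.Q, fun z0 h0 h1 h2 => ?_⟩
  obtain ⟨r0, hr0, W, y0, y1, R, hball⟩ := room_ball' h0 h1 h2
  obtain ⟨a0, hctx⟩ := ctx_of S hG hb
  refine ⟨r0 / 4, by positivity, ?_⟩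
  unfold lK
  rw [Filter.Eventually, Filter.mem_curry_iff]
  obtain ⟨N0, hN0⟩ := exists_nat_gt (8 / r0)
  filter_upwards [eventually_ge_atTop (max N0 1)] with N hN
  filter_upwards [eventually_ge_atTop (max (64 * ((N : ℤ) * (b - a0))).toNat 64)] with M' hM'
  have hNp : 0 < N := lt_of_lt_of_le one_pos ((le_max_right _ _).trans hN)
  have hM1 : (64 * ((N : ℤ) * (b - a0))).toNat ≤ M' := (le_max_left _ _).trans hM'
  have hM2 : 64 ≤ M' := (le_max_right _ _).trans hM'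
  have hMp : 0 < N * M' := Nat.mul_pos hNp (by omega)
  have hC := hctx N M' hMp (by omega)
  have hN8 : 8 / r0 < N := lt_of_lt_of_le hN0 (by exact_mod_cast (le_max_left _ _).trans hN)
  have hNr : (0 : ℝ) < N := by exact_mod_cast hNp
  have hMr : (64 : ℝ) ≤ M' := by exact_mod_cast hM2
  have hMz : (0 : ℤ) < (N * M' : ℤ) := by exact_mod_cast hMp
  have hMr' : (0 : ℝ) < ((N * M' : ℤ) : ℝ) := by exact_mod_cast hMz
  -- cells of the points near `z0`
  have key : ∀ z ∈ ball z0 (r0 / 2), ∀ j' : ℤ, 64 * |j'| ≤ M' + 64 →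
      (⌊((N * M' : ℤ) : ℝ) * z.re⌋ / (N * M' : ℤ), (⌊((N * M' : ℤ) : ℝ) * z.im⌋ + j') / (N * M' : ℤ)) ∈
        room S.P.Q W y0 y1 := by
    intro z hz j' hj'
    have hjr : |(j' : ℝ)| ≤ M' / 64 + 1 := by
      have e2 : ((64 * |j'| : ℤ) : ℝ) ≤ ((M' + 64 : ℤ) : ℝ) := by exact_mod_cast hj'
      push_cast at e2
      linarith
    have d1 := cell_near' hMz z.re 0
    have d2 := cell_near' hMz z.im j'
    rw [add_zero] at d1
    have hρ1 : (|((0 : ℤ) : ℝ)| + 1) / ((N * M' : ℤ) : ℝ) ≤ 2 / N := by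
      rw [div_le_div_iff₀ hMr' hNr]
      push_cast
      rw [abs_zero]
      nlinarith
    have hρ2 : (|(j' : ℝ)| + 1) / ((N * M' : ℤ) : ℝ) ≤ 2 / N := by
      rw [div_le_div_iff₀ hMr' hNr]
      push_cast
      nlinarith
    have d3 := pc_mem hMz (mem_ball.1 hz)
      (c := (⌊((N * M' : ℤ) : ℝ) * z.re⌋, ⌊((N * M' : ℤ) : ℝ) * z.im⌋ + j')) (ρ := 2 / N)
      (d1.trans hρ1) (d2.trans hρ2)
    have d4 : r0 / 2 + 2 * (2 / N) ≤ r0 := by
      have : (8 : ℝ) < N * r0 := by rwa [div_lt_iff₀ hr0] at hN8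
      have : 4 / (N : ℝ) ≤ r0 / 2 := by
        rw [div_le_div_iff₀ hNr (by norm_num)]
        linarith
      have e : 2 * (2 / (N : ℝ)) = 4 / N := by ring
      rw [e]; linarith
    have d5 := hball _ (mem_ball.2 (lt_of_lt_of_le d3 d4))
    rwa [cz_pc hMz] at d5
  have FR := hC.frm R
  refine ⟨hMp, N * M' * W, N * M' * y0 + tE S.P.Q b N W y0, N * M' * y1 - tE S.P.Q b N W y1,
    AF S.P.Q (rf S (N * M') hMp).P.Q b N M' W, FR, fun cp => ?_⟩
  set y0' : ℤ := N * M' * y0 + tE S.P.Q b N W y0 with hy0'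
  have hMM : (((N * M' : ℕ) : ℝ) : ℂ) = (((N * M' : ℤ) : ℝ) : ℂ) := by push_cast; rfl
  -- points near `z0` are in closed cells of the room
  have cells : ∀ z ∈ ball z0 (r0 / 2),
      (((N * M' : ℤ) : ℝ) : ℂ) * z + (-(y0' : ℂ) * Complex.I) ∈ OmS (cdR FR cp) := by
    intro z hz
    have hF := free_of_near hC R (x := ⌊((N * M' : ℤ) : ℝ) * z.re⌋) (y := ⌊((N * M' : ℤ) : ℝ) * z.im⌋)
      (fun j' hj' => key z hz j' hj')
    have h3 := key z hz 0 (by simp; omega)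
    rw [add_zero] at h3
    obtain ⟨⟨g1, g2⟩, g3, g4⟩ := (hC.mem_iff R).2 ⟨hF, h3⟩
    have x1 := Int.floor_le (((N * M' : ℤ) : ℝ) * z.re)
    have x2 := Int.lt_floor_add_one (((N * M' : ℤ) : ℝ) * z.re)
    have i1 := Int.floor_le (((N * M' : ℤ) : ℝ) * z.im)
    have i2 := Int.lt_floor_add_one (((N * M' : ℤ) : ℝ) * z.im)
    set x := ⌊((N * M' : ℤ) : ℝ) * z.re⌋
    set y := ⌊((N * M' : ℤ) : ℝ) * z.im⌋
    have ere : ((((N * M' : ℤ) : ℝ) : ℂ) * z + (-(y0' : ℂ) * Complex.I)).re =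
        ((N * M' : ℤ) : ℝ) * z.re := by
      rw [Complex.add_re, Complex.re_ofReal_mul]
      simp
    have eim : ((((N * M' : ℤ) : ℝ) : ℂ) * z + (-(y0' : ℂ) * Complex.I)).im =
        ((N * M' : ℤ) : ℝ) * z.im - y0' := by
      rw [Complex.add_im, Complex.im_ofReal_mul]
      simp
      ring
    refine ⟨y - y0', by omega, ?_, ?_, ?_, ?_, ?_⟩
    · show y - y0' < _ - y0'
      omega
    · rw [eim]
      push_cast at i1 ⊢
      linarith
    · rw [eim]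
      push_cast at i2 ⊢
      linarith
    · rw [ere]
      show ((AF S.P.Q (rf S (N * M') hMp).P.Q b N M' W (y0' + (y - y0')) : ℤ) : ℝ) ≤ _
      rw [show y0' + (y - y0') = y by ring]
      refine le_trans ?_ x1
      exact_mod_cast g3
    · rw [ere]
      show _ ≤ ((N * M' * W : ℤ) : ℝ)
      refine x2.le.trans ?_
      exact_mod_cast g4
  intro z hz
  rw [mem_ball] at hz
  show _ ∈ interior (OmS (cdR FR cp))
  rw [mem_interior]
  refine ⟨ball ((((N * M' : ℕ) : ℝ) : ℂ) * z + (-(y0' : ℂ) * Complex.I)) (((N * M' : ℤ) : ℝ) * (r0 / 4)),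
    fun u hu => ?_, isOpen_ball, mem_ball_self (by positivity)⟩
  rw [mem_ball, hMM] at hu
  set z' : ℂ := (u - (-(y0' : ℂ) * Complex.I)) / (((N * M' : ℤ) : ℝ) : ℂ) with hz'
  have hMc : (((N * M' : ℤ) : ℝ) : ℂ) ≠ 0 := by
    rw [Complex.ofReal_ne_zero]; exact hMr'.ne'
  have e1 : u = (((N * M' : ℤ) : ℝ) : ℂ) * z' + (-(y0' : ℂ) * Complex.I) := by
    rw [hz', mul_div_cancel₀ _ hMc]; ring
  have d1 : dist z' z < r0 / 4 := by
    rw [dist_eq_norm] at hu ⊢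
    have e2 : u - ((((N * M' : ℤ) : ℝ) : ℂ) * z + (-(y0' : ℂ) * Complex.I)) =
        (((N * M' : ℤ) : ℝ) : ℂ) * (z' - z) := by
      rw [e1]; ring
    rw [e2, norm_mul, Complex.norm_real, Real.norm_of_nonneg hMr'.le] at hu
    exact lt_of_mul_lt_mul_left hu hMr'.le
  rw [e1]
  refine cells z' ?_
  rw [mem_ball]
  have := dist_triangle z' z z0
  linarith

/-- **A point of the interior and its cell.** -/
theorem omC_cell {C : CD} {u : ℂ} (h : u ∈ OmC C) : 0 ≤ ⌊u.im⌋ ∧ ⌊u.im⌋ < C.H ∧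
    (C.A ⌊u.im⌋ : ℝ) ≤ u.re ∧ u.re ≤ C.W ∧ 0 < u.im ∧ u.im < C.H := by
  have h' : u ∈ interior (OmS C) := h
  obtain ⟨ε, hε, hb⟩ := Metric.isOpen_iff.1 isOpen_interior _ h'
  have hs : ∀ v : ℂ, dist v u < ε → v ∈ OmS C := fun v hv => interior_subset (hb (mem_ball.2 hv))
  have f1 := Int.floor_le u.im
  have f2 := Int.lt_floor_add_one u.im
  -- a point above
  set δ : ℝ := min (ε / 2) ((⌊u.im⌋ + 1 - u.im) / 2) with hδ
  have hδ0 : 0 < δ := lt_min (by linarith) (by linarith)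
  have hδ1 : δ ≤ ε / 2 := min_le_left _ _
  have hδ2 : δ ≤ (⌊u.im⌋ + 1 - u.im) / 2 := min_le_right _ _
  have hup := hs (u + (δ : ℂ) * Complex.I) (by
    rw [dist_eq_norm, add_sub_cancel_left, norm_mul, Complex.norm_I, mul_one, Complex.norm_real,
      Real.norm_of_nonneg hδ0.le]
    linarith)
  obtain ⟨Y, Y0, Y1, Y2, Y3, Y4, Y5⟩ := hup
  have ere : (u + (δ : ℂ) * Complex.I).re = u.re := by simp
  have eim : (u + (δ : ℂ) * Complex.I).im = u.im + δ := by simp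
  rw [ere] at Y4 Y5
  rw [eim] at Y2 Y3
  have hY : Y = ⌊u.im⌋ := by
    have k1 : Y < ⌊u.im⌋ + 1 := by
      have : (Y : ℝ) < ⌊u.im⌋ + 1 := by linarith
      exact_mod_cast this
    have k2 : ⌊u.im⌋ < Y + 1 := by
      have : (⌊u.im⌋ : ℝ) < Y + 1 := by linarith
      exact_mod_cast this
    omega
  rw [← hY]
  refine ⟨Y0, Y1, Y4, Y5, ?_, ?_⟩
  · -- a point below
    have hdn := hs (u - ((ε / 2 : ℝ) : ℂ) * Complex.I) (by
      rw [dist_eq_norm, sub_sub_cancel_left, norm_neg, norm_mul, Complex.norm_I, mul_one,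
        Complex.norm_real, Real.norm_of_nonneg (by linarith)]
      linarith)
    obtain ⟨Z, Z0, -, Z2, -, -, -⟩ := hdn
    have eim' : (u - ((ε / 2 : ℝ) : ℂ) * Complex.I).im = u.im - ε / 2 := by simp
    rw [eim'] at Z2
    have : (0 : ℝ) ≤ Z := by exact_mod_cast Z0
    linarith
  · have : ((Y + 1 : ℤ) : ℝ) ≤ C.H := by exact_mod_cast Y1
    push_cast at this
    rw [← hY] at f2
    linarith

end Pool.Agent.H68.W
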