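import Mathlib
import Pool.Agent.Q1.M4.Poly

set_option autoImplicit false
open Set

/-! # Diamond polyominoes: connectedness

`f`, `g` : column and row of the refined polyomino at an integer coordinate, all fibres have length at
least two. The cells `c` of the tile frame with `(f (c.1 - c.2), g (c.1 + c.2)) ∈ S`. -/

namespace Pool.Agent.H68.W

open Pool.Agent.H75.Perc (dir dir_cases)
open Pool.Agent.Q1.M4 (Cell Adj4 Conn4 Good)

/-- unit steps, fibres of length at least two, onto -/
structure Fib (f : ℤ → ℤ) : Prop where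
  step : ∀ i, f (i + 1) = f i ∨ f (i + 1) = f i + 1
  two : ∀ i, f (i + 2) ≤ f i + 1
  surj : ∀ a, ∃ i, f i = a

namespace Fib

variable {f : ℤ → ℤ}

lemma mono (h : Fib f) : Monotone f := by
  apply monotone_int_of_le_succ
  intro i
  rcases h.step i with e | e <;> omega

lemma pm (h : Fib f) (i : ℤ) : f (i + 1) = f i ∨ f (i - 1) = f i := by
  have h1 := h.step i
  have h2 := h.step (i - 1)
  have h3 := h.two (i - 1)
  rw [sub_add_cancel] at h2
  rw [show i - 1 + 2 = i + 1 by ring] at h3
  omega

/-- the last index of a fibre -/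
lemma last (h : Fib f) (a : ℤ) : ∃ i, f i = a ∧ f (i + 1) = a + 1 := by
  obtain ⟨i0, h0⟩ := h.surj a
  obtain ⟨i1, h1⟩ := h.surj (a + 1)
  have hlt : i0 < i1 := by
    by_contra hc
    have := h.mono (not_lt.1 hc)
    omega
  have key : ∀ n : ℕ, ∀ i, f i = a → i + n = i1 → ∃ i, f i = a ∧ f (i + 1) = a + 1 := by
    intro n
    induction n with
    | zero =>
      intro i hi hn
      have : i = i1 := by simpa using hn
      rw [this] at hi; omega
    | succ n ih =>
      intro i hi hn
      rcases h.step i with e | e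
      · exact ih (i + 1) (by rw [e, hi]) (by push_cast at hn ⊢; omega)
      · exact ⟨i, hi, by rw [e, hi]⟩
  exact key (i1 - i0).toNat i0 h0 (by omega)

/-- two neighbours in a fibre -/
lemma pair (h : Fib f) (a : ℤ) : ∃ j, f j = a ∧ f (j + 1) = a := by
  obtain ⟨j, hj⟩ := h.surj a
  rcases h.pm j with e | e
  · exact ⟨j, hj, by rw [e, hj]⟩
  · exact ⟨j - 1, by rw [e, hj], by rw [sub_add_cancel, hj]⟩

lemma between (h : Fib f) {i i' k : ℤ} (e : f i = f i') (h1 : min i i' ≤ k) (h2 : k ≤ max i i') :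
    f k = f i := by
  rcases le_total i i' with hl | hl
  · rw [min_eq_left hl] at h1
    rw [max_eq_right hl] at h2
    have := h.mono h1
    have := h.mono h2
    omega
  · rw [min_eq_right hl] at h1
    rw [max_eq_left hl] at h2
    have := h.mono h1
    have := h.mono h2
    omega

end Fib

section

variable (f g : ℤ → ℤ) (S : Set Cell)

/-- the cells of the tile frame over `S` -/
def Dia : Set Cell := {c | (f (c.1 - c.2), g (c.1 + c.2)) ∈ S}

/-- diagonal step between points of even parity, the new point lies over `S` -/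
def EStep (a b : ℤ × ℤ) : Prop :=
  (a.1 + a.2) % 2 = 0 ∧ (b.1 = a.1 + 1 ∨ b.1 = a.1 - 1) ∧ (b.2 = a.2 + 1 ∨ b.2 = a.2 - 1) ∧
    (f b.1, g b.2) ∈ S

variable {f g S}

lemma estep_adj {a b : ℤ × ℤ} (h : EStep f g S a b) :
    Adj4 ((a.1 + a.2) / 2, (a.2 - a.1) / 2) ((b.1 + b.2) / 2, (b.2 - b.1) / 2) ∧
      ((b.1 + b.2) / 2, (b.2 - b.1) / 2) ∈ Dia f g S := by
  obtain ⟨i, j⟩ := a
  obtain ⟨i', j'⟩ := b
  obtain ⟨h0, h1, h2, h3⟩ := h
  simp only at h0 h1 h2 h3
  constructor
  · simp only
    have d0 : dir 0 = (1, 0) := by decide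
    have d1 : dir 1 = (0, 1) := by decide
    have d2 : dir 2 = (-1, 0) := by decide
    have d3 : dir 3 = (0, -1) := by decide
    rcases h1 with e1 | e1 <;> rcases h2 with e2 | e2
    · exact ⟨0, by rw [d0]; refine Prod.ext ?_ ?_ <;> simp only [Prod.mk_add_mk] <;> omega⟩
    · exact ⟨3, by rw [d3]; refine Prod.ext ?_ ?_ <;> simp only [Prod.mk_add_mk] <;> omega⟩
    · exact ⟨1, by rw [d1]; refine Prod.ext ?_ ?_ <;> simp only [Prod.mk_add_mk] <;> omega⟩
    · exact ⟨2, by rw [d2]; refine Prod.ext ?_ ?_ <;> simp only [Prod.mk_add_mk] <;> omega⟩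
  · show (f ((i' + j') / 2 - (j' - i') / 2), g ((i' + j') / 2 + (j' - i') / 2)) ∈ S
    have e1 : (i' + j') / 2 - (j' - i') / 2 = i' := by omega
    have e2 : (i' + j') / 2 + (j' - i') / 2 = j' := by omega
    rw [e1, e2]; exact h3

/-- paths of diagonal steps give paths of cells -/
lemma path_of_estep {c d : Cell}
    (h : Relation.ReflTransGen (EStep f g S) (c.1 - c.2, c.1 + c.2) (d.1 - d.2, d.1 + d.2)) :
    Relation.ReflTransGen (fun a b => Adj4 a b ∧ b ∈ Dia f g S) c d := by
  have := Relation.ReflTransGen.lift (r := EStep f g S) (p := fun a b => Adj4 a b ∧ b ∈ Dia f g S)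
    (fun a : ℤ × ℤ => (((a.1 + a.2) / 2, (a.2 - a.1) / 2) : Cell)) (fun a b hab => estep_adj hab)
    _ _ h
  have e : ∀ c : Cell, (((c.1 - c.2 + (c.1 + c.2)) / 2, ((c.1 + c.2) - (c.1 - c.2)) / 2) : Cell) = c := by
    intro c
    refine Prod.ext ?_ ?_ <;> simp only <;> omega
  have h2 : Relation.ReflTransGen (fun a b => Adj4 a b ∧ b ∈ Dia f g S)
      (((c.1 - c.2 + (c.1 + c.2)) / 2, ((c.1 + c.2) - (c.1 - c.2)) / 2) : Cell)
      (((d.1 - d.2 + (d.1 + d.2)) / 2, ((d.1 + d.2) - (d.1 - d.2)) / 2) : Cell) := this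
  rwa [e, e] at h2

/-- a point of even parity is connected with every point of its block -/
lemma inblock (hf : Fib f) (hg : Fib g) : ∀ n : ℕ, ∀ i j i' j' : ℤ, (i + j) % 2 = 0 →
    (i' + j') % 2 = 0 → (f i, g j) ∈ S → f i = f i' → g j = g j' →
    (i - i').natAbs + (j - j').natAbs ≤ n →
    Relation.ReflTransGen (EStep f g S) (i, j) (i', j') := by
  intro n
  induction n using Nat.strong_induction_on with
  | _ n ih =>
    intro i j i' j' hp hp' hS hi hj hn
    by_cases e1 : i = i'
    · by_cases e2 : j = j'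
      · subst e1 e2; exact Relation.ReflTransGen.refl
      · subst e1
        -- two steps towards `j'`
        obtain ⟨ε, hε, hfε⟩ : ∃ ε : ℤ, (ε = 1 ∨ ε = -1) ∧ f (i + ε) = f i := by
          rcases hf.pm i with e | e
          · exact ⟨1, Or.inl rfl, e⟩
          · exact ⟨-1, Or.inr rfl, e⟩
        obtain ⟨δ, hδ, hδ'⟩ : ∃ δ : ℤ, (δ = 1 ∨ δ = -1) ∧
            (j - j').natAbs = (j + 2 * δ - j').natAbs + 2 := by
          rcases lt_or_gt_of_ne e2 with h | h
          · exact ⟨1, Or.inl rfl, by omega⟩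
          · exact ⟨-1, Or.inr rfl, by omega⟩
        have g1 : g (j + δ) = g j := hg.between hj (by rcases hδ with h | h <;> omega)
          (by rcases hδ with h | h <;> omega)
        have g2 : g (j + 2 * δ) = g j := hg.between hj (by rcases hδ with h | h <;> omega)
          (by rcases hδ with h | h <;> omega)
        have s1 : EStep f g S (i, j) (i + ε, j + δ) :=
          ⟨hp, by rcases hε with h | h <;> rw [h] <;> simp [sub_eq_add_neg],
            by rcases hδ with h | h <;> rw [h] <;> simp [sub_eq_add_neg],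
            by simp only; rw [hfε, g1]; exact hS⟩
        have s2 : EStep f g S (i + ε, j + δ) (i, j + 2 * δ) :=
          ⟨by simp only; rcases hε with h | h <;> rcases hδ with h' | h' <;> omega,
            by simp only; rcases hε with h | h <;> omega,
            by simp only; rcases hδ with h | h <;> omega,
            by simp only; rw [g2]; exact hS⟩
        have s3 := ih (n - 2) (by omega) i (j + 2 * δ) i j' (by omega) hp' (by rw [g2]; exact hS) rfl
          (by rw [g2, hj]) (by omega)
        exact (Relation.ReflTransGen.single s1).trans ((Relation.ReflTransGen.single s2).trans s3)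
    · by_cases e2 : j = j'
      · subst e2
        obtain ⟨ε, hε, hgε⟩ : ∃ ε : ℤ, (ε = 1 ∨ ε = -1) ∧ g (j + ε) = g j := by
          rcases hg.pm j with e | e
          · exact ⟨1, Or.inl rfl, e⟩
          · exact ⟨-1, Or.inr rfl, e⟩
        obtain ⟨δ, hδ, hδ'⟩ : ∃ δ : ℤ, (δ = 1 ∨ δ = -1) ∧
            (i - i').natAbs = (i + 2 * δ - i').natAbs + 2 := by
          rcases lt_or_gt_of_ne e1 with h | h
          · exact ⟨1, Or.inl rfl, by omega⟩
          · exact ⟨-1, Or.inr rfl, by omega⟩
        have f1 : f (i + δ) = f i := hf.between hi (by rcases hδ with h | h <;> omega)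
          (by rcases hδ with h | h <;> omega)
        have f2 : f (i + 2 * δ) = f i := hf.between hi (by rcases hδ with h | h <;> omega)
          (by rcases hδ with h | h <;> omega)
        have s1 : EStep f g S (i, j) (i + δ, j + ε) :=
          ⟨hp, by rcases hδ with h | h <;> rw [h] <;> simp [sub_eq_add_neg],
            by rcases hε with h | h <;> rw [h] <;> simp [sub_eq_add_neg],
            by simp only; rw [hgε, f1]; exact hS⟩
        have s2 : EStep f g S (i + δ, j + ε) (i + 2 * δ, j) :=
          ⟨by simp only; rcases hε with h | h <;> rcases hδ with h' | h' <;> omega,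
            by simp only; rcases hδ with h | h <;> omega,
            by simp only; rcases hε with h | h <;> omega,
            by simp only; rw [f2]; exact hS⟩
        have s3 := ih (n - 2) (by omega) (i + 2 * δ) j i' j (by omega) hp' (by rw [f2]; exact hS)
          (by rw [f2, hi]) rfl (by omega)
        exact (Relation.ReflTransGen.single s1).trans ((Relation.ReflTransGen.single s2).trans s3)
      · -- one diagonal step
        obtain ⟨ε, hε, hε'⟩ : ∃ ε : ℤ, (ε = 1 ∨ ε = -1) ∧
            (i - i').natAbs = (i + ε - i').natAbs + 1 := by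
          rcases lt_or_gt_of_ne e1 with h | h
          · exact ⟨1, Or.inl rfl, by omega⟩
          · exact ⟨-1, Or.inr rfl, by omega⟩
        obtain ⟨δ, hδ, hδ'⟩ : ∃ δ : ℤ, (δ = 1 ∨ δ = -1) ∧
            (j - j').natAbs = (j + δ - j').natAbs + 1 := by
          rcases lt_or_gt_of_ne e2 with h | h
          · exact ⟨1, Or.inl rfl, by omega⟩
          · exact ⟨-1, Or.inr rfl, by omega⟩
        have f1 : f (i + ε) = f i := hf.between hi (by rcases hε with h | h <;> omega)
          (by rcases hε with h | h <;> omega)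
        have g1 : g (j + δ) = g j := hg.between hj (by rcases hδ with h | h <;> omega)
          (by rcases hδ with h | h <;> omega)
        have s1 : EStep f g S (i, j) (i + ε, j + δ) :=
          ⟨hp, by rcases hε with h | h <;> rw [h] <;> simp [sub_eq_add_neg],
            by rcases hδ with h | h <;> rw [h] <;> simp [sub_eq_add_neg],
            by simp only; rw [f1, g1]; exact hS⟩
        have s3 := ih (n - 2) (by omega) (i + ε) (j + δ) i' j'
          (by rcases hε with h | h <;> rcases hδ with h' | h' <;> omega) hp'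
          (by rw [f1, g1]; exact hS) (by rw [f1, hi]) (by rw [g1, hj]) (by omega)
        exact (Relation.ReflTransGen.single s1).trans s3

/-- neighbouring blocks are linked -/
lemma link (hf : Fib f) (hg : Fib g) {A B : Cell} (h : Adj4 A B) (hB : B ∈ S) :
    ∃ i j i' j' : ℤ, (i + j) % 2 = 0 ∧ (i' + j') % 2 = 0 ∧ f i = A.1 ∧ g j = A.2 ∧ f i' = B.1 ∧
      g j' = B.2 ∧ EStep f g S (i, j) (i', j') := by
  obtain ⟨a, b⟩ := A
  obtain ⟨k, hk⟩ := h
  rcases dir_cases k with ⟨-, e⟩ | ⟨-, e⟩ | ⟨-, e⟩ | ⟨-, e⟩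
  · rw [e] at hk
    have hB' : B = (a + 1, b) := by rw [hk]; simp
    subst hB'
    obtain ⟨i, hi, hi'⟩ := hf.last a
    obtain ⟨j, hj, hj'⟩ := hg.pair b
    rcases Int.emod_two_eq_zero_or_one (i + j) with hp | hp
    · exact ⟨i, j, i + 1, j + 1, hp, by omega, hi, hj, hi', hj',
        hp, Or.inl rfl, Or.inl rfl, by simp only; rw [hi', hj']; exact hB⟩
    · exact ⟨i, j + 1, i + 1, j, by omega, by omega, hi, hj', hi', hj,
        by simp only; omega, Or.inl rfl, Or.inr (by simp only; omega),
        by simp only; rw [hi', hj]; exact hB⟩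
  · rw [e] at hk
    have hB' : B = (a, b + 1) := by rw [hk]; simp
    subst hB'
    obtain ⟨j, hj, hj'⟩ := hg.last b
    obtain ⟨i, hi, hi'⟩ := hf.pair a
    rcases Int.emod_two_eq_zero_or_one (i + j) with hp | hp
    · exact ⟨i, j, i + 1, j + 1, hp, by omega, hi, hj, hi', hj',
        hp, Or.inl rfl, Or.inl rfl, by simp only; rw [hi', hj']; exact hB⟩
    · exact ⟨i + 1, j, i, j + 1, by omega, by omega, hi', hj, hi, hj',
        by simp only; omega, Or.inr (by simp only; omega), Or.inl rfl,
        by simp only; rw [hi, hj']; exact hB⟩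
  · rw [e] at hk
    have hB' : B = (a - 1, b) := by rw [hk]; simp [sub_eq_add_neg]
    subst hB'
    obtain ⟨i, hi, hi'⟩ := hf.last (a - 1)
    rw [sub_add_cancel] at hi'
    obtain ⟨j, hj, hj'⟩ := hg.pair b
    rcases Int.emod_two_eq_zero_or_one (i + j) with hp | hp
    · exact ⟨i + 1, j + 1, i, j, by omega, hp, hi', hj', hi, hj,
        by simp only; omega, Or.inr (by simp only; omega), Or.inr (by simp only; omega),
        by simp only; rw [hi, hj]; exact hB⟩
    · exact ⟨i + 1, j, i, j + 1, by omega, by omega, hi', hj, hi, hj',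
        by simp only; omega, Or.inr (by simp only; omega), Or.inl rfl,
        by simp only; rw [hi, hj']; exact hB⟩
  · rw [e] at hk
    have hB' : B = (a, b - 1) := by rw [hk]; simp [sub_eq_add_neg]
    subst hB'
    obtain ⟨j, hj, hj'⟩ := hg.last (b - 1)
    rw [sub_add_cancel] at hj'
    obtain ⟨i, hi, hi'⟩ := hf.pair a
    rcases Int.emod_two_eq_zero_or_one (i + j) with hp | hp
    · exact ⟨i + 1, j + 1, i, j, by omega, hp, hi', hj', hi, hj,
        by simp only; omega, Or.inr (by simp only; omega), Or.inr (by simp only; omega),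
        by simp only; rw [hi, hj]; exact hB⟩
    · exact ⟨i, j + 1, i + 1, j, by omega, by omega, hi, hj', hi', hj,
        by simp only; omega, Or.inl rfl, Or.inr (by simp only; omega),
        by simp only; rw [hi', hj]; exact hB⟩

/-- **Connectedness of the diamond polyomino.** -/
theorem conn_dia (hf : Fib f) (hg : Fib g) (hS : Conn4 S) : Conn4 (Dia f g S) := by
  intro c hc d hd
  have key : ∀ B : Cell, Relation.ReflTransGen (fun a b => Adj4 a b ∧ b ∈ S)
      (f (c.1 - c.2), g (c.1 + c.2)) B → ∀ i j : ℤ, (i + j) % 2 = 0 → f i = B.1 → g j = B.2 →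
      Relation.ReflTransGen (EStep f g S) (c.1 - c.2, c.1 + c.2) (i, j) := by
    intro B hB
    induction hB with
    | refl =>
      intro i j hp hi hj
      exact inblock hf hg _ _ _ _ _ (by omega) hp hc hi.symm hj.symm le_rfl
    | tail hAB hstep ih =>
      intro i j hp hi hj
      obtain ⟨hadj, hin⟩ := hstep
      obtain ⟨i1, j1, i2, j2, p1, p2, q1, q2, q3, q4, q5⟩ := link hf hg hadj hin
      have a1 := ih i1 j1 p1 q1 q2
      have a2 := inblock (S := S) hf hg _ i2 j2 i j p2 hp (by rw [q3, q4]; exact hin)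
        (by rw [q3, hi]) (by rw [q4, hj]) le_rfl
      exact a1.trans ((Relation.ReflTransGen.single q5).trans a2)
  apply path_of_estep
  exact key _ (hS _ hc _ hd) _ _ (by omega) rfl rfl

/-- no vertex with exactly two diagonal cells -/
theorem diag1_dia (hf : Fib f) (hg : Fib g) (c : Cell) (h1 : c ∈ Dia f g S)
    (h2 : c + (1, 1) ∈ Dia f g S) : c + (1, 0) ∈ Dia f g S ∨ c + (0, 1) ∈ Dia f g S := by
  obtain ⟨u, v⟩ := c
  simp only [Dia, Set.mem_ofPred_eq, Prod.mk_add_mk, add_zero] at h1 h2 ⊢
  -- centre `(u - v, u + v + 1)`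
  have e1 : u + 1 - (v + 1) = u - v := by ring
  have e2 : u + 1 + (v + 1) = u + v + 1 + 1 := by ring
  have e3 : u + 1 - v = u - v + 1 := by ring
  have e4 : u + 1 + v = u + v + 1 := by ring
  have e5 : u - (v + 1) = u - v - 1 := by ring
  have e6 : u + (v + 1) = u + v + 1 := by ring
  rw [e1, e2] at h2
  rw [e3, e4, e5, e6]
  have hfp := hf.pm (u - v)
  have hgp := hg.pm (u + v + 1)
  rw [show u + v + 1 - 1 = u + v by ring] at hgp
  rcases hfp with a | a <;> rcases hgp with b | b
  · left; rw [a, ← b]; exact h2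
  · left; rw [a, ← b]; exact h1
  · right; rw [a, ← b]; exact h2
  · right; rw [a, ← b]; exact h1

theorem diag2_dia (hf : Fib f) (hg : Fib g) (c : Cell) (h1 : c + (1, 0) ∈ Dia f g S)
    (h2 : c + (0, 1) ∈ Dia f g S) : c ∈ Dia f g S ∨ c + (1, 1) ∈ Dia f g S := by
  obtain ⟨u, v⟩ := c
  simp only [Dia, Set.mem_ofPred_eq, Prod.mk_add_mk, add_zero] at h1 h2 ⊢
  have e1 : u + 1 - (v + 1) = u - v := by ring
  have e2 : u + 1 + (v + 1) = u + v + 1 + 1 := by ring
  have e3 : u + 1 - v = u - v + 1 := by ring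
  have e4 : u + 1 + v = u + v + 1 := by ring
  have e5 : u - (v + 1) = u - v - 1 := by ring
  have e6 : u + (v + 1) = u + v + 1 := by ring
  rw [e3, e4] at h1
  rw [e5, e6] at h2
  rw [e1, e2]
  have hfp := hf.pm (u - v)
  have hgp := hg.pm (u + v + 1)
  rw [show u + v + 1 - 1 = u + v by ring] at hgp
  rcases hfp with a | a <;> rcases hgp with b | b
  · right; rw [b, ← a]; exact h1
  · left; rw [b, ← a]; exact h1
  · right; rw [b, ← a]; exact h2
  · left; rw [b, ← a]; exact h2

/-- **The diamond polyomino is good.** -/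
theorem good_dia (hf : Fib f) (hg : Fib g) {Q : Finset Cell} (hQ : (Q : Set Cell) = Dia f g S)
    (hne : S.Nonempty) (h1 : Conn4 S) (h2 : Conn4 Sᶜ) : Good Q := by
  have hmem : ∀ c, c ∈ Q ↔ c ∈ Dia f g S := by
    intro c; rw [← hQ]; exact Finset.mem_coe.symm
  have hcompl : (Q : Set Cell)ᶜ = Dia f g Sᶜ := by
    rw [hQ]; rfl
  refine ⟨?_, ?_, ?_, ?_, ?_⟩
  · obtain ⟨⟨a, b⟩, hab⟩ := hne
    obtain ⟨i, hi, hi'⟩ := hf.pair a
    obtain ⟨j, hj, hj'⟩ := hg.pair b
    rcases Int.emod_two_eq_zero_or_one (i + j) with hp | hp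
    · refine ⟨((i + j) / 2, (j - i) / 2), (hmem _).2 ?_⟩
      show (f ((i + j) / 2 - (j - i) / 2), g ((i + j) / 2 + (j - i) / 2)) ∈ S
      rw [show (i + j) / 2 - (j - i) / 2 = i by omega, show (i + j) / 2 + (j - i) / 2 = j by omega,
        hi, hj]
      exact hab
    · refine ⟨((i + j + 1) / 2, (j - i + 1) / 2), (hmem _).2 ?_⟩
      show (f ((i + j + 1) / 2 - (j - i + 1) / 2), g ((i + j + 1) / 2 + (j - i + 1) / 2)) ∈ S
      rw [show (i + j + 1) / 2 - (j - i + 1) / 2 = i by omega,
        show (i + j + 1) / 2 + (j - i + 1) / 2 = j + 1 by omega, hi, hj']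
      exact hab
  · rw [hQ]; exact conn_dia hf hg h1
  · rw [hcompl]; exact conn_dia hf hg h2
  · intro c a b
    rw [hmem] at a b
    rcases diag1_dia hf hg c a b with e | e
    · exact Or.inl ((hmem _).2 e)
    · exact Or.inr ((hmem _).2 e)
  · intro c a b
    rw [hmem] at a b
    rcases diag2_dia hf hg c a b with e | e
    · exact Or.inl ((hmem _).2 e)
    · exact Or.inr ((hmem _).2 e)

end

end Pool.Agent.H68.W
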