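import Mathlib
import Pool.Agent.Q1.M4.Poly

set_option autoImplicit false
open Set

/-! # Undirected paths of cells -/

namespace Pool.Agent.H68.W

open Pool.Agent.H75.Perc (dir dir_cases)
open Pool.Agent.Q1.M4 (Cell Adj4 Conn4 Good)

/-- step inside of `S` -/
def US (S : Set Cell) (a b : Cell) : Prop := Adj4 a b ∧ a ∈ S ∧ b ∈ S

lemma adj_symm {a b : Cell} (h : Adj4 a b) : Adj4 b a := by
  obtain ⟨k, rfl⟩ := h
  have d0 : dir 0 = (1, 0) := by decide
  have d1 : dir 1 = (0, 1) := by decide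
  have d2 : dir 2 = (-1, 0) := by decide
  have d3 : dir 3 = (0, -1) := by decide
  obtain ⟨i, j⟩ := a
  rcases dir_cases k with ⟨-, e⟩ | ⟨-, e⟩ | ⟨-, e⟩ | ⟨-, e⟩ <;> rw [e]
  · exact ⟨2, by rw [d2]; simp⟩
  · exact ⟨3, by rw [d3]; simp⟩
  · exact ⟨0, by rw [d0]; simp⟩
  · exact ⟨1, by rw [d1]; simp⟩

lemma us_symm {S : Set Cell} {a b : Cell} (h : Relation.ReflTransGen (US S) a b) :
    Relation.ReflTransGen (US S) b a := by
  induction h with
  | refl => exact Relation.ReflTransGen.refl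
  | tail _ hs ih => exact Relation.ReflTransGen.head ⟨adj_symm hs.1, hs.2.2, hs.2.1⟩ ih

lemma us_path {S : Set Cell} {a b : Cell} (h : Relation.ReflTransGen (US S) a b) :
    Relation.ReflTransGen (fun a b => Adj4 a b ∧ b ∈ S) a b :=
  Relation.ReflTransGen.mono (fun _ _ hab => ⟨hab.1, hab.2.2⟩) _ _ h

lemma adjR (a b : ℤ) : Adj4 (a, b) (a + 1, b) := ⟨0, by
  rw [show dir 0 = (1, 0) by decide]; simp⟩
lemma adjU (a b : ℤ) : Adj4 (a, b) (a, b + 1) := ⟨1, by
  rw [show dir 1 = (0, 1) by decide]; simp⟩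
lemma adjL (a b : ℤ) : Adj4 (a, b) (a - 1, b) := ⟨2, by
  rw [show dir 2 = (-1, 0) by decide]; simp [sub_eq_add_neg]⟩
lemma adjD (a b : ℤ) : Adj4 (a, b) (a, b - 1) := ⟨3, by
  rw [show dir 3 = (0, -1) by decide]; simp [sub_eq_add_neg]⟩

lemma hline_aux {S : Set Cell} (b : ℤ) : ∀ n : ℕ, ∀ a : ℤ, (∀ k : ℤ, a ≤ k → k ≤ a + n → (k, b) ∈ S) →
    Relation.ReflTransGen (US S) (a, b) (a + n, b) := by
  intro n
  induction n with
  | zero => intro a _; simpa using Relation.ReflTransGen.refl
  | succ n ih =>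
    intro a h
    have h1 : US S (a, b) (a + 1, b) := ⟨adjR a b, h _ le_rfl (by omega), h _ (by omega) (by push_cast; omega)⟩
    have h2 := ih (a + 1) (fun k h3 h4 => h k (by omega) (by push_cast; omega))
    rw [show a + 1 + (n : ℤ) = a + ((n + 1 : ℕ) : ℤ) by push_cast; ring] at h2
    exact Relation.ReflTransGen.head h1 h2

lemma hline {S : Set Cell} (a a' b : ℤ) (h : ∀ k : ℤ, min a a' ≤ k → k ≤ max a a' → (k, b) ∈ S) :
    Relation.ReflTransGen (US S) (a, b) (a', b) := by
  rcases le_total a a' with g | g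
  · rw [min_eq_left g, max_eq_right g] at h
    have := hline_aux b (a' - a).toNat a (fun k h1 h2 => h k h1 (by omega))
    rwa [show a + ((a' - a).toNat : ℤ) = a' by omega] at this
  · rw [min_eq_right g, max_eq_left g] at h
    have := hline_aux b (a - a').toNat a' (fun k h1 h2 => h k h1 (by omega))
    rw [show a' + ((a - a').toNat : ℤ) = a by omega] at this
    exact us_symm this

lemma vline_aux {S : Set Cell} (a : ℤ) : ∀ n : ℕ, ∀ b : ℤ, (∀ k : ℤ, b ≤ k → k ≤ b + n → (a, k) ∈ S) →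
    Relation.ReflTransGen (US S) (a, b) (a, b + n) := by
  intro n
  induction n with
  | zero => intro b _; simpa using Relation.ReflTransGen.refl
  | succ n ih =>
    intro b h
    have h1 : US S (a, b) (a, b + 1) := ⟨adjU a b, h _ le_rfl (by omega), h _ (by omega) (by push_cast; omega)⟩
    have h2 := ih (b + 1) (fun k h3 h4 => h k (by omega) (by push_cast; omega))
    rw [show b + 1 + (n : ℤ) = b + ((n + 1 : ℕ) : ℤ) by push_cast; ring] at h2
    exact Relation.ReflTransGen.head h1 h2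

lemma vline {S : Set Cell} (a b b' : ℤ) (h : ∀ k : ℤ, min b b' ≤ k → k ≤ max b b' → (a, k) ∈ S) :
    Relation.ReflTransGen (US S) (a, b) (a, b') := by
  rcases le_total b b' with g | g
  · rw [min_eq_left g, max_eq_right g] at h
    have := vline_aux a (b' - b).toNat b (fun k h1 h2 => h k h1 (by omega))
    rwa [show b + ((b' - b).toNat : ℤ) = b' by omega] at this
  · rw [min_eq_right g, max_eq_left g] at h
    have := vline_aux a (b - b').toNat b' (fun k h1 h2 => h k h1 (by omega))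
    rw [show b' + ((b - b').toNat : ℤ) = b by omega] at this
    exact us_symm this

end Pool.Agent.H68.W
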