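import Mathlib
import Pool.Agent.H5.C3.Stm
import Pool.Agent.H68.W.Dia
import Pool.Agent.H68.W.Path

set_option autoImplicit false
open Set

/-! # The collared polyomino is connected (T1) and the diamond polyomino is good (T2) -/

namespace Pool.Agent.H68.W

open Pool.Agent.H75.Perc (dir dir_cases)
open Pool.Agent.Q1.M4 (Cell Adj4 Conn4 Good)
open Pool.Agent.H48.Q1 (fl fl_spec fl_eq fl_iff fl_step fl_map)
open Pool.Agent.H5.C3

/-- the bulk cell of a cell -/
def bk (c : Cell) : Cell := (2 * c.1 + 1, 2 * c.2 + 1)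

/-- General principle: if the bulk cells of `T` are in `S`, the edge cells between two cells of `T` are in
`S`, and every point of `S` is connected with a bulk cell of `T`, then `S` is connected. -/
lemma conn_of_bulk {S T : Set Cell} (hT : Conn4 T)
    (h1 : ∀ c ∈ T, bk c ∈ S)
    (hV : ∀ i j : ℤ, (i, j) ∈ T → (i + 1, j) ∈ T → (2 * i + 2, 2 * j + 1) ∈ S)
    (hH : ∀ i j : ℤ, (i, j) ∈ T → (i, j + 1) ∈ T → (2 * i + 1, 2 * j + 2) ∈ S)
    (h2 : ∀ r ∈ S, ∃ c ∈ T, Relation.ReflTransGen (US S) r (bk c)) : Conn4 S := by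
  have key : ∀ c ∈ T, ∀ d ∈ T, Relation.ReflTransGen (US S) (bk c) (bk d) := by
    intro c hc d hd
    have h := hT c hc d hd
    have : d ∈ T ∧ Relation.ReflTransGen (US S) (bk c) (bk d) := by
      induction h with
      | refl => exact ⟨hc, Relation.ReflTransGen.refl⟩
      | @tail a b _ hs ih =>
        obtain ⟨hadj, hb⟩ := hs
        by_cases hda : a ∈ T
        · obtain ⟨-, ih2⟩ := ih hda
          refine ⟨hb, ih2.trans ?_⟩
          obtain ⟨i, j⟩ := a
          obtain ⟨k, hk⟩ := hadj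
          have two : ∀ m : Cell, Adj4 (bk (i, j)) m → m ∈ S → Adj4 m (bk b) →
              Relation.ReflTransGen (US S) (bk (i, j)) (bk b) := by
            intro m ha1 hm ha2
            exact (Relation.ReflTransGen.single ⟨ha1, h1 _ hda, hm⟩).trans
              (Relation.ReflTransGen.single ⟨ha2, hm, h1 _ hb⟩)
          rcases dir_cases k with ⟨-, e⟩ | ⟨-, e⟩ | ⟨-, e⟩ | ⟨-, e⟩ <;> rw [e] at hk
          · have hb' : b = (i + 1, j) := by rw [hk]; simp
            subst hb'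
            refine two (2 * i + 2, 2 * j + 1) ?_ (hV i j hda hb) ?_
            · have := adjR (2 * i + 1) (2 * j + 1)
              rwa [show 2 * i + 1 + 1 = 2 * i + 2 by ring] at this
            · have := adjR (2 * i + 2) (2 * j + 1)
              rwa [show 2 * i + 2 + 1 = 2 * (i + 1) + 1 by ring] at this
          · have hb' : b = (i, j + 1) := by rw [hk]; simp
            subst hb'
            refine two (2 * i + 1, 2 * j + 2) ?_ (hH i j hda hb) ?_
            · have := adjU (2 * i + 1) (2 * j + 1)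
              rwa [show 2 * j + 1 + 1 = 2 * j + 2 by ring] at this
            · have := adjU (2 * i + 1) (2 * j + 2)
              rwa [show 2 * j + 2 + 1 = 2 * (j + 1) + 1 by ring] at this
          · have hb' : b = (i - 1, j) := by rw [hk]; simp [sub_eq_add_neg]
            subst hb'
            refine two (2 * i, 2 * j + 1) ?_ ?_ ?_
            · have := adjL (2 * i + 1) (2 * j + 1)
              rwa [show 2 * i + 1 - 1 = 2 * i by ring] at this
            · have := hV (i - 1) j hb (by rw [sub_add_cancel]; exact hda)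
              rwa [show 2 * (i - 1) + 2 = 2 * i by ring] at this
            · have := adjL (2 * i) (2 * j + 1)
              rwa [show 2 * i - 1 = 2 * (i - 1) + 1 by ring] at this
          · have hb' : b = (i, j - 1) := by rw [hk]; simp [sub_eq_add_neg]
            subst hb'
            refine two (2 * i + 1, 2 * j) ?_ ?_ ?_
            · have := adjD (2 * i + 1) (2 * j + 1)
              rwa [show 2 * j + 1 - 1 = 2 * j by ring] at this
            · have := hH i (j - 1) hb (by rw [sub_add_cancel]; exact hda)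
              rwa [show 2 * (j - 1) + 2 = 2 * j by ring] at this
            · have := adjD (2 * i + 1) (2 * j)
              rwa [show 2 * j - 1 = 2 * (j - 1) + 1 by ring] at this
        · exfalso
          apply hda
          rename_i hca
          rcases Relation.ReflTransGen.cases_tail hca with e | ⟨x, -, hx⟩
          · rw [e]; exact hc
          · exact hx.2
    exact this.2
  intro r hr s hs
  obtain ⟨c, hc, h3⟩ := h2 r hr
  obtain ⟨d, hd, h4⟩ := h2 s hs
  exact us_path (h3.trans ((key c hc d hd).trans (us_symm h4)))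

section

variable (Q : Finset Cell) (o : Cell → ℤ → Prop)

lemma conn_in (hQ : Conn4 (Q : Set Cell)) : Conn4 {r : ℤ × ℤ | Mm Q o r} := by
  have hbk : ∀ c ∈ (Q : Set Cell), bk c ∈ {r : ℤ × ℤ | Mm Q o r} := by
    intro c hc
    exact (Mm_oo Q o c.1 c.2).2 hc
  -- one step to an inside neighbour
  have one : ∀ a b : Cell, Adj4 a b → Mm Q o a → Mm Q o b →
      (∃ c ∈ (Q : Set Cell), Relation.ReflTransGen (US {r : ℤ × ℤ | Mm Q o r}) b (bk c)) →
      ∃ c ∈ (Q : Set Cell), Relation.ReflTransGen (US {r : ℤ × ℤ | Mm Q o r}) a (bk c) := by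
    rintro a b hab ha hb ⟨c, hc, h⟩
    exact ⟨c, hc, Relation.ReflTransGen.head ⟨hab, ha, hb⟩ h⟩
  have hH : ∀ i j : ℤ, Hz Q o i j →
      ∃ c ∈ (Q : Set Cell), Relation.ReflTransGen (US {r : ℤ × ℤ | Mm Q o r})
        (2 * i + 1, 2 * j) (bk c) := by
    intro i j h
    have hm : Mm Q o (2 * i + 1, 2 * j) := (Mm_oe Q o i j).2 h
    have up : (i, j) ∈ Q → ∃ c ∈ (Q : Set Cell),
        Relation.ReflTransGen (US {r : ℤ × ℤ | Mm Q o r}) (2 * i + 1, 2 * j) (bk c) := by
      intro hc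
      exact one _ (bk (i, j)) (adjU _ _) hm (hbk _ hc) ⟨_, hc, Relation.ReflTransGen.refl⟩
    have dn : (i, j - 1) ∈ Q → ∃ c ∈ (Q : Set Cell),
        Relation.ReflTransGen (US {r : ℤ × ℤ | Mm Q o r}) (2 * i + 1, 2 * j) (bk c) := by
      intro hc
      refine one _ (bk (i, j - 1)) ?_ hm (hbk _ hc) ⟨_, hc, Relation.ReflTransGen.refl⟩
      have := adjD (2 * i + 1) (2 * j)
      rwa [show 2 * j - 1 = 2 * (j - 1) + 1 by ring] at this
    rcases h with ⟨h, -⟩ | ⟨h, -⟩ | ⟨h, -⟩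
    · exact up h
    · exact up h
    · exact dn h
  have hV : ∀ i j : ℤ, Ve Q o i j →
      ∃ c ∈ (Q : Set Cell), Relation.ReflTransGen (US {r : ℤ × ℤ | Mm Q o r})
        (2 * i, 2 * j + 1) (bk c) := by
    intro i j h
    have hm : Mm Q o (2 * i, 2 * j + 1) := (Mm_eo Q o i j).2 h
    have rt : (i, j) ∈ Q → ∃ c ∈ (Q : Set Cell),
        Relation.ReflTransGen (US {r : ℤ × ℤ | Mm Q o r}) (2 * i, 2 * j + 1) (bk c) := by
      intro hc
      exact one _ (bk (i, j)) (adjR _ _) hm (hbk _ hc) ⟨_, hc, Relation.ReflTransGen.refl⟩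
    have lf : (i - 1, j) ∈ Q → ∃ c ∈ (Q : Set Cell),
        Relation.ReflTransGen (US {r : ℤ × ℤ | Mm Q o r}) (2 * i, 2 * j + 1) (bk c) := by
      intro hc
      refine one _ (bk (i - 1, j)) ?_ hm (hbk _ hc) ⟨_, hc, Relation.ReflTransGen.refl⟩
      have := adjL (2 * i) (2 * j + 1)
      rwa [show 2 * i - 1 = 2 * (i - 1) + 1 by ring] at this
    rcases h with ⟨h, -⟩ | ⟨h, -⟩ | ⟨h, -⟩
    · exact rt h
    · exact lf h
    · exact rt h
  refine conn_of_bulk hQ hbk ?_ ?_ ?_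
  · intro i j h1 h2
    show Mm Q o (2 * i + 2, 2 * j + 1)
    rw [show 2 * i + 2 = 2 * (i + 1) by ring, Mm_eo]
    left
    exact ⟨h2, by rw [add_sub_cancel_right]; exact h1⟩
  · intro i j h1 h2
    show Mm Q o (2 * i + 1, 2 * j + 2)
    rw [show 2 * j + 2 = 2 * (j + 1) by ring, Mm_oe]
    left
    exact ⟨h2, by rw [add_sub_cancel_right]; exact h1⟩
  · rintro ⟨a, b⟩ h
    obtain ⟨i, hi⟩ := Int.even_or_odd' a
    obtain ⟨j, hj⟩ := Int.even_or_odd' b
    rcases hi with rfl | rfl <;> rcases hj with rfl | rfl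
    · have hm : Mm Q o (2 * i, 2 * j) := h
      have h' := (Mm_ee Q o i j).1 hm
      rcases h' with ⟨h1, -, -, h4⟩ | h' | h' | h' | h'
      · exact one _ (2 * i + 1, 2 * j) (adjR _ _) hm ((Mm_oe Q o i j).2 (Or.inl ⟨h1, h4⟩))
          (hH i j (Or.inl ⟨h1, h4⟩))
      · exact one _ (2 * i + 1, 2 * j) (adjR _ _) hm ((Mm_oe Q o i j).2 (Or.inr (Or.inl h')))
          (hH i j (Or.inr (Or.inl h')))
      · exact one _ (2 * i, 2 * j + 1) (adjU _ _) hm ((Mm_eo Q o i j).2 (Or.inr (Or.inl h')))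
          (hV i j (Or.inr (Or.inl h')))
      · have hz : Hz Q o (i - 1) j := Or.inr (Or.inr h')
        have hadj := adjL (2 * i) (2 * j)
        rw [show 2 * i - 1 = 2 * (i - 1) + 1 by ring] at hadj
        exact one _ _ hadj hm ((Mm_oe Q o (i - 1) j).2 hz) (hH (i - 1) j hz)
      · have hz : Ve Q o i (j - 1) := Or.inr (Or.inr h')
        have hadj := adjD (2 * i) (2 * j)
        rw [show 2 * j - 1 = 2 * (j - 1) + 1 by ring] at hadj
        exact one _ _ hadj hm ((Mm_eo Q o i (j - 1)).2 hz) (hV i (j - 1) hz)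
    · exact hV i j ((Mm_eo Q o i j).1 h)
    · exact hH i j ((Mm_oe Q o i j).1 h)
    · exact ⟨(i, j), (Mm_oo Q o i j).1 h, Relation.ReflTransGen.refl⟩

lemma conn_out (hQ : Conn4 ((Q : Set Cell)ᶜ)) : Conn4 {r : ℤ × ℤ | ¬ Mm Q o r} := by
  have hbk : ∀ c ∈ ((Q : Set Cell)ᶜ), bk c ∈ {r : ℤ × ℤ | ¬ Mm Q o r} := by
    intro c hc h
    exact hc ((Mm_oo Q o c.1 c.2).1 h)
  have one : ∀ a b : Cell, Adj4 a b → ¬ Mm Q o a → ¬ Mm Q o b →
      (∃ c ∈ ((Q : Set Cell)ᶜ), Relation.ReflTransGen (US {r : ℤ × ℤ | ¬ Mm Q o r}) b (bk c)) →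
      ∃ c ∈ ((Q : Set Cell)ᶜ), Relation.ReflTransGen (US {r : ℤ × ℤ | ¬ Mm Q o r}) a (bk c) := by
    rintro a b hab ha hb ⟨c, hc, h⟩
    exact ⟨c, hc, Relation.ReflTransGen.head ⟨hab, ha, hb⟩ h⟩
  have hH : ∀ i j : ℤ, ¬ Hz Q o i j →
      ∃ c ∈ ((Q : Set Cell)ᶜ), Relation.ReflTransGen (US {r : ℤ × ℤ | ¬ Mm Q o r})
        (2 * i + 1, 2 * j) (bk c) := by
    intro i j h
    have hm : ¬ Mm Q o (2 * i + 1, 2 * j) := fun h' => h ((Mm_oe Q o i j).1 h')
    by_cases hc : (i, j) ∈ Q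
    · have hd : (i, j - 1) ∉ Q := fun hd => h (Or.inl ⟨hc, hd⟩)
      refine one _ (bk (i, j - 1)) ?_ hm (hbk _ hd) ⟨_, hd, Relation.ReflTransGen.refl⟩
      have := adjD (2 * i + 1) (2 * j)
      rwa [show 2 * j - 1 = 2 * (j - 1) + 1 by ring] at this
    · exact one _ (bk (i, j)) (adjU _ _) hm (hbk _ hc) ⟨_, hc, Relation.ReflTransGen.refl⟩
  have hV : ∀ i j : ℤ, ¬ Ve Q o i j →
      ∃ c ∈ ((Q : Set Cell)ᶜ), Relation.ReflTransGen (US {r : ℤ × ℤ | ¬ Mm Q o r})
        (2 * i, 2 * j + 1) (bk c) := by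
    intro i j h
    have hm : ¬ Mm Q o (2 * i, 2 * j + 1) := fun h' => h ((Mm_eo Q o i j).1 h')
    by_cases hc : (i, j) ∈ Q
    · have hd : (i - 1, j) ∉ Q := fun hd => h (Or.inl ⟨hc, hd⟩)
      refine one _ (bk (i - 1, j)) ?_ hm (hbk _ hd) ⟨_, hd, Relation.ReflTransGen.refl⟩
      have := adjL (2 * i) (2 * j + 1)
      rwa [show 2 * i - 1 = 2 * (i - 1) + 1 by ring] at this
    · exact one _ (bk (i, j)) (adjR _ _) hm (hbk _ hc) ⟨_, hc, Relation.ReflTransGen.refl⟩
  refine conn_of_bulk hQ hbk ?_ ?_ ?_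
  · intro i j h1 h2
    show ¬ Mm Q o (2 * i + 2, 2 * j + 1)
    rw [show 2 * i + 2 = 2 * (i + 1) by ring, Mm_eo]
    have h1' : (i, j) ∉ Q := h1
    have h2' : (i + 1, j) ∉ Q := h2
    unfold Ve
    rw [add_sub_cancel_right]
    tauto
  · intro i j h1 h2
    show ¬ Mm Q o (2 * i + 1, 2 * j + 2)
    rw [show 2 * j + 2 = 2 * (j + 1) by ring, Mm_oe]
    have h1' : (i, j) ∉ Q := h1
    have h2' : (i, j + 1) ∉ Q := h2
    unfold Hz
    rw [add_sub_cancel_right]
    tauto
  · rintro ⟨a, b⟩ h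
    obtain ⟨i, hi⟩ := Int.even_or_odd' a
    obtain ⟨j, hj⟩ := Int.even_or_odd' b
    rcases hi with rfl | rfl <;> rcases hj with rfl | rfl
    · have hm : ¬ Mm Q o (2 * i, 2 * j) := h
      have h' : ¬ Vx Q o i j := fun h' => hm ((Mm_ee Q o i j).2 h')
      have e1 : ¬ Hz Q o i j ∨ ¬ Ve Q o i j ∨ ¬ Hz Q o (i - 1) j ∨ ¬ Ve Q o i (j - 1) := by
        unfold Hz Ve
        unfold Vx at h'
        by_cases a1 : (i, j) ∈ Q <;> by_cases a2 : (i - 1, j) ∈ Q <;>
          by_cases a3 : (i - 1, j - 1) ∈ Q <;> by_cases a4 : (i, j - 1) ∈ Q <;>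
          simp only [a1, a2, a3, a4, true_and, false_and, and_true, and_false, not_true_eq_false,
            not_false_eq_true, true_or, false_or, or_false, or_true] at h' ⊢ <;> tauto
      rcases e1 with hz | hz | hz | hz
      · exact one _ (2 * i + 1, 2 * j) (adjR _ _) hm (fun t => hz ((Mm_oe Q o i j).1 t)) (hH i j hz)
      · exact one _ (2 * i, 2 * j + 1) (adjU _ _) hm (fun t => hz ((Mm_eo Q o i j).1 t)) (hV i j hz)
      · have hadj := adjL (2 * i) (2 * j)
        rw [show 2 * i - 1 = 2 * (i - 1) + 1 by ring] at hadj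
        exact one _ _ hadj hm (fun t => hz ((Mm_oe Q o (i - 1) j).1 t)) (hH (i - 1) j hz)
      · have hadj := adjD (2 * i) (2 * j)
        rw [show 2 * j - 1 = 2 * (j - 1) + 1 by ring] at hadj
        exact one _ _ hadj hm (fun t => hz ((Mm_eo Q o i (j - 1)).1 t)) (hV i (j - 1) hz)
    · exact hV i j (fun t => h ((Mm_eo Q o i j).2 t))
    · exact hH i j (fun t => h ((Mm_oe Q o i j).2 t))
    · exact ⟨(i, j), fun t => h ((Mm_oo Q o i j).2 t), Relation.ReflTransGen.refl⟩

end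

/-- **(T1)** -/
theorem stConn : StConn := fun Q hQ o => ⟨conn_in Q o hQ.conn, conn_out Q o hQ.conn_compl⟩

lemma fib_of_gap {l : ℤ → ℤ} (h : Gap l 2) : Fib (fl l) := by
  have hm := h.mono (by norm_num)
  refine ⟨fl_step hm, ?_, fun a => ⟨l a, fl_map hm a⟩⟩
  intro i
  obtain ⟨h1, h2⟩ := fl_spec hm i
  obtain ⟨h3, h4⟩ := fl_spec hm (i + 2)
  by_contra hc
  have hle : fl l i + 2 ≤ fl l (i + 2) := by omega
  have h5 := hm.monotone hle
  have h6 := h (fl l i + 1)
  rw [show fl l i + 1 + 1 = fl l i + 2 by ring] at h6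
  omega

lemma fib_shift {f : ℤ → ℤ} (h : Fib f) (t : ℤ) : Fib (fun i => f (i + t)) := by
  refine ⟨?_, ?_, ?_⟩
  · intro i
    have := h.step (i + t)
    rwa [show i + t + 1 = i + 1 + t by ring] at this
  · intro i
    have := h.two (i + t)
    rwa [show i + t + 2 = i + 2 + t by ring] at this
  · intro a
    obtain ⟨i, hi⟩ := h.surj a
    exact ⟨i - t, by simpa using hi⟩

/-- (T2) with the minimal gaps -/
theorem good_Dq {Q : Finset Cell} (hQ : Good Q) (o : Cell → ℤ → Prop) {lx ly : ℤ → ℤ}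
    (hx : Gap lx 2) (hy : Gap ly 2) : Good (Dq Q o lx ly) := by
  have hxm := hx.mono (by norm_num)
  have hym := hy.mono (by norm_num)
  refine good_dia (f := fl lx) (g := fun i => fl ly (i + 1)) (S := {r : ℤ × ℤ | Mm Q o r})
    (fib_of_gap hx) (fib_shift (fib_of_gap hy) 1) ?_ ?_ (stConn Q hQ o).1 (stConn Q hQ o).2
  · ext c
    rw [Finset.mem_coe, mem_Dq hxm hym]
    rfl
  · obtain ⟨c, hc⟩ := hQ.ne
    exact ⟨bk c, (Mm_oo Q o c.1 c.2).2 hc⟩

/-- **(T2)** -/
theorem stGood : StGood := fun _ hQ o _ _ hx hy =>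
  good_Dq hQ o (fun a => (by have := hx a; omega)) (fun a => (by have := hy a; omega))

end Pool.Agent.H68.W
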