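import Mathlib
import Pool.Agent.H68.W.Path

set_option autoImplicit false
open Set

/-! # The sheared polyomino is good (T10 (a)) -/

namespace Pool.Agent.H68.W

open Pool.Agent.H75.Perc (dir dir_cases)
open Pool.Agent.Q1.M4 (Cell Adj4 Conn4 Good)

/-- coarse cell of a fine cell: the column `x` of the coarse grid is moved up by `x` fine units -/
def shr (M : ℤ) (c : Cell) : Cell := (c.1 / M, (c.2 - c.1 / M) / M)

lemma shr_iff {M : ℤ} (hM : 0 < M) {a b X Y : ℤ} : shr M (a, b) = (X, Y) ↔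
    (X * M ≤ a ∧ a < X * M + M) ∧ (Y * M + X ≤ b ∧ b < Y * M + X + M) := by
  unfold shr
  simp only [Prod.mk.injEq]
  constructor
  · rintro ⟨h1, h2⟩
    rw [h1] at h2
    rw [Int.ediv_eq_iff_of_pos hM] at h1 h2
    constructor
    · constructor <;> nlinarith [h1.1, h1.2]
    · constructor <;> nlinarith [h2.1, h2.2]
  · rintro ⟨⟨h1, h2⟩, h3, h4⟩
    have e : a / M = X := by
      rw [Int.ediv_eq_iff_of_pos hM]
      constructor <;> nlinarith
    refine ⟨e, ?_⟩
    rw [e, Int.ediv_eq_iff_of_pos hM]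
    constructor <;> nlinarith

section

variable {M : ℤ} {S : Set Cell}

/-- the cells over `S` -/
def Shr (M : ℤ) (S : Set Cell) : Set Cell := {c | shr M c ∈ S}

lemma shr_block (hM : 0 < M) {c d : Cell} (hc : c ∈ Shr M S) (h : shr M c = shr M d) :
    Relation.ReflTransGen (US (Shr M S)) c d := by
  obtain ⟨a, b⟩ := c
  obtain ⟨a', b'⟩ := d
  obtain ⟨X, hX⟩ : ∃ X, shr M (a, b) = X := ⟨_, rfl⟩
  obtain ⟨X, Y⟩ := X
  have hS : (X, Y) ∈ S := by rw [← hX]; exact hc
  have h' : shr M (a', b') = (X, Y) := by rw [← h, hX]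
  rw [shr_iff hM] at hX h'
  have key : ∀ a b : ℤ, (X * M ≤ a ∧ a < X * M + M) → (Y * M + X ≤ b ∧ b < Y * M + X + M) →
      (a, b) ∈ Shr M S := by
    intro a b h1 h2
    show shr M (a, b) ∈ S
    rw [(shr_iff hM).2 ⟨h1, h2⟩]
    exact hS
  refine (hline a a' b fun k h1 h2 => key _ _ ?_ hX.2).trans
    (vline a' b b' fun k h1 h2 => key _ _ h'.1 ?_)
  · constructor
    · rcases min_le_iff.1 h1 with g | g <;> omega
    · rcases le_max_iff.1 h2 with g | g <;> omega
  · constructor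
    · rcases min_le_iff.1 h1 with g | g <;> omega
    · rcases le_max_iff.1 h2 with g | g <;> omega

lemma shr_link (hM : 2 ≤ M) {A B : Cell} (h : Adj4 A B) (hA : A ∈ S) (hB : B ∈ S) :
    ∃ c d : Cell, shr M c = A ∧ shr M d = B ∧ US (Shr M S) c d := by
  have hM0 : 0 < M := by omega
  have mk : ∀ {c d : Cell}, Adj4 c d → shr M c = A → shr M d = B →
      ∃ c d : Cell, shr M c = A ∧ shr M d = B ∧ US (Shr M S) c d := by
    intro c d h1 h2 h3
    exact ⟨c, d, h2, h3, h1, by show shr M c ∈ S; rw [h2]; exact hA,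
      by show shr M d ∈ S; rw [h3]; exact hB⟩
  obtain ⟨X, Y⟩ := A
  obtain ⟨k, hk⟩ := h
  rcases dir_cases k with ⟨-, e⟩ | ⟨-, e⟩ | ⟨-, e⟩ | ⟨-, e⟩ <;> rw [e] at hk
  · have hB' : B = (X + 1, Y) := by rw [hk]; simp
    subst hB'
    refine mk (adjR (X * M + M - 1) (Y * M + X + 1)) ((shr_iff hM0).2 ?_) ((shr_iff hM0).2 ?_)
    · constructor <;> constructor <;> nlinarith
    · constructor <;> constructor <;> nlinarith
  · have hB' : B = (X, Y + 1) := by rw [hk]; simp
    subst hB'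
    refine mk (adjU (X * M) (Y * M + X + M - 1)) ((shr_iff hM0).2 ?_) ((shr_iff hM0).2 ?_)
    · constructor <;> constructor <;> nlinarith
    · constructor <;> constructor <;> nlinarith
  · have hB' : B = (X - 1, Y) := by rw [hk]; simp [sub_eq_add_neg]
    subst hB'
    refine mk (adjL (X * M) (Y * M + X)) ((shr_iff hM0).2 ?_) ((shr_iff hM0).2 ?_)
    · constructor <;> constructor <;> nlinarith
    · constructor <;> constructor <;> nlinarith
  · have hB' : B = (X, Y - 1) := by rw [hk]; simp [sub_eq_add_neg]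
    subst hB'
    refine mk (adjD (X * M) (Y * M + X)) ((shr_iff hM0).2 ?_) ((shr_iff hM0).2 ?_)
    · constructor <;> constructor <;> nlinarith
    · constructor <;> constructor <;> nlinarith

theorem conn_shr (hM : 2 ≤ M) (hS : Conn4 S) : Conn4 (Shr M S) := by
  have hM0 : 0 < M := by omega
  intro c hc d hd
  apply us_path
  have key : ∀ B : Cell, Relation.ReflTransGen (fun a b => Adj4 a b ∧ b ∈ S) (shr M c) B →
      B ∈ S ∧ ∀ e : Cell, shr M e = B → Relation.ReflTransGen (US (Shr M S)) c e := by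
    intro B hB
    induction hB with
    | refl => exact ⟨hc, fun e he => shr_block hM0 hc he.symm⟩
    | tail _ hstep ih =>
      obtain ⟨hadj, hin⟩ := hstep
      refine ⟨hin, fun e he => ?_⟩
      obtain ⟨p, q, h1, h2, h3⟩ := shr_link hM hadj ih.1 hin
      exact (ih.2 p h1).trans ((Relation.ReflTransGen.single h3).trans
        (shr_block hM0 h3.2.2 (by rw [h2, he])))
  exact (key _ (hS _ hc _ hd)).2 d rfl

/-- **(T10 (a))** -/
theorem good_shr (hM : 2 ≤ M) {Q Q' : Finset Cell} (hQ : Good Q)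
    (hmem : ∀ c : Cell, c ∈ Q' ↔ ((c.1 / M, (c.2 - c.1 / M) / M) : Cell) ∈ Q) : Good Q' := by
  have hM0 : 0 < M := by omega
  have e1 : (Q' : Set Cell) = Shr M (Q : Set Cell) := by
    ext c
    rw [Finset.mem_coe, hmem]
    rfl
  have e2 : (Q' : Set Cell)ᶜ = Shr M ((Q : Set Cell)ᶜ) := by
    rw [e1]; rfl
  have loc : ∀ a b : ℤ, shr M (a, b) = shr M (a + 1, b) ∨
      (shr M (a + 1, b + 1) = shr M (a + 1, b) ∧ (shr M (a + 1, b + 1)).2 = (shr M (a, b)).2) ∨
      (shr M (a, b + 1) = shr M (a, b) ∧ (shr M (a + 1, b + 1)).2 = (shr M (a, b)).2) := by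
    intro a b
    obtain ⟨X, Y, hX⟩ : ∃ X Y, shr M (a, b) = (X, Y) := ⟨_, _, rfl⟩
    rw [hX]
    rw [shr_iff hM0] at hX
    by_cases h1 : a + 1 < X * M + M
    · left
      exact ((shr_iff hM0).2 ⟨⟨by omega, h1⟩, hX.2⟩).symm
    · right
      have f1 : shr M (a + 1, b + 1) = (X + 1, Y) :=
        (shr_iff hM0).2 ⟨⟨by nlinarith, by nlinarith⟩, by omega, by omega⟩
      by_cases h2 : Y * M + X + 1 ≤ b
      · left
        have f2 : shr M (a + 1, b) = (X + 1, Y) :=
          (shr_iff hM0).2 ⟨⟨by nlinarith, by nlinarith⟩, by omega, by omega⟩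
        rw [f1, f2]
        exact ⟨rfl, rfl⟩
      · right
        have f2 : shr M (a, b + 1) = (X, Y) :=
          (shr_iff hM0).2 ⟨hX.1, by omega, by omega⟩
        rw [f1, f2]
        exact ⟨rfl, rfl⟩
  have col : ∀ a b b' : ℤ, (shr M (a, b)).2 = (shr M (a, b')).2 → shr M (a, b) = shr M (a, b') := by
    intro a b b' h
    exact Prod.ext rfl h
  refine ⟨?_, ?_, ?_, ?_, ?_⟩
  · obtain ⟨⟨X, Y⟩, h⟩ := hQ.ne
    refine ⟨(X * M, Y * M + X), (hmem _).2 ?_⟩
    have : shr M (X * M, Y * M + X) = (X, Y) :=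
      (shr_iff hM0).2 ⟨⟨by omega, by omega⟩, by omega, by omega⟩
    unfold shr at this
    simp only at this ⊢
    rw [this]
    exact h
  · rw [e1]; exact conn_shr hM hQ.conn
  · rw [e2]; exact conn_shr hM hQ.conn_compl
  · rintro ⟨a, b⟩ h1 h2
    simp only [Prod.mk_add_mk, add_zero] at h2 ⊢
    have g1 : shr M (a, b) ∈ Q := (hmem _).1 h1
    have g2 : shr M (a + 1, b + 1) ∈ Q := (hmem _).1 h2
    have g3 : shr M (a + 1, b) ∈ Q → (a + 1, b) ∈ Q' := fun h => (hmem _).2 h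
    have g4 : shr M (a, b + 1) ∈ Q → (a, b + 1) ∈ Q' := fun h => (hmem _).2 h
    rcases loc a b with h | ⟨h, -⟩ | ⟨h, -⟩
    · left; apply g3; rw [← h]; exact g1
    · left; apply g3; rw [h] at g2; exact g2
    · right; apply g4; rw [h]; exact g1
  · rintro ⟨a, b⟩ h1 h2
    simp only [Prod.mk_add_mk, add_zero] at h1 h2 ⊢
    have g1 : shr M (a + 1, b) ∈ Q := (hmem _).1 h1
    have g2 : shr M (a, b + 1) ∈ Q := (hmem _).1 h2
    have g3 : shr M (a, b) ∈ Q → (a, b) ∈ Q' := fun h => (hmem _).2 h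
    have g4 : shr M (a + 1, b + 1) ∈ Q → (a + 1, b + 1) ∈ Q' := fun h => (hmem _).2 h
    rcases loc a b with h | ⟨h, -⟩ | ⟨h, -⟩
    · left; apply g3; rw [h]; exact g1
    · right; apply g4; rw [h]; exact g1
    · left; apply g3; rw [← h]; exact g2

end

end Pool.Agent.H68.W
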